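import Mathlib
import Pool.Agent.H868R3.PoleExt
import Pool.Agent.H194R3.Tate.Mixed

/-!
# Separated CM fields, prime type, maximal angle rank: definitions

The definitions used in `MP_557161_ag.SeparatedFactors`. `WeilSlopes` and `CrossFlipped` are defined
in `Pool.Agent.H194R3.Tate.PairMain` and `Pool.Agent.H194R3.Tate.Mixed`, `zeta` in
`Pool.Agent.H868R3.PoleExt`.
-/

set_option autoImplicit false
set_option linter.unusedSectionVars false
set_option linter.unusedVariables false

namespace Pool.Agent.Helper793_Prime

open NumberField Module Pool.Agent.H194R3.Tate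

/-! ## Pairs of CM fields -/

/-- The fields `F` and `F'` contain a common imaginary quadratic field. -/
def CommonImaginaryQuadratic (F F' : Type*) [Field F] [Field F'] : Prop :=
  ∃ (d : ℚ) (x : F) (y : F'), d < 0 ∧ x ^ 2 = (d : F) ∧ y ^ 2 = (d : F')

/-- The degree of the maximal real subfield of `F'` is a prime number and `F'` is not contained in
the Galois closure of `F` over the rational numbers. -/
def NotContained (F F' : Type*) [Field F] [NumberField F] [Field F'] [NumberField F'] : Prop :=
  (finrank ℚ (maximalRealSubfield F')).Prime ∧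
    IsEmpty (F' →+* IntermediateField.normalClosure ℚ F ℂ)

/-- The maximal real subfield of `F'` is linearly disjoint from the Galois closure of `F`: the
automorphisms of the complex numbers (it is the same to use endomorphisms) which fix the images of
all embeddings of `F` act transitively on the embeddings of the maximal real subfield of `F'`. -/
def RealDisjoint (F F' : Type*) [Field F] [Field F'] [NumberField F'] : Prop :=
  ∀ ψ ψ' : maximalRealSubfield F' →+* ℂ, ∃ τ : ℂ →+* ℂ,
    (∀ φ : F →+* ℂ, τ.comp φ = φ) ∧ τ.comp ψ = ψ'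

/-- The degrees of the maximal real subfields of `F` and `F'` are coprime, and both are odd, or one
of them is odd and the other field contains no imaginary quadratic field. -/
def CoprimeDegrees (F F' : Type*) [Field F] [NumberField F] [Field F'] [NumberField F'] : Prop :=
  Nat.Coprime (finrank ℚ (maximalRealSubfield F)) (finrank ℚ (maximalRealSubfield F')) ∧
    ((Odd (finrank ℚ (maximalRealSubfield F)) ∧ Odd (finrank ℚ (maximalRealSubfield F'))) ∨
      (Odd (finrank ℚ (maximalRealSubfield F)) ∧ ¬ CommonImaginaryQuadratic F' F') ∨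
      (Odd (finrank ℚ (maximalRealSubfield F')) ∧ ¬ CommonImaginaryQuadratic F F))

/-- The CM fields `F` and `F'` are separated: either all pairs of an embedding of `F` and an
embedding of `F'` are cross flipped; or `F` and `F'` contain no common imaginary quadratic field
and their degrees are coprime in the sense of `CoprimeDegrees`, or the maximal real subfield of one
of them is linearly disjoint from the Galois closure of the other one, or one of them has twice a
prime number as its degree and is not contained in the Galois closure of the other one. -/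
def Separated (F F' : Type*) [Field F] [NumberField F] [Field F'] [NumberField F'] : Prop :=
  (∀ (φ : F →+* ℂ) (ψ : F' →+* ℂ), CrossFlipped φ ψ) ∨
    (¬ CommonImaginaryQuadratic F F' ∧ (CoprimeDegrees F F' ∨ RealDisjoint F F' ∨
      RealDisjoint F' F ∨ NotContained F F' ∨ NotContained F' F))

/-! ## Weil numbers -/

/-- The Weil `p ^ m`-number `π` generates the CM field `F`, together with all its powers (the simple
abelian variety is absolutely simple), and the degree `n` of the maximal real subfield of `F` is `1`
or `2` or a prime number; in the last case `π` is not of Weil type. -/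
def PrimeType (p : ℕ) [Fact p.Prime] (m : ℕ) {F : Type*} [Field F] [NumberField F] (π : F) : Prop :=
  (∀ s : ℕ, 0 < s → IntermediateField.adjoin ℚ {π ^ s} = ⊤) ∧
    (finrank ℚ (maximalRealSubfield F) = 1 ∨ finrank ℚ (maximalRealSubfield F) = 2 ∨
      ((finrank ℚ (maximalRealSubfield F)).Prime ∧ ¬ WeilSlopes p π m))

/-- The angle rank of `π` is maximal: the multiplicative relations between the conjugates of `π`
(up to roots of unity) follow from the relations `φ π * conj (φ π) = q`. -/
def MaximalAngleRank {F : Type*} [Field F] [NumberField F] (π : F) : Prop :=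
  ∀ c : (F →+* ℂ) → ℤ, (∀ φ, c (ComplexEmbedding.conjugate φ) = -c φ) →
    (∃ s : ℕ, 0 < s ∧ (∏ φ : F →+* ℂ, φ π ^ c φ) ^ s = 1) → c = 0

variable {I : Type*} (p : ℕ) {K : I → Type*} [∀ i, Field (K i)]

/-- The number `μ` is, up to extension of the base field, a Frobenius eigenvalue of a supersingular
abelian variety, or a conjugate of one of the Weil `p ^ a i`-numbers `π i`: for some `N > 0` either
`μ ^ (2 N) = q ^ N`, `q = p ^ b`, or `μ ^ N = σ (π i) ^ M`, where `q ^ N = (p ^ a i) ^ M`. -/
def GeometricEigenvalue (b : ℕ) (a : I → ℕ) (π : ∀ i, K i) (μ : ℂ) : Prop :=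
  ∃ N : ℕ, 0 < N ∧ (μ ^ (2 * N) = ((p : ℂ) ^ b) ^ N ∨
    ∃ (i : I) (σ : K i →+* ℂ) (M : ℕ), b * N = a i * M ∧ μ ^ N = σ (π i) ^ M)

/-! ## Algebraic classes -/

variable {V : Type*} [AddCommGroup V] [Module ℂ V]

/-- The classes `y` of degree two with `F ^ N y = q ^ N y` for some `N > 0`. -/
def geometricDivisorClasses (q : ℂ) (F : V →ₗ[ℂ] V) : Set (ExteriorAlgebra ℂ V) :=
  {y | y ∈ ⋀[ℂ]^2 V ∧ ∃ N : ℕ, 0 < N ∧ ExteriorAlgebra.map (F ^ N) y = q ^ N • y}

/-- The classes `x` of degree `2 n` with `F x = q ^ n x` which are polynomials in the geometric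
divisor classes. -/
def algebraicClasses (q : ℂ) (F : V →ₗ[ℂ] V) (n : ℕ) : Submodule ℂ (ExteriorAlgebra ℂ V) where
  carrier := {x | x ∈ ⋀[ℂ]^(2 * n) V ∧ ExteriorAlgebra.map F x = q ^ n • x ∧
    x ∈ Algebra.adjoin ℂ (geometricDivisorClasses q F)}
  add_mem' := by
    rintro x y ⟨h1, h2, h3⟩ ⟨h1', h2', h3'⟩
    exact ⟨Submodule.add_mem _ h1 h1', by rw [map_add, h2, h2', smul_add],
      Subalgebra.add_mem _ h3 h3'⟩
  zero_mem' := ⟨Submodule.zero_mem _, by rw [map_zero, smul_zero], Subalgebra.zero_mem _⟩
  smul_mem' := by
    rintro c x ⟨h1, h2, h3⟩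
    exact ⟨Submodule.smul_mem _ c h1, by rw [map_smul, h2, smul_comm], Subalgebra.smul_mem _ h3 c⟩

end Pool.Agent.Helper793_Prime
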