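import Mathlib

/-!
# Relations between the translates of a vector on twice a prime number of points
-/

set_option autoImplicit false
set_option linter.unusedSectionVars false
set_option linter.unusedVariables false

namespace Pool.Agent.Helper793_Prime

open Polynomial

section poly

variable {G : Type*} [Group G]

/-- Right translation on functions on a group. -/
def rt (ρ : G) : (G → ℚ) →ₗ[ℚ] (G → ℚ) := LinearMap.funLeft ℚ ℚ (fun h => h * ρ)

theorem rt_apply (ρ : G) (φ : G → ℚ) (h : G) : rt ρ φ h = φ (h * ρ) := rfl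

theorem rt_pow (ρ : G) (k : ℕ) (φ : G → ℚ) (h : G) : (rt ρ ^ k) φ h = φ (h * ρ ^ k) := by
  induction k generalizing φ with
  | zero => simp
  | succ k ih =>
    rw [pow_succ, Module.End.mul_apply, ih, rt_apply, pow_succ, mul_assoc]

/-- If `∑ k < r, a k * φ (h ρ ^ k) = 0` for all `h`, `φ (h ρ ^ r) = φ h` for all `h`, and `a` is not
constant, then `φ (h ρ) = φ h` for all `h`. -/
theorem const_or_invariant (r : ℕ) (hr : r.Prime) (ρ : G) (φ : G → ℚ)
    (hρ : ∀ h, φ (h * ρ ^ r) = φ h) (a : ℕ → ℚ)
    (hrel : ∀ h, ∑ k ∈ Finset.range r, a k * φ (h * ρ ^ k) = 0) :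
    (∀ h, φ (h * ρ) = φ h) ∨ ∀ k < r, a k = a 0 := by
  have hfact : Fact r.Prime := ⟨hr⟩
  let f : ℚ[X] := ∑ k ∈ Finset.range r, C (a k) * X ^ k
  have hcoef : ∀ k < r, f.coeff k = a k := by
    intro k hk
    simp only [f, finsetSum_coeff, coeff_C_mul_X_pow]
    rw [Finset.sum_ite_eq (Finset.range r) k, if_pos (Finset.mem_range.2 hk)]
  have hdeg : f.natDegree < r := by
    refine lt_of_le_of_lt (natDegree_sum_le_of_forall_le (n := r - 1) _ _ ?_) (by
      have := hr.pos
      omega)
    intro k hk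
    have hk' := Finset.mem_range.1 hk
    refine (natDegree_C_mul_X_pow_le _ _).trans (by omega)
  have hf : aeval (rt ρ) f φ = 0 := by
    funext h
    simp only [f, map_sum, map_mul, map_pow, aeval_X, aeval_C]
    rw [LinearMap.sum_apply, Finset.sum_apply]
    refine (Finset.sum_congr rfl fun k _ => ?_).trans (hrel h)
    rw [Module.End.mul_apply, Module.algebraMap_end_apply, Pi.smul_apply, rt_pow, smul_eq_mul]
  have hX : aeval (rt ρ) (X ^ r - 1 : ℚ[X]) φ = 0 := by
    funext h
    rw [map_sub, map_pow, aeval_X, map_one, LinearMap.sub_apply, Pi.sub_apply, rt_pow, hρ,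
      Module.End.one_apply, sub_self]
    rfl
  have hirr : Irreducible (cyclotomic r ℚ) := cyclotomic.irreducible_rat hr.pos
  by_cases hdvd : cyclotomic r ℚ ∣ f
  · right
    obtain ⟨q, hq⟩ := hdvd
    by_cases hf0 : f = 0
    · intro k hk
      rw [← hcoef k hk, ← hcoef 0 hr.pos, hf0, coeff_zero, coeff_zero]
    have hq0 : q ≠ 0 := by
      rintro rfl
      exact hf0 (by rw [hq, mul_zero])
    have hΦ0 : cyclotomic r ℚ ≠ 0 := cyclotomic_ne_zero r ℚ
    have h1 : f.natDegree = (cyclotomic r ℚ).natDegree + q.natDegree := by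
      rw [hq, natDegree_mul hΦ0 hq0]
    rw [natDegree_cyclotomic, Nat.totient_prime hr] at h1
    have h2 : q.natDegree = 0 := by
      have := hr.pos
      omega
    obtain ⟨κ, hκ⟩ : ∃ κ, q = C κ := ⟨_, eq_C_of_natDegree_eq_zero h2⟩
    have h3 : ∀ k < r, a k = κ := by
      intro k hk
      rw [← hcoef k hk, hq, hκ, cyclotomic_prime, coeff_mul_C, finsetSum_coeff]
      simp only [coeff_X_pow]
      rw [Finset.sum_ite_eq (Finset.range r) k, if_pos (Finset.mem_range.2 hk), one_mul]
    intro k hk
    rw [h3 k hk, h3 0 hr.pos]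
  · left
    have hco : IsCoprime (cyclotomic r ℚ) f := (hirr.coprime_iff_not_dvd).2 hdvd
    obtain ⟨b, b', hb⟩ := hco
    have h1 : (X - 1 : ℚ[X]) = b * (X ^ r - 1) + b' * (X - 1) * f := by
      rw [← cyclotomic_prime_mul_X_sub_one ℚ r]
      linear_combination -(X - 1 : ℚ[X]) * hb
    have h2 : aeval (rt ρ) (X - 1 : ℚ[X]) φ = 0 := by
      rw [h1, map_add, map_mul, map_mul, LinearMap.add_apply, Module.End.mul_apply,
        Module.End.mul_apply, hX, hf, map_zero, map_zero, add_zero]
    intro h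
    have h3 := congrFun h2 h
    rw [map_sub, aeval_X, map_one, LinearMap.sub_apply, Pi.sub_apply, rt_apply,
      Module.End.one_apply] at h3
    exact sub_eq_zero.1 h3

end poly

section sets

variable {X : Type*} [Fintype X] [DecidableEq X] {G : Type*} [Group G] [MulAction G X]

theorem smul_inv_eq {inv : X → X} (hG : ∀ (g : G) (x : X), g • inv x = inv (g • x)) (g : G)
    (x y : X) (h : g • x = y) : g • inv x = inv y := by rw [hG, h]

/-- A transitive action on `2 r` points, `r` an odd prime number, compatible with a free involution: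
some group element has two orbits, which are interchanged by the involution. -/
theorem exists_cycle (inv : X → X) (hinv : ∀ x, inv (inv x) = x) (hne : ∀ x, inv x ≠ x)
    (hG : ∀ (g : G) (x : X), g • inv x = inv (g • x)) (r : ℕ) (hr : r.Prime) (hodd : Odd r)
    (hcard : Fintype.card X = 2 * r) (htr : ∀ x y : X, ∃ g : G, g • x = y) :
    ∃ (ρ : G) (x₀ : X), (∀ x : X, ρ ^ r • x = x) ∧ ρ • x₀ ≠ x₀ ∧
      (∀ k < r, ∀ l < r, ρ ^ k • x₀ = ρ ^ l • x₀ → k = l) ∧
      (∀ k l : ℕ, ρ ^ k • x₀ ≠ inv (ρ ^ l • x₀)) ∧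
      ∀ x : X, ∃ k < r, x = ρ ^ k • x₀ ∨ x = inv (ρ ^ k • x₀) := by
  classical
  have hfact : Fact r.Prime := ⟨hr⟩
  have hX : Nonempty X := by
    rw [← Fintype.card_pos_iff, hcard]
    have := hr.pos
    omega
  let θ : G →* Equiv.Perm X := MulAction.toPermHom G X
  have hθ : ∀ (g : G) (x : X), θ g x = g • x := fun g x => rfl
  obtain ⟨x₁⟩ := hX
  -- the order of the image is divisible by `r`
  have hdvd : r ∣ Nat.card θ.range := by
    have h1 : (MulAction.orbit θ.range x₁).ncard ∣ Nat.card θ.range := by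
      rw [← MulAction.index_stabilizer]
      exact Subgroup.index_dvd_card _
    have h2 : MulAction.orbit θ.range x₁ = Set.univ := by
      ext y
      simp only [Set.mem_univ, iff_true]
      obtain ⟨g, hg⟩ := htr x₁ y
      exact ⟨⟨θ g, g, rfl⟩, hg⟩
    rw [h2, Set.ncard_univ, Nat.card_eq_fintype_card, hcard] at h1
    exact (Dvd.intro_left 2 rfl).trans h1
  obtain ⟨s, hs⟩ := exists_prime_orderOf_dvd_card' r hdvd
  obtain ⟨ρ, hρσ'⟩ := s.2
  obtain ⟨σ, hσdef⟩ : ∃ σ : Equiv.Perm X, σ = s := ⟨_, rfl⟩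
  have hρσ : θ ρ = σ := by rw [hσdef, hρσ']
  have hσ' : orderOf σ = r := by
    rw [hσdef, Subgroup.orderOf_coe, hs]
  have hρr : ∀ x : X, ρ ^ r • x = x := by
    intro x
    rw [← hθ, map_pow, hρσ, ← hσ', pow_orderOf_eq_one]
    rfl
  have hne1 : ∃ x₀ : X, ρ • x₀ ≠ x₀ := by
    by_contra hall
    push Not at hall
    have h1 : σ = 1 := by
      rw [← hρσ]
      ext x
      exact hall x
    rw [h1, orderOf_one] at hσ'
    exact hr.one_lt.ne hσ'
  obtain ⟨x₀, hx₀⟩ := hne1
  -- periods
  have hper : ∀ (x : X), ρ • x ≠ x → ∀ m : ℕ, ρ ^ m • x = x → r ∣ m := by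
    intro x hx m hm
    by_contra hnd
    have hco : Nat.Coprime m r := ((Nat.Prime.coprime_iff_not_dvd hr).2 hnd).symm
    apply hx
    have h1 : Function.IsPeriodicPt (fun y : X => ρ • y) m x := by
      change (fun y : X => ρ • y)^[m] x = x
      rw [smul_iterate]
      exact hm
    have h2 : Function.IsPeriodicPt (fun y : X => ρ • y) r x := by
      change (fun y : X => ρ • y)^[r] x = x
      rw [smul_iterate]
      exact hρr x
    have h3 := h1.gcd h2
    rw [Nat.Coprime.gcd_eq_one hco] at h3
    exact h3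
  have hinj : ∀ k < r, ∀ l < r, ρ ^ k • x₀ = ρ ^ l • x₀ → k = l := by
    have hmain : ∀ k l : ℕ, k ≤ l → l < r → ρ ^ k • x₀ = ρ ^ l • x₀ → k = l := by
      intro k l hkl hl h
      have h1 : ρ ^ (l - k) • x₀ = x₀ := by
        have h2 : ρ ^ l = ρ ^ k * ρ ^ (l - k) := by
          rw [← pow_add, Nat.add_sub_cancel' hkl]
        rw [h2, mul_smul] at h
        exact (smul_left_cancel _ h).symm
      have h2 := hper x₀ hx₀ _ h1
      have h3 := Nat.eq_zero_of_dvd_of_lt h2 (by omega)
      omega
    intro k hk l hl h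
    rcases le_total k l with h1 | h1
    · exact hmain k l h1 hl h
    · exact (hmain l k h1 hk h.symm).symm
  have hcross : ∀ k l : ℕ, ρ ^ k • x₀ ≠ inv (ρ ^ l • x₀) := by
    -- first for `l = 0`
    have h0 : ∀ m : ℕ, ρ ^ m • x₀ ≠ inv x₀ := by
      intro m hm
      have h1 : ρ ^ (2 * m) • x₀ = x₀ := by
        rw [two_mul, pow_add, mul_smul, hm, hG, hm, hinv]
      have h2 := hper x₀ hx₀ _ h1
      have h3 : r ∣ m := by
        rcases (Nat.Prime.dvd_mul hr).1 h2 with h | h
        · exfalso
          have h4 := (Nat.prime_dvd_prime_iff_eq hr Nat.prime_two).1 h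
          rw [h4] at hodd
          exact absurd hodd (by decide)
        · exact h
      obtain ⟨t, rfl⟩ := h3
      rw [pow_mul] at hm
      have h4 : ∀ t : ℕ, (ρ ^ r) ^ t • x₀ = x₀ := by
        intro t
        induction t with
        | zero => simp
        | succ t ih => rw [pow_succ, mul_smul, hρr, ih]
      rw [h4] at hm
      exact hne x₀ hm.symm
    intro k l h
    -- multiply by `ρ ^ (r * l - l)`
    have h5 : ∀ t : ℕ, (ρ ^ r) ^ t • x₀ = x₀ := by
      intro t
      induction t with
      | zero => simp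
      | succ t ih => rw [pow_succ, mul_smul, hρr, ih]
    have hl : l ≤ r * l := Nat.le_mul_of_pos_left l hr.pos
    have h6 : ρ ^ (r * l - l) • (ρ ^ k • x₀) = inv x₀ := by
      rw [h, hG, ← mul_smul, ← pow_add, Nat.sub_add_cancel hl, pow_mul, h5]
    rw [← mul_smul, ← pow_add] at h6
    exact h0 _ h6
  refine ⟨ρ, x₀, hρr, hx₀, hinj, hcross, ?_⟩
  -- counting
  let A : Finset X := (Finset.range r).image (fun k => ρ ^ k • x₀)
  let B : Finset X := (Finset.range r).image (fun k => inv (ρ ^ k • x₀))
  have hA : A.card = r := by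
    rw [Finset.card_image_of_injOn, Finset.card_range]
    intro k hk l hl h
    exact hinj k (by simpa using hk) l (by simpa using hl) h
  have hB : B.card = r := by
    rw [Finset.card_image_of_injOn, Finset.card_range]
    intro k hk l hl h
    have h1 : ρ ^ k • x₀ = ρ ^ l • x₀ := by
      have := congrArg inv h
      rwa [hinv, hinv] at this
    exact hinj k (by simpa using hk) l (by simpa using hl) h1
  have hAB : Disjoint A B := by
    rw [Finset.disjoint_left]
    intro x hxA hxB
    obtain ⟨k, -, rfl⟩ := Finset.mem_image.1 hxA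
    obtain ⟨l, -, hl⟩ := Finset.mem_image.1 hxB
    exact hcross k l hl.symm
  have huniv : A ∪ B = Finset.univ := by
    rw [← Finset.card_eq_iff_eq_univ, Finset.card_union_of_disjoint hAB, hA, hB, hcard, two_mul]
  intro x
  have hx : x ∈ A ∪ B := by
    rw [huniv]
    exact Finset.mem_univ x
  rcases Finset.mem_union.1 hx with h | h
  · obtain ⟨k, hk, rfl⟩ := Finset.mem_image.1 h
    exact ⟨k, Finset.mem_range.1 hk, Or.inl rfl⟩
  · obtain ⟨k, hk, rfl⟩ := Finset.mem_image.1 h
    exact ⟨k, Finset.mem_range.1 hk, Or.inr rfl⟩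

theorem sum_cycle (inv : X → X) (hinv : ∀ x, inv (inv x) = x) (r : ℕ) (ρ : G) (x₀ : X)
    (hinj : ∀ k < r, ∀ l < r, ρ ^ k • x₀ = ρ ^ l • x₀ → k = l)
    (hcross : ∀ k l : ℕ, ρ ^ k • x₀ ≠ inv (ρ ^ l • x₀))
    (hall : ∀ x : X, ∃ k < r, x = ρ ^ k • x₀ ∨ x = inv (ρ ^ k • x₀))
    (f : X → ℤ) (hf : ∀ x, f (inv x) = f x) :
    ∑ x, f x = 2 * ∑ k ∈ Finset.range r, f (ρ ^ k • x₀) := by
  classical
  let A : Finset X := (Finset.range r).image (fun k => ρ ^ k • x₀)
  let B : Finset X := (Finset.range r).image (fun k => inv (ρ ^ k • x₀))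
  have hiA : Set.InjOn (fun k => ρ ^ k • x₀) (Finset.range r : Set ℕ) := by
    intro k hk l hl h
    exact hinj k (by simpa using hk) l (by simpa using hl) h
  have hiB : Set.InjOn (fun k => inv (ρ ^ k • x₀)) (Finset.range r : Set ℕ) := by
    intro k hk l hl h
    have h1 : ρ ^ k • x₀ = ρ ^ l • x₀ := by
      have := congrArg inv h
      simpa only [hinv] using this
    exact hinj k (by simpa using hk) l (by simpa using hl) h1
  have hAB : Disjoint A B := by
    rw [Finset.disjoint_left]
    intro x hxA hxB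
    obtain ⟨k, -, rfl⟩ := Finset.mem_image.1 hxA
    obtain ⟨l, -, hl⟩ := Finset.mem_image.1 hxB
    exact hcross k l hl.symm
  have huniv : A ∪ B = Finset.univ := by
    ext x
    simp only [Finset.mem_univ, iff_true]
    obtain ⟨k, hk, h | h⟩ := hall x
    · exact Finset.mem_union_left _ (Finset.mem_image.2 ⟨k, Finset.mem_range.2 hk, h.symm⟩)
    · exact Finset.mem_union_right _ (Finset.mem_image.2 ⟨k, Finset.mem_range.2 hk, h.symm⟩)
  rw [← huniv, Finset.sum_union hAB, Finset.sum_image hiA, Finset.sum_image hiB, two_mul]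
  congr 1
  exact Finset.sum_congr rfl fun k _ => hf _

/-- **The core for twice an odd prime number of points.** A relation between the translates of a
vector `u` which separates points is zero, or comes from a partition into two halves. -/
theorem prime_core (inv : X → X) (hinv : ∀ x, inv (inv x) = x) (hne : ∀ x, inv x ≠ x)
    (hG : ∀ (g : G) (x : X), g • inv x = inv (g • x)) (r : ℕ) (hr : r.Prime) (hodd : Odd r)
    (hcard : Fintype.card X = 2 * r) (htr : ∀ x y : X, ∃ g : G, g • x = y)
    (u : X → ℤ) (hua : ∀ x, u (inv x) = -u x)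
    (hsep : ∀ x y : X, x ≠ y → ∃ g : G, u (g • x) ≠ u (g • y))
    (c : X → ℤ) (hc : ∀ x, c (inv x) = -c x) (hrel : ∀ g : G, ∑ x, c x * u (g • x) = 0) :
    (∀ x, c x = 0) ∨ ∃ v : X → ℤ, (∀ x, v x = 1 ∨ v x = -1) ∧ (∀ x, v (inv x) = -v x) ∧
      (∀ (g : G) (x y : X), v (g • x) * v (g • y) = v x * v y) ∧ ∑ x, u x * v x = 0 := by
  classical
  obtain ⟨ρ, x₀, hρr, hx₀, hinj, hcross, hall⟩ := exists_cycle inv hinv hne hG r hr hodd hcard htr
  have hA : ∀ t : G, ∀ k < r, c (t • ρ ^ k • x₀) = c (t • x₀) := by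
    intro t k hk
    have h1 := const_or_invariant r hr ρ (fun h => (u (h • x₀) : ℚ)) (fun h => by
      simp only [mul_smul, hρr]) (fun k => (c (t • ρ ^ k • x₀) : ℚ)) (fun h => by
        have h2 := sum_cycle inv hinv r ρ x₀ hinj hcross hall
          (fun x => c (t • x) * u (h • x)) (fun x => by
            simp only [hG, hc, hua]
            ring)
        have h3 : ∑ x, c (t • x) * u (h • x) = 0 := by
          rw [← hrel (h * t⁻¹)]
          refine Fintype.sum_equiv (MulAction.toPerm t) _ _ fun x => ?_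
          rw [MulAction.toPerm_apply, mul_smul, inv_smul_smul]
        rw [h3] at h2
        have h4 : ∑ k ∈ Finset.range r, c (t • ρ ^ k • x₀) * u (h • ρ ^ k • x₀) = 0 := by
          linarith
        simp only [mul_smul]
        exact_mod_cast h4)
    rcases h1 with h1 | h1
    · exfalso
      obtain ⟨g, hg⟩ := hsep (ρ • x₀) x₀ hx₀
      apply hg
      have h2 := h1 g
      simp only [mul_smul] at h2
      exact_mod_cast h2
    · have h2 := h1 k hk
      rw [pow_zero, one_smul] at h2
      exact_mod_cast h2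
  have hε : ∀ x : X, ∃ ε : ℤ, (ε = 1 ∨ ε = -1) ∧ ∀ g : G, c (g • x) = ε * c (g • x₀) := by
    intro x
    obtain ⟨k, hk, rfl | rfl⟩ := hall x
    · exact ⟨1, Or.inl rfl, fun g => by rw [hA g k hk, one_mul]⟩
    · exact ⟨-1, Or.inr rfl, fun g => by rw [hG, hc, hA g k hk]; ring⟩
  have hε1 : ∀ x : X, c x = c x₀ ∨ c x = -c x₀ := by
    intro x
    obtain ⟨ε, hε, h⟩ := hε x
    have h1 := h 1
    rw [one_smul, one_smul] at h1
    rcases hε with rfl | rfl
    · exact Or.inl (by rw [h1]; ring)
    · exact Or.inr (by rw [h1]; ring)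
  by_cases h0 : c x₀ = 0
  · left
    intro x
    rcases hε1 x with h | h <;> rw [h, h0]
    rfl
  right
  have hκ : |c x₀| ≠ 0 := abs_ne_zero.2 h0
  have hv : ∀ x, Int.sign (c x) * |c x₀| = c x := by
    intro x
    have h1 : |c x| = |c x₀| := by
      rcases hε1 x with h | h
      · rw [h]
      · rw [h, abs_neg]
    rw [← h1, Int.sign_mul_abs]
  have hv1 : ∀ x, Int.sign (c x) = 1 ∨ Int.sign (c x) = -1 := by
    intro x
    have h1 : c x ≠ 0 := by
      rcases hε1 x with h | h
      · rw [h]; exact h0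
      · rw [h]; exact neg_ne_zero.2 h0
    rcases lt_or_gt_of_ne h1 with h2 | h2
    · exact Or.inr (Int.sign_eq_neg_one_of_neg h2)
    · exact Or.inl (Int.sign_eq_one_of_pos h2)
  refine ⟨fun x => Int.sign (c x), hv1, fun x => by simp only [hc, Int.sign_neg], ?_, ?_⟩
  · intro g x y
    have h1 : c (g • x) * c (g • y) = c x * c y := by
      obtain ⟨ε, -, hx⟩ := hε x
      obtain ⟨ε', -, hy⟩ := hε y
      have h2 : c (g • x₀) * c (g • x₀) = c x₀ * c x₀ := by
        rcases hε1 (g • x₀) with h | h <;> rw [h]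
        ring
      have h3 := hx 1
      have h4 := hy 1
      rw [one_smul, one_smul] at h3 h4
      rw [hx g, hy g, h3, h4]
      linear_combination (ε * ε') * h2
    have h2 : (Int.sign (c (g • x)) * Int.sign (c (g • y))) * (|c x₀| * |c x₀|) =
        (Int.sign (c x) * Int.sign (c y)) * (|c x₀| * |c x₀|) := by
      have e1 := hv (g • x)
      have e2 := hv (g • y)
      have e3 := hv x
      have e4 := hv y
      calc _ = (Int.sign (c (g • x)) * |c x₀|) * (Int.sign (c (g • y)) * |c x₀|) := by ring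
        _ = (Int.sign (c x) * |c x₀|) * (Int.sign (c y) * |c x₀|) := by rw [e1, e2, e3, e4, h1]
        _ = _ := by ring
    exact mul_right_cancel₀ (mul_ne_zero hκ hκ) h2
  · have h1 : (∑ x, u x * Int.sign (c x)) * |c x₀| = 0 := by
      rw [Finset.sum_mul, ← hrel 1]
      refine Finset.sum_congr rfl fun x _ => ?_
      rw [mul_assoc, hv, one_smul, mul_comm]
    exact (mul_eq_zero.1 h1).resolve_right hκ

/-- **The core for two points.** -/
theorem one_core (inv : X → X) (hinv : ∀ x, inv (inv x) = x) (hne : ∀ x, inv x ≠ x)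
    (hG : ∀ (g : G) (x : X), g • inv x = inv (g • x))
    (hcard : Fintype.card X = 2)
    (u : X → ℤ) (hua : ∀ x, u (inv x) = -u x)
    (hsep : ∀ x y : X, x ≠ y → ∃ g : G, u (g • x) ≠ u (g • y))
    (c : X → ℤ) (hc : ∀ x, c (inv x) = -c x) (hrel : ∀ g : G, ∑ x, c x * u (g • x) = 0)
    (x : X) : c x = 0 := by
  classical
  have huniv : (Finset.univ : Finset X) = {x, inv x} := by
    symm
    rw [← Finset.card_eq_iff_eq_univ, Finset.card_pair (hne x).symm, hcard]
  obtain ⟨g, hg⟩ := hsep x (inv x) (hne x).symm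
  have h1 := hrel g
  rw [huniv, Finset.sum_pair (hne x).symm, hc, hG, hua] at h1
  have h2 : c x * u (g • x) = 0 := by linarith
  refine (mul_eq_zero.1 h2).resolve_right fun h3 => hg ?_
  rw [hG, hua, h3, neg_zero]

/-- **The core for four points.** -/
theorem two_core (inv : X → X) (hinv : ∀ x, inv (inv x) = x) (hne : ∀ x, inv x ≠ x)
    (hG : ∀ (g : G) (x : X), g • inv x = inv (g • x))
    (hcard : Fintype.card X = 4) (htr : ∀ x y : X, ∃ g : G, g • x = y)
    (u : X → ℤ) (hua : ∀ x, u (inv x) = -u x)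
    (hsep : ∀ x y : X, x ≠ y → ∃ g : G, u (g • x) ≠ u (g • y))
    (c : X → ℤ) (hc : ∀ x, c (inv x) = -c x) (hrel : ∀ g : G, ∑ x, c x * u (g • x) = 0)
    (x : X) : c x = 0 := by
  classical
  obtain ⟨y, hy⟩ : ∃ y : X, y ∉ ({x, inv x} : Finset X) := by
    by_contra hall
    push Not at hall
    have h1 : (Finset.univ : Finset X) ⊆ {x, inv x} := fun y _ => hall y
    have h2 := Finset.card_le_card h1
    rw [Finset.card_univ, hcard, Finset.card_pair (hne x).symm] at h2
    omega
  simp only [Finset.mem_insert, Finset.mem_singleton, not_or] at hy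
  obtain ⟨hyx, hyx'⟩ := hy
  have hxy' : inv y ≠ x := fun h => hyx' (by rw [← h, hinv])
  have hd : Disjoint ({x, inv x} : Finset X) {y, inv y} := by
    rw [Finset.disjoint_left]
    intro z hz hz'
    simp only [Finset.mem_insert, Finset.mem_singleton] at hz hz'
    rcases hz with rfl | rfl <;> rcases hz' with h | h
    · exact hyx h.symm
    · exact hxy' h.symm
    · exact hyx' h.symm
    · exact hyx (by rw [← hinv y, ← h, hinv])
  have huniv : (Finset.univ : Finset X) = {x, inv x} ∪ {y, inv y} := by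
    symm
    rw [← Finset.card_eq_iff_eq_univ, Finset.card_union_of_disjoint hd,
      Finset.card_pair (hne x).symm, Finset.card_pair (hne y).symm, hcard]
  have hR : ∀ g : G, c x * u (g • x) + c y * u (g • y) = 0 := by
    intro g
    have h1 := hrel g
    rw [huniv, Finset.sum_union hd, Finset.sum_pair (hne x).symm, Finset.sum_pair (hne y).symm,
      hc, hG, hua, hc, hG, hua] at h1
    linarith
  obtain ⟨ρ, hρ⟩ := htr x y
  have hρy : ρ • y = x ∨ ρ • y = inv x := by
    have h1 : ρ • y ∈ (Finset.univ : Finset X) := Finset.mem_univ _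
    rw [huniv] at h1
    simp only [Finset.mem_union, Finset.mem_insert, Finset.mem_singleton] at h1
    rcases h1 with (h1 | h1) | (h1 | h1)
    · exact Or.inl h1
    · exact Or.inr h1
    · exfalso
      rw [← hρ] at h1
      exact hyx (by rw [← hρ]; exact smul_left_cancel ρ h1)
    · exfalso
      rw [← hρ, ← hG] at h1
      exact hyx' (by rw [← hρ]; exact smul_left_cancel ρ h1)
  obtain ⟨g, hg⟩ := hsep x (inv x) (hne x).symm
  have hg0 : u (g • x) ≠ 0 := by
    intro h3
    apply hg
    rw [hG, hua, h3, neg_zero]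
  rcases hρy with hρy | hρy
  · have hS : ∀ g : G, c x * u (g • y) + c y * u (g • x) = 0 := by
      intro g
      have h1 := hR (g * ρ)
      rwa [mul_smul, mul_smul, hρ, hρy] at h1
    have h1 : (c x * c x - c y * c y) * u (g • x) = 0 := by
      linear_combination c x * hR g - c y * hS g
    have h2 : c x * c x = c y * c y := by
      have := (mul_eq_zero.1 h1).resolve_right hg0
      linarith
    by_contra h0
    rcases mul_self_eq_mul_self_iff.1 h2 with h3 | h3
    · obtain ⟨g', hg'⟩ := hsep x (inv y) hxy'.symm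
      apply hg'
      rw [hG, hua]
      have h4 := hR g'
      rw [← h3] at h4
      have h5 : c x * (u (g' • x) + u (g' • y)) = 0 := by linarith
      have h6 := (mul_eq_zero.1 h5).resolve_left h0
      linarith
    · obtain ⟨g', hg'⟩ := hsep x y (Ne.symm hyx)
      apply hg'
      have h4 := hR g'
      have h5 : c x * (u (g' • x) - u (g' • y)) = 0 := by
        have h7 : c y = - c x := by linarith
        rw [h7] at h4
        linarith
      have h6 := (mul_eq_zero.1 h5).resolve_left h0
      linarith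
  · have hS : ∀ g : G, c x * u (g • y) - c y * u (g • x) = 0 := by
      intro g
      have h1 := hR (g * ρ)
      rw [mul_smul, mul_smul, hρ, hρy, hG, hua] at h1
      linarith
    have h1 : (c x * c x + c y * c y) * u (g • x) = 0 := by
      linear_combination c x * hR g - c y * hS g
    have h2 : c x * c x + c y * c y = 0 := (mul_eq_zero.1 h1).resolve_right hg0
    nlinarith [mul_self_nonneg (c x), mul_self_nonneg (c y)]

end sets

end Pool.Agent.Helper793_Prime
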