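import Mathlib

/-!
# Unflipped pairs for sets with coprime numbers of pairs of points
-/

set_option autoImplicit false
set_option linter.unusedSectionVars false
set_option linter.unusedVariables false

namespace Pool.Agent.Helper793_Prime

/-- A sign function on `X × Y`, invariant under `G` and antisymmetric in both variables. -/
structure IsSign (G : Type*) {X Y : Type*} [Group G] [MulAction G X] [MulAction G Y]
    (ix : X → X) (iy : Y → Y) (F : X → Y → ℤ) : Prop where
  one : ∀ x y, F x y = 1 ∨ F x y = -1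
  inv : ∀ (g : G) x y, F (g • x) (g • y) = F x y
  left : ∀ x y, F (ix x) y = -F x y
  right : ∀ x y, F x (iy y) = -F x y

section

variable {G : Type*} [Group G] {X Y : Type*} [MulAction G X] [MulAction G Y]

theorem IsSign.swap {ix : X → X} {iy : Y → Y} {F : X → Y → ℤ} (h : IsSign G ix iy F) :
    IsSign G iy ix (fun y x => F x y) :=
  ⟨fun y x => h.one x y, fun g y x => h.inv g x y, fun y x => h.right x y, fun y x => h.left x y⟩

theorem IsSign.inv' {ix : X → X} {iy : Y → Y} {F : X → Y → ℤ} (h : IsSign G ix iy F) (g : G)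
    (x : X) (y : Y) : F (g • x) y = F x (g⁻¹ • y) := by
  have h1 := h.inv g x (g⁻¹ • y)
  rwa [smul_inv_smul] at h1

theorem IsSign.sq {ix : X → X} {iy : Y → Y} {F : X → Y → ℤ} (h : IsSign G ix iy F)
    (x : X) (y : Y) : F x y * F x y = 1 := by
  rcases h.one x y with h | h <;> rw [h] <;> norm_num

/-- An unflipped pair gives a sign function. -/
theorem exists_sign [Finite X] [Finite Y] (ix : X → X) (iy : Y → Y)
    (hix : ∀ x, ix (ix x) = x) (hiy : ∀ y, iy (iy y) = y)
    (hGx : ∀ (g : G) x, g • ix x = ix (g • x)) (hGy : ∀ (g : G) y, g • iy y = iy (g • y))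
    (c₀ : G) (hcx : ∀ x : X, c₀ • x = ix x) (hcy : ∀ y : Y, c₀ • y = iy y)
    (n m : ℕ) (hn : 0 < n) (hm : 0 < m) (hX : Nat.card X = 2 * n) (hY : Nat.card Y = 2 * m)
    (hco : Nat.Coprime n m) (htx : ∀ x x' : X, ∃ g : G, g • x = x')
    (hty : ∀ y y' : Y, ∃ g : G, g • y = y') (x₀ : X) (y₀ : Y)
    (hnf : ¬ ∃ g : G, g • x₀ = x₀ ∧ g • y₀ = iy y₀) :
    ∃ F : X → Y → ℤ, IsSign G ix iy F := by
  classical
  let O : Set (X × Y) := MulAction.orbit G (x₀, y₀)
  let O' : Set (X × Y) := {z | (z.1, iy z.2) ∈ O}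
  have hmem : ∀ (g : G) x y, (g • x, g • y) ∈ O ↔ (x, y) ∈ O := by
    intro g x y
    constructor
    · rintro ⟨h, hh⟩
      refine ⟨g⁻¹ * h, ?_⟩
      simp only [Prod.smul_mk, Prod.mk.injEq] at hh ⊢
      rw [mul_smul, mul_smul, hh.1, hh.2, inv_smul_smul, inv_smul_smul]
      exact ⟨rfl, rfl⟩
    · rintro ⟨h, hh⟩
      refine ⟨g * h, ?_⟩
      simp only [Prod.smul_mk, Prod.mk.injEq] at hh ⊢
      rw [mul_smul, mul_smul, hh.1, hh.2]
      exact ⟨rfl, rfl⟩
  have hdisj : ∀ x y, (x, y) ∈ O → (x, iy y) ∉ O := by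
    rintro x y ⟨g, hg⟩ ⟨h, hh⟩
    simp only [Prod.smul_mk, Prod.mk.injEq] at hg hh
    apply hnf
    refine ⟨g⁻¹ * h, ?_, ?_⟩
    · rw [mul_smul, hh.1, ← hg.1, inv_smul_smul]
    · rw [mul_smul, hh.2, ← hg.2, ← hGy, inv_smul_smul]
  have hfin : O.Finite := Set.toFinite _
  have hdiv1 : 2 * n ∣ O.ncard := by
    have h1 : (MulAction.stabilizer G x₀).index ∣ (MulAction.stabilizer G (x₀, y₀)).index := by
      apply Subgroup.index_dvd_of_le
      intro g hg
      rw [MulAction.mem_stabilizer_iff, Prod.smul_mk, Prod.mk.injEq] at hg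
      exact hg.1
    rw [MulAction.index_stabilizer, MulAction.index_stabilizer] at h1
    have h2 : MulAction.orbit G x₀ = Set.univ := by
      ext x
      simp only [Set.mem_univ, iff_true]
      exact htx x₀ x
    rwa [h2, Set.ncard_univ, hX] at h1
  have hdiv2 : 2 * m ∣ O.ncard := by
    have h1 : (MulAction.stabilizer G y₀).index ∣ (MulAction.stabilizer G (x₀, y₀)).index := by
      apply Subgroup.index_dvd_of_le
      intro g hg
      rw [MulAction.mem_stabilizer_iff, Prod.smul_mk, Prod.mk.injEq] at hg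
      exact hg.2
    rw [MulAction.index_stabilizer, MulAction.index_stabilizer] at h1
    have h2 : MulAction.orbit G y₀ = Set.univ := by
      ext y
      simp only [Set.mem_univ, iff_true]
      exact hty y₀ y
    rwa [h2, Set.ncard_univ, hY] at h1
  have hpos : 0 < O.ncard := (Set.ncard_pos hfin).2 ⟨(x₀, y₀), MulAction.mem_orbit_self _⟩
  have hlow : 2 * (n * m) ≤ O.ncard := by
    obtain ⟨N, hN⟩ : 2 ∣ O.ncard := (Dvd.intro _ rfl).trans hdiv1
    rw [hN] at hdiv1 hdiv2 hpos ⊢
    have h1 : n ∣ N := Nat.dvd_of_mul_dvd_mul_left two_pos hdiv1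
    have h2 : m ∣ N := Nat.dvd_of_mul_dvd_mul_left two_pos hdiv2
    have h3 : n * m ∣ N := Nat.Coprime.mul_dvd_of_dvd_of_dvd hco h1 h2
    exact Nat.mul_le_mul_left 2 (Nat.le_of_dvd (by omega) h3)
  have hO' : O'.ncard = O.ncard := by
    have h1 : O' = (fun z : X × Y => (z.1, iy z.2)) '' O := by
      ext ⟨x, y⟩
      constructor
      · intro h
        exact ⟨(x, iy y), h, by simp only [hiy]⟩
      · rintro ⟨⟨x', y'⟩, h, hh⟩
        simp only [Prod.mk.injEq] at hh
        obtain ⟨rfl, rfl⟩ := hh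
        change (x', iy (iy y')) ∈ O
        rwa [hiy]
    rw [h1]
    apply Set.ncard_image_of_injective
    rintro ⟨x, y⟩ ⟨x', y'⟩ h
    simp only [Prod.mk.injEq] at h ⊢
    refine ⟨h.1, ?_⟩
    rw [← hiy y, h.2, hiy]
  have hdis : Disjoint O O' := by
    rw [Set.disjoint_left]
    rintro ⟨x, y⟩ h1 h2
    exact hdisj x y h1 h2
  have huniv : O ∪ O' = Set.univ := by
    apply Set.eq_of_subset_of_ncard_le (Set.subset_univ _) _ (Set.toFinite _)
    rw [Set.ncard_union_eq hdis (Set.toFinite _) (Set.toFinite _), hO', Set.ncard_univ,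
      Nat.card_prod, hX, hY]
    nlinarith
  have hor : ∀ x y, (x, iy y) ∈ O ↔ (x, y) ∉ O := by
    intro x y
    constructor
    · intro h1 h2
      exact hdisj x y h2 h1
    · intro h1
      have h2 : (x, y) ∈ O ∪ O' := by
        rw [huniv]
        exact Set.mem_univ _
      exact h2.resolve_left h1
  have hright : ∀ x y, (if (x, iy y) ∈ O then (1 : ℤ) else -1) =
      -(if (x, y) ∈ O then (1 : ℤ) else -1) := by
    intro x y
    by_cases h : (x, y) ∈ O
    · rw [if_pos h, if_neg (fun h' => (hor x y).1 h' h)]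
    · rw [if_neg h, if_pos ((hor x y).2 h), neg_neg]
  refine ⟨fun x y => if (x, y) ∈ O then 1 else -1, ⟨?_, ?_, ?_, hright⟩⟩
  · intro x y
    split_ifs
    · exact Or.inl rfl
    · exact Or.inr rfl
  · intro g x y
    by_cases h : (x, y) ∈ O
    · rw [if_pos h, if_pos ((hmem g x y).2 h)]
    · rw [if_neg h, if_neg (fun h' => h ((hmem g x y).1 h'))]
  · intro x y
    rw [← hright x y]
    have h1 := hmem c₀ (ix x) y
    rw [hcx, hcy, hix] at h1
    by_cases h : (ix x, y) ∈ O
    · rw [if_pos h, if_pos (h1.2 h)]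
    · rw [if_neg h, if_neg (fun h' => h (h1.1 h'))]

/-- Halves of a set with an involution. -/
def IsHalfSet (iy : Y → Y) (H : Finset Y) : Prop := ∀ y, y ∈ H ↔ iy y ∉ H

theorem prod_half [DecidableEq Y] (iy : Y → Y) (hiy : ∀ y, iy (iy y) = y) (f : Y → ℤ)
    (hf : ∀ y, f (iy y) = f y) (H H' : Finset Y) (hH : IsHalfSet iy H) (hH' : IsHalfSet iy H') :
    ∏ y ∈ H, f y = ∏ y ∈ H', f y := by
  classical
  have aux : ∀ H H' : Finset Y, IsHalfSet iy H → IsHalfSet iy H' → ∀ y ∈ H,
      (if y ∈ H' then y else iy y) ∈ H' := by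
    intro H H' hH hH' y hy
    split_ifs with h
    · exact h
    · by_contra h'
      exact h ((hH' y).2 h')
  have aux2 : ∀ H H' : Finset Y, IsHalfSet iy H → IsHalfSet iy H' → ∀ y ∈ H,
      (if (if y ∈ H' then y else iy y) ∈ H then (if y ∈ H' then y else iy y)
        else iy (if y ∈ H' then y else iy y)) = y := by
    intro H H' hH hH' y hy
    by_cases h : y ∈ H'
    · simp only [if_pos h, if_pos hy]
    · simp only [if_neg h]
      rw [if_neg ((hH y).1 hy), hiy]
  refine Finset.prod_nbij' (fun y => if y ∈ H' then y else iy y)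
    (fun y => if y ∈ H then y else iy y) (aux H H' hH hH') (aux H' H hH' hH)
    (aux2 H H' hH hH') (aux2 H' H hH' hH) ?_
  intro y hy
  split_ifs
  · rfl
  · rw [hf]

theorem card_half [Fintype Y] [DecidableEq Y] (iy : Y → Y) (hiy : ∀ y, iy (iy y) = y)
    (H : Finset Y) (hH : IsHalfSet iy H) (m : ℕ) (hY : Fintype.card Y = 2 * m) : H.card = m := by
  have h1 : H.card = Hᶜ.card := by
    refine Finset.card_nbij' iy iy ?_ ?_ (fun y _ => hiy y) (fun y _ => hiy y)
    · intro y hy
      simp only [Finset.coe_compl, Set.mem_compl_iff, Finset.mem_coe] at hy ⊢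
      exact (hH y).1 hy
    · intro y hy
      simp only [Finset.coe_compl, Set.mem_compl_iff, Finset.mem_coe] at hy ⊢
      by_contra h
      exact hy ((hH y).2 h)
  rw [Finset.card_compl, hY] at h1
  have h2 : H.card ≤ Fintype.card Y := Finset.card_le_univ H
  omega

theorem half_of_sign [Fintype Y] [DecidableEq Y] {ix : X → X} {iy : Y → Y} {F : X → Y → ℤ}
    (h : IsSign G ix iy F) (x₀ : X) :
    IsHalfSet iy (Finset.univ.filter (fun y => F x₀ y = 1)) := by
  intro y
  simp only [Finset.mem_filter, Finset.mem_univ, true_and, h.right]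
  rcases h.one x₀ y with h | h <;> rw [h] <;> norm_num

/-- The product over a half. -/
def hprod (F : X → Y → ℤ) (H : Finset Y) (x : X) : ℤ := ∏ y ∈ H, F x y

theorem hprod_one {ix : X → X} {iy : Y → Y} {F : X → Y → ℤ}
    (h : IsSign G ix iy F) (H : Finset Y) (x : X) : hprod F H x = 1 ∨ hprod F H x = -1 := by
  classical
  unfold hprod
  induction H using Finset.induction_on with
  | empty => simp
  | insert a s ha ih =>
    rw [Finset.prod_insert ha]
    rcases h.one x a with h1 | h1 <;> rcases ih with h2 | h2 <;> rw [h1, h2] <;> norm_num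

theorem hprod_anti {ix : X → X} {iy : Y → Y} {F : X → Y → ℤ}
    (h : IsSign G ix iy F) (H : Finset Y) (hodd : Odd H.card) (x : X) :
    hprod F H (ix x) = -hprod F H x := by
  unfold hprod
  have h1 : ∏ y ∈ H, F (ix x) y = ∏ y ∈ H, (-1) * F x y :=
    Finset.prod_congr rfl fun y _ => by rw [h.left]; ring
  rw [h1, Finset.prod_mul_distrib, Finset.prod_const, hodd.neg_one_pow]
  ring

theorem hprod_pair [DecidableEq Y] {ix : X → X} {iy : Y → Y} (hiy : ∀ y, iy (iy y) = y)
    (hGy : ∀ (g : G) y, g • iy y = iy (g • y)) {F : X → Y → ℤ}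
    (h : IsSign G ix iy F) (H : Finset Y) (hH : IsHalfSet iy H) (g : G) (x x' : X) :
    hprod F H (g • x) * hprod F H (g • x') = hprod F H x * hprod F H x' := by
  classical
  unfold hprod
  rw [← Finset.prod_mul_distrib, ← Finset.prod_mul_distrib]
  have h1 : ∏ y ∈ H, F (g • x) y * F (g • x') y =
      ∏ y ∈ H.image (fun y => g⁻¹ • y), F x y * F x' y := by
    rw [Finset.prod_image]
    · exact Finset.prod_congr rfl fun y _ => by rw [h.inv', h.inv']
    · intro a _ b _ hab
      exact smul_left_cancel _ hab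
  rw [h1]
  refine prod_half iy hiy _ (fun y => by rw [h.right, h.right]; ring) _ _ ?_ hH
  intro y
  have h2 : ∀ z, z ∈ H.image (fun y => g⁻¹ • y) ↔ g • z ∈ H := by
    intro z
    rw [Finset.mem_image]
    constructor
    · rintro ⟨w, hw, rfl⟩
      rwa [smul_inv_smul]
    · intro hz
      exact ⟨g • z, hz, inv_smul_smul _ _⟩
  rw [h2, h2, hGy]
  exact hH _

/-- **The common character**: for odd numbers of pairs of points the two products give the same
character of the group. -/
theorem hprod_swap [Fintype X] [Fintype Y] [DecidableEq X] [DecidableEq Y] {ix : X → X}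
    {iy : Y → Y} (hix : ∀ x, ix (ix x) = x) (hiy : ∀ y, iy (iy y) = y)
    (hGx : ∀ (g : G) x, g • ix x = ix (g • x)) (hGy : ∀ (g : G) y, g • iy y = iy (g • y))
    {F : X → Y → ℤ} (h : IsSign G ix iy F) (A : Finset X) (B : Finset Y)
    (hA : IsHalfSet ix A) (hB : IsHalfSet iy B) (hoA : Odd A.card) (hoB : Odd B.card)
    (g : G) (x : X) (y : Y) :
    hprod F B (g • x) * hprod F B x =
      hprod (fun y x => F x y) A (g • y) * hprod (fun y x => F x y) A y := by
  classical
  have h' := h.swap
  have hsq : ∀ x, hprod F B x * hprod F B x = 1 := by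
    intro x
    rcases hprod_one h B x with e | e <;> rw [e] <;> norm_num
  have hsq' : ∀ y, hprod (fun y x => F x y) A y * hprod (fun y x => F x y) A y = 1 := by
    intro y
    rcases hprod_one h' A y with e | e <;> rw [e] <;> norm_num
  have hc : ∀ (g : G) x x', hprod F B (g • x) * hprod F B x =
      hprod F B (g • x') * hprod F B x' := by
    intro g x x'
    have h1 := hprod_pair hiy hGy h B hB g x x'
    have e1 := hsq x
    have e2 := hsq (g • x')
    linear_combination (hprod F B (g • x') * hprod F B x) * h1 -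
      (hprod F B (g • x) * hprod F B x) * e2 + (hprod F B (g • x') * hprod F B x') * e1
  have hc' : ∀ (g : G) y y', hprod (fun y x => F x y) A (g • y) * hprod (fun y x => F x y) A y =
      hprod (fun y x => F x y) A (g • y') * hprod (fun y x => F x y) A y' := by
    intro g y y'
    have h1 := hprod_pair hix hGx h' A hA g y y'
    have e1 := hsq' y
    have e2 := hsq' (g • y')
    linear_combination (hprod (fun y x => F x y) A (g • y') * hprod (fun y x => F x y) A y) * h1 -
      (hprod (fun y x => F x y) A (g • y) * hprod (fun y x => F x y) A y) * e2 +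
      (hprod (fun y x => F x y) A (g • y') * hprod (fun y x => F x y) A y') * e1
  have hodd : ∀ (z : ℤ) (N : ℕ), z * z = 1 → Odd N → z ^ N = z := by
    rintro z N hz ⟨k, rfl⟩
    rw [pow_succ, pow_mul, sq, hz, one_pow, one_mul]
  -- the double product
  have h1 : ∏ a ∈ A, ∏ b ∈ B, F (g • a) b * F a b = hprod F B (g • x) * hprod F B x := by
    have e1 : ∀ a ∈ A, ∏ b ∈ B, F (g • a) b * F a b = hprod F B (g • x) * hprod F B x := by
      intro a _
      rw [Finset.prod_mul_distrib]
      exact hc g a x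
    rw [Finset.prod_congr rfl e1, Finset.prod_const]
    apply hodd _ _ _ hoA
    linear_combination (hprod F B x * hprod F B x) * hsq (g • x) + hsq x
  have h2 : ∏ a ∈ A, ∏ b ∈ B, F (g • a) b * F a b =
      hprod (fun y x => F x y) A (g • y) * hprod (fun y x => F x y) A y := by
    rw [Finset.prod_comm]
    have e1 : ∀ b ∈ B, ∏ a ∈ A, F (g • a) b * F a b =
        hprod (fun y x => F x y) A (g • y) * hprod (fun y x => F x y) A y := by
      intro b _
      have e2 : ∏ a ∈ A, F (g • a) b * F a b = ∏ a ∈ A, F a (g⁻¹ • b) * F a b :=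
        Finset.prod_congr rfl fun a _ => by rw [h.inv']
      rw [e2, Finset.prod_mul_distrib]
      have e3 := hc' g (g⁻¹ • b) y
      rw [smul_inv_smul] at e3
      rw [← e3, mul_comm]
      rfl
    rw [Finset.prod_congr rfl e1, Finset.prod_const]
    apply hodd _ _ _ hoB
    linear_combination (hprod (fun y x => F x y) A y * hprod (fun y x => F x y) A y) * hsq' (g • y)
      + hsq' y
  rw [← h1, h2]

end

end Pool.Agent.Helper793_Prime
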