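import Mathlib
import Pool.Agent.Helper793_Prime.Core
import Pool.Agent.Helper793_Prime.Cross
import Pool.Agent.Helper793_Prime.Defs

/-!
# CM fields of coprime degrees: flipped embeddings
-/

set_option autoImplicit false
set_option linter.unusedSectionVars false
set_option linter.unusedVariables false

namespace Pool.Agent.Helper793_Prime

open NumberField Module Pool.Agent.H204R3.CM Pool.Agent.H868R3.TwoOdd Pool.Agent.H194R3.CM
  Pool.Agent.H194R3.Tate Pool.Agent.H925R2 Pool.Agent.H485R3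

theorem CommonImaginaryQuadratic.symm {F F' : Type*} [Field F] [Field F']
    (h : CommonImaginaryQuadratic F F') : CommonImaginaryQuadratic F' F := by
  obtain ⟨d, x, y, hd, hx, hy⟩ := h
  exact ⟨d, y, x, hd, hy, hx⟩

/-- The degrees of the maximal real subfields of `F` and `F'` are coprime, the fields contain no
common imaginary quadratic field, and both degrees are odd, or one of them is one, or one of them
is odd and the other field contains no imaginary quadratic field. -/
def CoprimeFields (F F' : Type*) [Field F] [NumberField F] [Field F'] [NumberField F'] : Prop :=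
  Nat.Coprime (finrank ℚ (maximalRealSubfield F)) (finrank ℚ (maximalRealSubfield F')) ∧
    ¬ CommonImaginaryQuadratic F F' ∧
    ((Odd (finrank ℚ (maximalRealSubfield F)) ∧ Odd (finrank ℚ (maximalRealSubfield F'))) ∨
      finrank ℚ (maximalRealSubfield F) = 1 ∨ finrank ℚ (maximalRealSubfield F') = 1 ∨
      (Odd (finrank ℚ (maximalRealSubfield F)) ∧ ¬ CommonImaginaryQuadratic F' F') ∨
      (Odd (finrank ℚ (maximalRealSubfield F')) ∧ ¬ CommonImaginaryQuadratic F F))

section

variable {F F' : Type*} [Field F] [NumberField F] [IsCMField F] [Field F'] [NumberField F']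
  [IsCMField F'] {L : Type*} [Field L] [NumberField L] [IsGalois ℚ L] (j : L →+* ℂ)

include j in
/-- Sign vectors with the same character come from a common imaginary quadratic field. -/
theorem common_of_signs (v : (F →+* L) → ℤ) (hv : ∀ x, v x = 1 ∨ v x = -1)
    (hvn : ∀ x, v (cbar x) = -v x)
    (hvs : ∀ (g : L ≃ₐ[ℚ] L) x y, v (g • x) * v (g • y) = v x * v y)
    (w : (F' →+* L) → ℤ) (hw : ∀ x, w x = 1 ∨ w x = -1) (hwn : ∀ x, w (cbar x) = -w x)
    (hws : ∀ (g : L ≃ₐ[ℚ] L) x y, w (g • x) * w (g • y) = w x * w y)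
    (x₀ : F →+* L) (y₀ : F' →+* L)
    (hvw : ∀ g : L ≃ₐ[ℚ] L, v (g • x₀) * v x₀ = w (g • y₀) * w y₀) :
    CommonImaginaryQuadratic F F' := by
  obtain ⟨δ, d, hd, hδ, hφ⟩ := exists_delta j v hv hvn hvs x₀
  obtain ⟨δ', d', hd', hδ', hφ'⟩ := exists_delta j w hw hwn hws y₀
  have hδ0 : δ' ≠ 0 := by
    rintro rfl
    rw [zero_pow two_ne_zero] at hδ'
    have h1 : d' = 0 := by exact_mod_cast hδ'.symm
    exact hd'.ne h1
  have hb : y₀ δ' ≠ 0 := (map_ne_zero y₀).2 hδ0
  have hfix : x₀ δ / y₀ δ' ∈ (⊥ : IntermediateField ℚ L) := by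
    rw [IsGalois.mem_bot_iff_fixed]
    intro g
    rw [map_div₀]
    have h1 : g (x₀ δ) = ((v (g • x₀) * v x₀ : ℤ) : L) * x₀ δ := hφ (g • x₀)
    have h2 : g (y₀ δ') = ((w (g • y₀) * w y₀ : ℤ) : L) * y₀ δ' := hφ' (g • y₀)
    rw [h1, h2, hvw g]
    have h3 : ((w (g • y₀) * w y₀ : ℤ) : L) ≠ 0 := by
      rcases hw (g • y₀) with e1 | e1 <;> rcases hw y₀ with e2 | e2 <;> rw [e1, e2] <;> norm_num
    rw [mul_div_mul_left _ _ h3]
  obtain ⟨r, hr⟩ := IntermediateField.mem_bot.1 hfix
  have hr' : x₀ δ = (r : L) * y₀ δ' := by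
    rw [eq_div_iff hb] at hr
    rw [← hr]
    rfl
  refine ⟨d, δ, (r : F') * δ', hd, hδ, ?_⟩
  apply y₀.injective
  rw [map_pow, map_mul, map_ratCast, ← hr', map_ratCast, ← map_pow, hδ, map_ratCast]

include j in
/-- A sign vector gives an imaginary quadratic subfield. -/
theorem self_of_sign (v : (F →+* L) → ℤ) (hv : ∀ x, v x = 1 ∨ v x = -1)
    (hvn : ∀ x, v (cbar x) = -v x)
    (hvs : ∀ (g : L ≃ₐ[ℚ] L) x y, v (g • x) * v (g • y) = v x * v y)
    (x₀ : F →+* L) : CommonImaginaryQuadratic F F := by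
  obtain ⟨δ, d, hd, hδ, hφ⟩ := exists_delta j v hv hvn hvs x₀
  exact ⟨d, δ, δ, hd, hδ, hδ⟩

include j in
/-- The case of an imaginary quadratic field. -/
theorem common_of_one [DecidableEq (F' →+* L)] (hY : Fintype.card (F' →+* L) = 2)
    {S : (F →+* L) → (F' →+* L) → ℤ}
    (hS : IsSign (L ≃ₐ[ℚ] L) cbar cbar S) (x₀ : F →+* L) (y₀ : F' →+* L) :
    CommonImaginaryQuadratic F F' := by
  classical
  have huniv : (Finset.univ : Finset (F' →+* L)) = {y₀, cbar y₀} := by
    symm
    rw [← Finset.card_eq_iff_eq_univ, Finset.card_pair (cbar_ne y₀).symm, hY]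
  have hor : ∀ y : F' →+* L, y = y₀ ∨ y = cbar y₀ := by
    intro y
    have h1 : y ∈ (Finset.univ : Finset (F' →+* L)) := Finset.mem_univ y
    rw [huniv] at h1
    simpa using h1
  have hg : ∀ g : L ≃ₐ[ℚ] L, g • y₀ = y₀ ∨ g • y₀ = cbar y₀ := fun g => hor _
  have hcb : ∀ (g : L ≃ₐ[ℚ] L) (y : F' →+* L), g • cbar y = cbar (g • y) := fun g y => rfl
  have hg' : ∀ g : L ≃ₐ[ℚ] L, (∀ y : F' →+* L, g • y = y) ∨ (∀ y : F' →+* L, g • y = cbar y) := by
    intro g
    rcases hg g with h | h
    · left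
      intro y
      rcases hor y with rfl | rfl
      · exact h
      · rw [hcb, h]
    · right
      intro y
      rcases hor y with rfl | rfl
      · exact h
      · rw [hcb, h]
  have hinv : ∀ (g : L ≃ₐ[ℚ] L), (∀ y : F' →+* L, g • y = y) →
      ∀ x, S (g • x) y₀ = S x y₀ := by
    intro g hg x
    have h1 := hS.inv g x y₀
    rwa [hg] at h1
  have hinv' : ∀ (g : L ≃ₐ[ℚ] L), (∀ y : F' →+* L, g • y = cbar y) →
      ∀ x, S (g • x) y₀ = - S x y₀ := by
    intro g hg x
    have h1 := hS.inv g x y₀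
    rw [hg, hS.right] at h1
    linarith
  refine common_of_signs j (fun x => S x y₀) (fun x => hS.one x y₀) (fun x => hS.left x y₀) ?_
    (fun y => S x₀ y) (fun y => hS.one x₀ y) (fun y => hS.right x₀ y) ?_ x₀ y₀ ?_
  · intro g x y
    rcases hg' g with h | h
    · simp only [hinv g h]
    · simp only [hinv' g h]
      ring
  · intro g x y
    rcases hg' g with h | h
    · simp only [h]
    · simp only [h, hS.right]
      ring
  · intro g
    rcases hg' g with h | h
    · simp only [hinv g h, h]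
    · simp only [hinv' g h, h, hS.right]

include j in
theorem half_case [DecidableEq (F →+* L)] [DecidableEq (F' →+* L)] {n m : ℕ}
    (hY : Fintype.card (F' →+* L) = 2 * m) (hm : Odd m)
    {S : (F →+* L) → (F' →+* L) → ℤ}
    (hS : IsSign (L ≃ₐ[ℚ] L) cbar cbar S) (x₀ : F →+* L) :
    CommonImaginaryQuadratic F F := by
  classical
  have hH := half_of_sign hS x₀
  have hcard := card_half cbar cbar_cbar _ hH m hY
  refine self_of_sign j (hprod S _) (hprod_one hS _)
    (hprod_anti hS _ (by rw [hcard]; exact hm)) ?_ x₀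
  intro g x y
  exact hprod_pair cbar_cbar (fun g y => rfl) hS _ hH g x y

include j in
theorem odd_case [DecidableEq (F →+* L)] [DecidableEq (F' →+* L)] {n m : ℕ}
    (hX : Fintype.card (F →+* L) = 2 * n) (hn : Odd n)
    (hY : Fintype.card (F' →+* L) = 2 * m) (hm : Odd m)
    {S : (F →+* L) → (F' →+* L) → ℤ}
    (hS : IsSign (L ≃ₐ[ℚ] L) cbar cbar S) (x₀ : F →+* L) (y₀ : F' →+* L) :
    CommonImaginaryQuadratic F F' := by
  classical
  have hB := half_of_sign hS x₀
  have hA := half_of_sign hS.swap y₀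
  have hcB := card_half cbar cbar_cbar _ hB m hY
  have hcA := card_half cbar cbar_cbar _ hA n hX
  refine common_of_signs j (hprod S _) (hprod_one hS _)
    (hprod_anti hS _ (by rw [hcB]; exact hm))
    (fun g x y => hprod_pair cbar_cbar (fun g y => rfl) hS _ hB g x y)
    (hprod (fun y x => S x y) _) (hprod_one hS.swap _)
    (hprod_anti hS.swap _ (by rw [hcA]; exact hn))
    (fun g x y => hprod_pair cbar_cbar (fun g y => rfl) hS.swap _ hA g x y) x₀ y₀ ?_
  intro g
  exact hprod_swap cbar_cbar cbar_cbar (fun g x => rfl) (fun g y => rfl) hS _ _ hA hB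
    (by rw [hcA]; exact hn) (by rw [hcB]; exact hm) g x₀ y₀

theorem card_emb_real (h : ∀ ψ : F →+* ℂ, ∃ φ : F →+* L, j.comp φ = ψ) :
    Fintype.card (F →+* L) = 2 * finrank ℚ (maximalRealSubfield F) := by
  have h0 : finrank (maximalRealSubfield F) F = 2 :=
    Algebra.IsQuadraticExtension.finrank_eq_two _ _
  rw [card_emb j h, ← finrank_mul_finrank ℚ (maximalRealSubfield F) F, h0, mul_comm]

/-- **Flipped embeddings of CM fields of coprime degrees.** -/
theorem cross_flip (h : ∀ ψ : F →+* ℂ, ∃ φ : F →+* L, j.comp φ = ψ)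
    (h' : ∀ ψ : F' →+* ℂ, ∃ φ : F' →+* L, j.comp φ = ψ) (hcop : CoprimeFields F F')
    (x₀ : F →+* L) (y₀ : F' →+* L) :
    ∃ g : L ≃ₐ[ℚ] L, g • x₀ = x₀ ∧ g • y₀ = cbar y₀ := by
  classical
  by_contra hnf
  obtain ⟨hco, hcom, hcase⟩ := hcop
  have hX := card_emb_real j h
  have hY := card_emb_real j h'
  obtain ⟨c, hc⟩ := exists_restrict j (starRingEnd ℂ)
  obtain ⟨S, hS⟩ := exists_sign (G := L ≃ₐ[ℚ] L) (X := F →+* L) (Y := F' →+* L) cbar cbar
    cbar_cbar cbar_cbar (fun g x => rfl) (fun g y => rfl) c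
    (fun x => by
      apply comp_injective j
      rw [comp_smul_of_restrict j (starRingEnd ℂ) c hc, comp_cbar]
      rfl)
    (fun x => by
      apply comp_injective j
      rw [comp_smul_of_restrict j (starRingEnd ℂ) c hc, comp_cbar]
      rfl)
    (finrank ℚ (maximalRealSubfield F)) (finrank ℚ (maximalRealSubfield F')) finrank_pos
    finrank_pos (by rw [Nat.card_eq_fintype_card, hX]) (by rw [Nat.card_eq_fintype_card, hY]) hco
    (fun x x' => MulAction.exists_smul_eq _ x x') (fun x x' => MulAction.exists_smul_eq _ x x')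
    x₀ y₀ hnf
  rcases hcase with ⟨h1, h2⟩ | h1 | h1 | ⟨h1, h2⟩ | ⟨h1, h2⟩
  · exact hcom (odd_case j hX h1 hY h2 hS x₀ y₀)
  · exact hcom (common_of_one j (by rw [hX, h1]) hS.swap y₀ x₀).symm
  · exact hcom (common_of_one j (by rw [hY, h1]) hS x₀ y₀)
  · exact h2 (half_case (n := 1) j hX h1 hS.swap y₀)
  · exact h2 (half_case (n := 1) j hY h1 hS x₀)

end

end Pool.Agent.Helper793_Prime
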