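import Mathlib
import Pool.Agent.Helper793_Prime.Fields

/-!
# CM fields of prime half degree not contained in the Galois closure of another CM field
-/

set_option autoImplicit false
set_option linter.unusedSectionVars false
set_option linter.unusedVariables false

namespace Pool.Agent.Helper793_Prime

open NumberField Module Pool.Agent.H204R3.CM Pool.Agent.H868R3.TwoOdd Pool.Agent.H194R3.CM
  Pool.Agent.H194R3.Tate Pool.Agent.H925R2 Pool.Agent.H485R3

section

variable {G : Type*} [Group G] {X Y : Type*} [MulAction G X] [MulAction G Y]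

open scoped Pointwise

/-- The case where the orbits of `N` and of the involution together are everything. -/
theorem normal_core (N : Subgroup G) [hN : N.Normal] (hNX : ∀ n ∈ N, ∀ x : X, n • x = x)
    (iy : Y → Y) (hiy : ∀ y, iy (iy y) = y)
    (hGy : ∀ (g : G) y, g • iy y = iy (g • y)) (x₀ : X) (y₀ : Y)
    (hnf : ¬ ∃ g : G, g • x₀ = x₀ ∧ g • y₀ = iy y₀)
    (hall : ∀ y, ∃ n ∈ N, n • y₀ = y ∨ n • y₀ = iy y) :
    ∃ w : Y → ℤ, (∀ y, w y = 1 ∨ w y = -1) ∧ (∀ y, w (iy y) = -w y) ∧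
      (∀ (g : G) y y', w (g • y) * w (g • y') = w y * w y') ∧
      ∀ g : G, g • x₀ = x₀ → w (g • y₀) = w y₀ := by
  classical
  have hA : ∀ n ∈ N, n • y₀ ≠ iy y₀ := fun n hn h => hnf ⟨n, hNX n hn x₀, h⟩
  let O : Set Y := {y | ∃ n ∈ N, n • y₀ = y}
  have hor : ∀ y, iy y ∈ O ↔ y ∉ O := by
    intro y
    constructor
    · rintro ⟨n', hn', h'⟩ ⟨n, hn, h⟩
      apply hA (n⁻¹ * n') (N.mul_mem (N.inv_mem hn) hn')
      rw [mul_smul, h', ← h, ← hGy, inv_smul_smul]
    · intro h1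
      obtain ⟨n, hn, h | h⟩ := hall y
      · exact absurd ⟨n, hn, h⟩ h1
      · exact ⟨n, hn, h⟩
  have hNO : ∀ n ∈ N, ∀ y, n • y ∈ O ↔ y ∈ O := by
    intro n hn y
    constructor
    · rintro ⟨n', hn', h⟩
      exact ⟨n⁻¹ * n', N.mul_mem (N.inv_mem hn) hn', by rw [mul_smul, h, inv_smul_smul]⟩
    · rintro ⟨n', hn', h⟩
      exact ⟨n * n', N.mul_mem hn hn', by rw [mul_smul, h]⟩
  let w : Y → ℤ := fun y => if y ∈ O then 1 else -1
  have hw1 : ∀ y, w y = 1 ∨ w y = -1 := by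
    intro y
    simp only [w]
    split_ifs
    · exact Or.inl rfl
    · exact Or.inr rfl
  have hwi : ∀ y, w (iy y) = -w y := by
    intro y
    simp only [w]
    by_cases h : y ∈ O
    · rw [if_pos h, if_neg (fun h' => (hor y).1 h' h)]
    · rw [if_neg h, if_pos ((hor y).2 h), neg_neg]
  have hwN : ∀ n ∈ N, ∀ y, w (n • y) = w y := by
    intro n hn y
    simp only [w]
    by_cases h : y ∈ O
    · rw [if_pos h, if_pos ((hNO n hn y).2 h)]
    · rw [if_neg h, if_neg (fun h' => h ((hNO n hn y).1 h'))]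
  have hw2 : ∀ y, w y * w y = 1 := by
    intro y
    rcases hw1 y with h | h <;> rw [h] <;> norm_num
  have hpair : ∀ y y', ∃ n ∈ N, n • y = y' ∨ n • y = iy y' := by
    intro y y'
    obtain ⟨n, hn, h | h⟩ := hall y <;> obtain ⟨n', hn', h' | h'⟩ := hall y'
    · exact ⟨n' * n⁻¹, N.mul_mem hn' (N.inv_mem hn), Or.inl (by
        rw [← h, mul_smul, inv_smul_smul, h'])⟩
    · exact ⟨n' * n⁻¹, N.mul_mem hn' (N.inv_mem hn), Or.inr (by
        rw [← h, mul_smul, inv_smul_smul, h'])⟩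
    · have h1 : y = n • iy y₀ := by rw [hGy, h, hiy]
      exact ⟨n' * n⁻¹, N.mul_mem hn' (N.inv_mem hn), Or.inr (by
        rw [h1, mul_smul, inv_smul_smul, hGy, h'])⟩
    · have h1 : y = n • iy y₀ := by rw [hGy, h, hiy]
      exact ⟨n' * n⁻¹, N.mul_mem hn' (N.inv_mem hn), Or.inl (by
        rw [h1, mul_smul, inv_smul_smul, hGy, h', hiy])⟩
  have hsemi : ∀ (g : G) y y', w (g • y) * w (g • y') = w y * w y' := by
    intro g y y'
    obtain ⟨n, hn, h⟩ := hpair y y'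
    have h1 : w (g • n • y) = w (g • y) := by
      have h2 := hwN (g * n * g⁻¹) (hN.conj_mem n hn g) (g • y)
      rwa [mul_smul, inv_smul_smul, mul_smul] at h2
    have h2 := hwN n hn y
    rcases h with h | h
    · rw [h] at h1 h2
      rw [h1, h2, hw2, hw2]
    · rw [h] at h1 h2
      rw [hGy, hwi] at h1
      rw [hwi] at h2
      have e1 := hw2 y
      have e2 := hw2 (g • y)
      have h3 : w (g • y') = - w (g • y) := by linarith
      have h4 : w y' = - w y := by linarith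
      rw [h3, h4]
      linarith
  refine ⟨w, hw1, hwi, hsemi, ?_⟩
  intro g hg
  by_contra hne
  -- `g y₀` is in the orbit of `iy y₀`
  have h1 : w (g • y₀) = w (iy y₀) := by
    rw [hwi]
    rcases hw1 (g • y₀) with e1 | e1 <;> rcases hw1 y₀ with e2 | e2 <;> rw [e1, e2] at hne ⊢
    · exact absurd rfl hne
    · rfl
    · exact absurd rfl hne
  obtain ⟨n, hn, h⟩ := hpair (g • y₀) (iy y₀)
  rcases h with h | h
  · apply hnf
    refine ⟨n * g, ?_, ?_⟩
    · rw [mul_smul, hg, hNX n hn]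
    · rw [mul_smul, h]
  · rw [hiy] at h
    have h2 := hwN n hn (g • y₀)
    rw [h, h1, hwi] at h2
    rcases hw1 y₀ with e2 | e2 <;> rw [e2] at h2 <;> norm_num at h2

theorem normal_case [Finite Y] (N : Subgroup G) [hN : N.Normal] (hNX : ∀ n ∈ N, ∀ x : X, n • x = x)
    (iy : Y → Y) (hiy : ∀ y, iy (iy y) = y) (hney : ∀ y, iy y ≠ y)
    (hGy : ∀ (g : G) y, g • iy y = iy (g • y)) (m : ℕ) (hm : m = 1 ∨ m.Prime)
    (hY : Nat.card Y = 2 * m) (hty : ∀ y y' : Y, ∃ g : G, g • y = y')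
    (hNY : ∃ n ∈ N, ∃ y : Y, n • y ≠ y) (x₀ : X) (y₀ : Y)
    (hnf : ¬ ∃ g : G, g • x₀ = x₀ ∧ g • y₀ = iy y₀) :
    ∃ w : Y → ℤ, (∀ y, w y = 1 ∨ w y = -1) ∧ (∀ y, w (iy y) = -w y) ∧
      (∀ (g : G) y y', w (g • y) * w (g • y') = w y * w y') ∧
      ∀ g : G, g • x₀ = x₀ → w (g • y₀) = w y₀ := by
  classical
  have hpre : MulAction.IsPretransitive G Y := ⟨hty⟩
  have hA : ∀ n ∈ N, n • y₀ ≠ iy y₀ := fun n hn h => hnf ⟨n, hNX n hn x₀, h⟩
  -- the relation
  let R : Y → Y → Prop := fun y y' => ∃ n ∈ N, n • y = y' ∨ n • y = iy y'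
  have hRsymm : ∀ y y', R y y' → R y' y := by
    rintro y y' ⟨n, hn, h | h⟩
    · exact ⟨n⁻¹, N.inv_mem hn, Or.inl (by rw [← h, inv_smul_smul])⟩
    · refine ⟨n⁻¹, N.inv_mem hn, Or.inr ?_⟩
      have h1 : n • iy y = y' := by rw [hGy, h, hiy]
      rw [← h1, inv_smul_smul]
  have hRtrans : ∀ y y' y'', R y y' → R y' y'' → R y y'' := by
    rintro y y' y'' ⟨n, hn, h | h⟩ ⟨n', hn', h' | h'⟩
    · exact ⟨n' * n, N.mul_mem hn' hn, Or.inl (by rw [mul_smul, h, h'])⟩
    · exact ⟨n' * n, N.mul_mem hn' hn, Or.inr (by rw [mul_smul, h, h'])⟩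
    · exact ⟨n' * n, N.mul_mem hn' hn, Or.inr (by rw [mul_smul, h, hGy, h'])⟩
    · exact ⟨n' * n, N.mul_mem hn' hn, Or.inl (by rw [mul_smul, h, hGy, h', hiy])⟩
  have hRG : ∀ (g : G) y y', R y y' → R (g • y) (g • y') := by
    rintro g y y' ⟨n, hn, h | h⟩
    · refine ⟨g * n * g⁻¹, hN.conj_mem n hn g, Or.inl ?_⟩
      rw [mul_smul, inv_smul_smul, mul_smul, h]
    · refine ⟨g * n * g⁻¹, hN.conj_mem n hn g, Or.inr ?_⟩
      rw [mul_smul, inv_smul_smul, mul_smul, h, hGy]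
  let B : Set Y := {y | R y₀ y}
  have hB : MulAction.IsBlock G B := by
    rw [MulAction.isBlock_iff_smul_eq_of_mem]
    intro g a ha hga
    have h1 : R y₀ (g • y₀) := hRtrans _ _ _ hga (hRsymm _ _ (hRG g _ _ ha))
    ext y
    rw [Set.mem_smul_set_iff_inv_smul_mem]
    constructor
    · intro h
      have h2 := hRG g _ _ h
      rw [smul_inv_smul] at h2
      exact hRtrans _ _ _ h1 h2
    · intro h
      have h2 := hRG g⁻¹ _ _ (hRtrans _ _ _ (hRsymm _ _ h1) h)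
      rw [inv_smul_smul] at h2
      exact h2
  let O : Set Y := {y | ∃ n ∈ N, n • y₀ = y}
  have hOB : B = O ∪ iy '' O := by
    ext y
    constructor
    · rintro ⟨n, hn, h | h⟩
      · exact Or.inl ⟨n, hn, h⟩
      · exact Or.inr ⟨iy y, ⟨n, hn, h⟩, hiy y⟩
    · rintro (⟨n, hn, h⟩ | ⟨z, ⟨n, hn, h⟩, hz⟩)
      · exact ⟨n, hn, Or.inl h⟩
      · exact ⟨n, hn, Or.inr (by rw [h, ← hz, hiy])⟩
  have hiyinj : Function.Injective iy := fun a b h => by rw [← hiy a, h, hiy]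
  have hdis : Disjoint O (iy '' O) := by
    rw [Set.disjoint_left]
    rintro y ⟨n, hn, h⟩ ⟨z, ⟨n', hn', h'⟩, hz⟩
    apply hA (n⁻¹ * n') (N.mul_mem (N.inv_mem hn) hn')
    have h1 : n' • y₀ = iy (n • y₀) := by rw [h', h, ← hz, hiy]
    rw [mul_smul, h1, ← hGy, inv_smul_smul]
  have hcardB : B.ncard = 2 * O.ncard := by
    rw [hOB, Set.ncard_union_eq hdis (Set.toFinite _) (Set.toFinite _),
      Set.ncard_image_of_injective _ hiyinj]
    ring
  have hy₀O : y₀ ∈ O := ⟨1, N.one_mem, one_smul _ _⟩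
  have hdvd : O.ncard ∣ m := by
    have h1 := hB.ncard_dvd_card ⟨y₀, by rw [hOB]; exact Or.inl hy₀O⟩
    rw [hcardB, hY] at h1
    exact Nat.dvd_of_mul_dvd_mul_left two_pos h1
  have hOtwo : 2 ≤ O.ncard := by
    obtain ⟨n, hn, y, hny⟩ := hNY
    obtain ⟨g, hg⟩ := hty y₀ y
    have h1 : (g⁻¹ * n * g) • y₀ ≠ y₀ := by
      intro h
      apply hny
      rw [mul_smul, mul_smul, hg, inv_smul_eq_iff, hg] at h
      exact h
    have h2 : g⁻¹ * n * g ∈ N := by
      have := hN.conj_mem n hn g⁻¹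
      rwa [inv_inv] at this
    have h3 : ({y₀, (g⁻¹ * n * g) • y₀} : Set Y) ⊆ O := by
      rintro z (rfl | rfl)
      · exact hy₀O
      · exact ⟨_, h2, rfl⟩
    have h4 := Set.ncard_le_ncard h3 (Set.toFinite _)
    rwa [Set.ncard_pair (Ne.symm h1)] at h4
  have hOm : O.ncard = m := by
    rcases hm with rfl | hm
    · have := Nat.le_of_dvd one_pos hdvd
      omega
    · rcases (Nat.dvd_prime hm).1 hdvd with h | h
      · omega
      · exact h
  have huniv : B = Set.univ := by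
    apply Set.eq_of_subset_of_ncard_le (Set.subset_univ _) _ (Set.toFinite _)
    rw [Set.ncard_univ, hY, hcardB, hOm]
  refine normal_core N hNX iy hiy hGy x₀ y₀ hnf fun y => ?_
  have h1 : y ∈ B := by
    rw [huniv]
    exact Set.mem_univ _
  exact h1

end

section

variable {F F' : Type*} [Field F] [NumberField F] [IsCMField F] [Field F'] [NumberField F']
  [IsCMField F'] {L : Type*} [Field L] [NumberField L] [IsGalois ℚ L] (j : L →+* ℂ)

/-- If `F'` is not contained in the Galois closure of `F`, some automorphism fixes all embeddings of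
`F` and moves an embedding of `F'`. -/
theorem exists_moving (h' : ∀ ψ : F' →+* ℂ, ∃ φ : F' →+* L, j.comp φ = ψ)
    (hem : IsEmpty (F' →+* IntermediateField.normalClosure ℚ F ℂ)) :
    ∃ g : L ≃ₐ[ℚ] L, (∀ x : F →+* L, g • x = x) ∧ ∃ y : F' →+* L, g • y ≠ y := by
  by_contra hall
  push Not at hall
  -- the compositum of the images of `F`
  let M : IntermediateField ℚ L := ⨆ x : F →+* L, (RingHom.equivRatAlgHom F L x).fieldRange
  obtain ⟨ψ⟩ : Nonempty (F' →+* ℂ) := inferInstance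
  obtain ⟨y, hy⟩ := h' ψ
  have hyM : ∀ a : F', y a ∈ M := by
    intro a
    rw [← IsGalois.fixedField_fixingSubgroup M, IntermediateField.mem_fixedField_iff]
    intro g hg
    have h1 : ∀ x : F →+* L, g • x = x := by
      intro x
      ext a
      refine (IntermediateField.mem_fixingSubgroup_iff _ _).1 hg (x a) ?_
      exact (le_iSup (fun x : F →+* L => (RingHom.equivRatAlgHom F L x).fieldRange) x) ⟨a, rfl⟩
    exact RingHom.congr_fun (hall g h1 y) a
  have hMN : M.map (RingHom.equivRatAlgHom L ℂ j) ≤ IntermediateField.normalClosure ℚ F ℂ := by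
    rw [IntermediateField.map_le_iff_le_comap]
    refine iSup_le fun x => ?_
    rw [← IntermediateField.map_le_iff_le_comap]
    rintro _ ⟨_, ⟨a, rfl⟩, rfl⟩
    exact AlgHom.fieldRange_le_normalClosure
      ((RingHom.equivRatAlgHom L ℂ j).comp (RingHom.equivRatAlgHom F L x)) ⟨a, rfl⟩
  refine hem.false (RingHom.codRestrict ψ (IntermediateField.normalClosure ℚ F ℂ) fun a => ?_)
  apply hMN
  refine ⟨y a, hyM a, ?_⟩
  exact RingHom.congr_fun hy a

include j in
/-- A sign vector on the embeddings of `F'`, whose character is trivial on the stabilizer of an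
embedding of `F`, comes from a common imaginary quadratic field. -/
theorem common_of_stab (x₀ : F →+* L) (y₀ : F' →+* L) (w : (F' →+* L) → ℤ)
    (hw1 : ∀ y, w y = 1 ∨ w y = -1) (hwi : ∀ y, w (cbar y) = -w y)
    (hws : ∀ (g : L ≃ₐ[ℚ] L) y y', w (g • y) * w (g • y') = w y * w y')
    (hwst : ∀ g : L ≃ₐ[ℚ] L, g • x₀ = x₀ → w (g • y₀) = w y₀) :
    CommonImaginaryQuadratic F F' := by
  classical
  have hw2 : ∀ y, w y * w y = 1 := by
    intro y
    rcases hw1 y with h | h <;> rw [h] <;> norm_num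
  obtain ⟨c, hc⟩ := exists_restrict j (starRingEnd ℂ)
  have hcx : c • x₀ = cbar x₀ := by
    apply comp_injective j
    rw [comp_smul_of_restrict j (starRingEnd ℂ) c hc, comp_cbar]
    rfl
  have hcy : c • y₀ = cbar y₀ := by
    apply comp_injective j
    rw [comp_smul_of_restrict j (starRingEnd ℂ) c hc, comp_cbar]
    rfl
  choose γ hγ using fun x : F →+* L => MulAction.exists_smul_eq (L ≃ₐ[ℚ] L) x₀ x
  let v : (F →+* L) → ℤ := fun x => w (γ x • y₀) * w y₀
  have hv : ∀ g : L ≃ₐ[ℚ] L, v (g • x₀) = w (g • y₀) * w y₀ := by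
    intro g
    have h1 : (g⁻¹ * γ (g • x₀)) • x₀ = x₀ := by
      rw [mul_smul, hγ, inv_smul_smul]
    have h2 := hwst _ h1
    have h3 := hws g ((g⁻¹ * γ (g • x₀)) • y₀) y₀
    rw [h2, hw2, mul_smul, smul_inv_smul] at h3
    have h4 : w (γ (g • x₀) • y₀) = w (g • y₀) := by
      have e1 := hw2 (g • y₀)
      linear_combination (w (g • y₀)) * h3 - (w (γ (g • x₀) • y₀)) * e1
    simp only [v, h4]
  have hex : ∀ x : F →+* L, ∃ g : L ≃ₐ[ℚ] L, x = g • x₀ := fun x => ⟨γ x, (hγ x).symm⟩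
  have hvx₀ : v x₀ = 1 := by
    have h1 := hv 1
    rwa [one_smul, one_smul, hw2] at h1
  refine common_of_signs j v ?_ ?_ ?_ w hw1 hwi hws x₀ y₀ ?_
  · intro x
    simp only [v]
    rcases hw1 (γ x • y₀) with e1 | e1 <;> rcases hw1 y₀ with e2 | e2 <;> rw [e1, e2] <;> norm_num
  · intro x
    obtain ⟨g, rfl⟩ := hex x
    have h1 : cbar (g • x₀) = (g * c) • x₀ := by
      rw [mul_smul, hcx]
      rfl
    have h2 : (g * c) • y₀ = cbar (g • y₀) := by
      rw [mul_smul, hcy]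
      rfl
    rw [h1, hv, hv, h2, hwi]
    ring
  · intro g x y
    obtain ⟨a, rfl⟩ := hex x
    obtain ⟨b, rfl⟩ := hex y
    rw [← mul_smul, ← mul_smul, hv, hv, hv, hv, mul_smul, mul_smul]
    have e1 := hws g (a • y₀) (b • y₀)
    linear_combination (w y₀ * w y₀) * e1
  · intro g
    rw [hv, hvx₀, mul_one]

/-- The subgroup of the automorphisms which fix all embeddings of `F`. -/
def fixAll (F L : Type*) [Field F] [Field L] [CharZero L] : Subgroup (L ≃ₐ[ℚ] L) :=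
  (MulAction.toPermHom (L ≃ₐ[ℚ] L) (F →+* L)).ker

instance (F L : Type*) [Field F] [Field L] [CharZero L] : (fixAll F L).Normal :=
  MonoidHom.normal_ker _

theorem mem_fixAll (n : L ≃ₐ[ℚ] L) : n ∈ fixAll F L ↔ ∀ x : F →+* L, n • x = x := by
  unfold fixAll
  rw [MonoidHom.mem_ker]
  constructor
  · intro h x
    exact congrArg (fun σ : Equiv.Perm (F →+* L) => σ x) h
  · intro h
    ext1 x
    exact h x

end

section

variable {F F' : Type*} [Field F] [NumberField F] [IsCMField F] [Field F'] [NumberField F']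
  [IsCMField F'] {L : Type*} [Field L] [NumberField L] [IsGalois ℚ L] (j : L →+* ℂ)

theorem flip_of_notContained (h' : ∀ ψ : F' →+* ℂ, ∃ φ : F' →+* L, j.comp φ = ψ)
    (hcom : ¬ CommonImaginaryQuadratic F F') (hcl : NotContained F F')
    (x₀ : F →+* L) (y₀ : F' →+* L) :
    ∃ g : L ≃ₐ[ℚ] L, g • x₀ = x₀ ∧ g • y₀ = cbar y₀ := by
  classical
  by_contra hnf
  obtain ⟨hm, hem⟩ := hcl
  have hY := card_emb_real j h'
  obtain ⟨g₁, hg₁, y₁, hy₁⟩ := exists_moving (F := F) j h' hem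
  obtain ⟨w, hw1, hwi, hws, hwst⟩ := normal_case (G := L ≃ₐ[ℚ] L) (X := F →+* L)
    (Y := F' →+* L) (fixAll F L) (fun n hn => (mem_fixAll n).1 hn) cbar cbar_cbar cbar_ne
    (fun g x => rfl) (finrank ℚ (maximalRealSubfield F')) (Or.inr hm)
    (by rw [Nat.card_eq_fintype_card, hY])
    (fun x x' => MulAction.exists_smul_eq _ x x') ⟨g₁, (mem_fixAll g₁).2 hg₁, y₁, hy₁⟩ x₀ y₀ hnf
  exact hcom (common_of_stab j x₀ y₀ w hw1 hwi hws hwst)

include j in
theorem flip_of_realDisjoint (hcom : ¬ CommonImaginaryQuadratic F F') (hcl : RealDisjoint F F')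
    (x₀ : F →+* L) (y₀ : F' →+* L) :
    ∃ g : L ≃ₐ[ℚ] L, g • x₀ = x₀ ∧ g • y₀ = cbar y₀ := by
  classical
  by_contra hnf
  obtain ⟨w, hw1, hwi, hws, hwst⟩ := normal_core (G := L ≃ₐ[ℚ] L) (X := F →+* L)
    (Y := F' →+* L) (fixAll F L) (fun n hn => (mem_fixAll n).1 hn) cbar cbar_cbar
    (fun g x => rfl) x₀ y₀ hnf (fun y => by
      obtain ⟨τ, hτ1, hτ2⟩ := hcl ((j.comp y₀).comp (maximalRealSubfield F').subtype)
        ((j.comp y).comp (maximalRealSubfield F').subtype)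
      obtain ⟨σ, hσ⟩ := exists_restrict j τ
      refine ⟨σ, (mem_fixAll σ).2 fun x => ?_, ?_⟩
      · apply comp_injective j
        rw [comp_smul_of_restrict j τ σ hσ, hτ1]
      · apply res_eq j
        rw [comp_smul_of_restrict j τ σ hσ]
        exact hτ2)
  exact hcom (common_of_stab j x₀ y₀ w hw1 hwi hws hwst)

/-- **Embeddings of separated CM fields are flipped.** -/
theorem flip_of_separated (h : ∀ ψ : F →+* ℂ, ∃ φ : F →+* L, j.comp φ = ψ)
    (h' : ∀ ψ : F' →+* ℂ, ∃ φ : F' →+* L, j.comp φ = ψ) (hsep : Separated F F')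
    (x₀ : F →+* L) (y₀ : F' →+* L) :
    ∃ g : L ≃ₐ[ℚ] L, (g • x₀ = x₀ ∧ g • y₀ = cbar y₀) ∨ (g • x₀ = cbar x₀ ∧ g • y₀ = y₀) := by
  rcases hsep with hfl | ⟨hcom, hc | hc | hc | hc | hc⟩
  · obtain ⟨τ, hτ⟩ := hfl (j.comp x₀) (j.comp y₀)
    obtain ⟨σ, hσ⟩ := exists_restrict j τ
    refine ⟨σ, ?_⟩
    rcases hτ with ⟨h1, h2⟩ | ⟨h1, h2⟩
    · refine Or.inl ⟨comp_injective j ?_, comp_injective j ?_⟩
      · rw [comp_smul_of_restrict j τ σ hσ, h1]
      · rw [comp_smul_of_restrict j τ σ hσ, h2, comp_cbar]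
    · refine Or.inr ⟨comp_injective j ?_, comp_injective j ?_⟩
      · rw [comp_smul_of_restrict j τ σ hσ, h1, comp_cbar]
      · rw [comp_smul_of_restrict j τ σ hσ, h2]
  · obtain ⟨g, hg⟩ := cross_flip j h h' ⟨hc.1, hcom, by
      rcases hc.2 with e | e | e
      · exact Or.inl e
      · exact Or.inr (Or.inr (Or.inr (Or.inl e)))
      · exact Or.inr (Or.inr (Or.inr (Or.inr e)))⟩ x₀ y₀
    exact ⟨g, Or.inl hg⟩
  · obtain ⟨g, hg⟩ := flip_of_realDisjoint j hcom hc x₀ y₀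
    exact ⟨g, Or.inl hg⟩
  · obtain ⟨g, hg1, hg2⟩ := flip_of_realDisjoint j (fun h => hcom h.symm) hc y₀ x₀
    exact ⟨g, Or.inr ⟨hg2, hg1⟩⟩
  · obtain ⟨g, hg⟩ := flip_of_notContained j h' hcom hc x₀ y₀
    exact ⟨g, Or.inl hg⟩
  · obtain ⟨g, hg1, hg2⟩ := flip_of_notContained j h (fun h => hcom h.symm) hc y₀ x₀
    exact ⟨g, Or.inr ⟨hg2, hg1⟩⟩

end

end Pool.Agent.Helper793_Prime
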