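import Mathlib
import Pool.Agent.H925R2.Ext

/-!
# Eigenclasses in exterior algebras, with one eigenvalue `r`, `r ^ 2 = q`
-/

set_option autoImplicit false
set_option linter.unusedSectionVars false
set_option linter.unusedVariables false

namespace Pool.Agent.Helper793_Prime

open Module Pool.Agent.H925R2 ExteriorAlgebra

variable {K V : Type*} [Field K] [AddCommGroup V] [Module K V]

theorem prod_perm {l l' : List V} (h : l.Perm l') :
    ∃ ε : K, (l.map (fun w => ι K w)).prod = ε • (l'.map (fun w => ι K w)).prod := by
  induction h with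
  | nil => exact ⟨1, by simp⟩
  | cons a _ ih =>
    obtain ⟨ε, hε⟩ := ih
    exact ⟨ε, by rw [List.map_cons, List.prod_cons, hε, List.map_cons, List.prod_cons,
      mul_smul_comm]⟩
  | swap a b l =>
    refine ⟨-1, ?_⟩
    simp only [List.map_cons, List.prod_cons]
    have h1 : ι K b * ι K a = - (ι K a * ι K b) := eq_neg_of_add_eq_zero_left (ι_add_mul_swap b a)
    rw [← mul_assoc, h1, ← mul_assoc, neg_smul, one_smul, neg_mul]
  | trans _ _ ih1 ih2 =>
    obtain ⟨ε, hε⟩ := ih1
    obtain ⟨ε', hε'⟩ := ih2
    exact ⟨ε * ε', by rw [hε, hε', smul_smul]⟩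

/-- A monomial of an even number of eigenvectors, whose eigenvalues different from `r` are balanced
with respect to `x ↦ q / x`, is a product of degree two eigenclasses, up to a factor. -/
theorem prod_mem_adjoin_ss [DecidableEq K] (F : V →ₗ[K] V) (q r : K) (hr : r * r = q) (hr0 : r ≠ 0)
    (E : Set K) (hE : ∀ x ∈ E, x ≠ 0 ∧ q / x ≠ x) (hEr : r ∉ E) :
    ∀ (n : ℕ) (L : List (V × K)), L.length = 2 * n →
      (∀ e ∈ L, (e.2 ∈ E ∨ e.2 = r) ∧ F e.1 = e.2 • e.1) →
      (∀ x ∈ E, (L.map Prod.snd).count x = (L.map Prod.snd).count (q / x)) →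
      (L.map (fun e => ι K e.1)).prod ∈ Algebra.adjoin K (deg2 F q) := by
  classical
  have hq0 : q ≠ 0 := by
    rw [← hr]
    exact mul_ne_zero hr0 hr0
  have hqr : ∀ x ∈ E, q / x ≠ r := by
    intro x hx h
    apply hEr
    have hx0 := (hE x hx).1
    have h1 : q = r * x := by
      rw [div_eq_iff hx0] at h
      exact h
    have h2 : x = r := by
      apply mul_left_cancel₀ hr0
      rw [← h1, hr]
    rwa [← h2]
  intro n
  induction n with
  | zero =>
    intro L hL _ _
    rw [mul_zero, List.length_eq_zero_iff] at hL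
    subst hL
    simp
  | succ n ih =>
    intro L hlen hL hbal
    by_cases hall : ∀ e ∈ L, e.2 = r
    · match L, hlen, hL, hbal, hall with
      | [], hlen, _, _, _ => simp at hlen
      | [_], hlen, _, _, _ =>
        simp only [List.length_cons, List.length_nil] at hlen
        omega
      | a :: b :: L', hlen, hL, hbal, hall =>
        have ha := hL a (by simp)
        have hb := hL b (by simp)
        have ha2 := hall a (by simp)
        have hb2 := hall b (by simp)
        rw [List.map_cons, List.prod_cons, List.map_cons, List.prod_cons, ← mul_assoc]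
        refine Subalgebra.mul_mem _ (Algebra.subset_adjoin
          (iota_mul_mem_deg2 F q a.2 b.2 a.1 b.1 ha.2 hb.2 (by rw [ha2, hb2, hr]))) (ih L' ?_ ?_ ?_)
        · simp only [List.length_cons] at hlen
          omega
        · intro e he
          exact hL e (by simp [he])
        · intro x hx
          rw [List.count_eq_zero_of_not_mem, List.count_eq_zero_of_not_mem]
          · intro h
            obtain ⟨e, he, he2⟩ := List.mem_map.1 h
            rw [hall e (by simp [he])] at he2
            exact hqr x hx he2.symm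
          · intro h
            obtain ⟨e, he, he2⟩ := List.mem_map.1 h
            rw [hall e (by simp [he])] at he2
            exact hEr (he2 ▸ hx)
    · push Not at hall
      obtain ⟨e, heL, her⟩ := hall
      have heE : e.2 ∈ E := (hL e heL).1.resolve_right her
      have hp1 := List.perm_cons_erase heL
      have hc1 : ∀ z, (L.map Prod.snd).count z =
          (if e.2 = z then 1 else 0) + ((L.erase e).map Prod.snd).count z := by
        intro z
        rw [(hp1.map Prod.snd).count_eq z, List.map_cons, List.count_cons]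
        by_cases h : e.2 = z
        · simp [h, add_comm]
        · simp [h]
      have h2 : q / e.2 ∈ (L.erase e).map Prod.snd := by
        rw [← List.count_pos_iff]
        have h3 := hbal e.2 heE
        rw [hc1, hc1, if_pos rfl, if_neg (fun h => (hE e.2 heE).2 h.symm)] at h3
        omega
      obtain ⟨e', he', hee'⟩ := List.mem_map.1 h2
      have hp2 := List.perm_cons_erase he'
      have hc2 : ∀ z, (L.map Prod.snd).count z =
          (if e.2 = z then 1 else 0) + ((if q / e.2 = z then 1 else 0) +
            (((L.erase e).erase e').map Prod.snd).count z) := by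
        intro z
        rw [hc1, (hp2.map Prod.snd).count_eq z, List.map_cons, List.count_cons, ← hee']
        by_cases h : e'.2 = z
        · simp [h, add_comm]
        · simp [h]
      have hperm : L.Perm (e :: e' :: (L.erase e).erase e') := hp1.trans (hp2.cons e)
      have hmem : ∀ f ∈ (L.erase e).erase e', f ∈ L := fun f hf =>
        List.mem_of_mem_erase (List.mem_of_mem_erase hf)
      have hrest := ih ((L.erase e).erase e') (by
        have h3 := hperm.length_eq
        simp only [List.length_cons] at h3
        omega) (fun f hf => hL f (hmem f hf)) (by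
        intro x hx
        have h3 := hbal x hx
        rw [hc2, hc2] at h3
        have hx0 := (hE x hx).1
        have he0 := (hE e.2 heE).1
        have h4 : (e.2 = x) ↔ (q / e.2 = q / x) := by
          constructor
          · intro h
            rw [h]
          · intro h
            rw [div_eq_div_iff he0 hx0] at h
            exact (mul_left_cancel₀ hq0 h).symm
        have h5 : (q / e.2 = x) ↔ (e.2 = q / x) := by
          rw [div_eq_iff he0, eq_div_iff hx0, mul_comm x e.2]
          exact eq_comm
        simp only [← h4, h5] at h3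
        omega)
      obtain ⟨ε, hε⟩ := prod_perm (K := K) (hperm.map Prod.fst)
      have h6 : (L.map (fun e => ι K e.1)).prod =
          ε • ((ι K e.1 * ι K e'.1) *
            (((L.erase e).erase e').map (fun e => ι K e.1)).prod) := by
        have h7 : L.map (fun e => ι K e.1) = (L.map Prod.fst).map (fun w => ι K w) := by
          rw [List.map_map]
          rfl
        rw [h7, hε]
        simp only [List.map_cons, List.prod_cons, List.map_map]
        rw [← mul_assoc]
        rfl
      rw [h6]
      refine Subalgebra.smul_mem _ (Subalgebra.mul_mem _ (Algebra.subset_adjoin ?_) hrest) _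
      have he'L : e' ∈ L := List.mem_of_mem_erase he'
      exact iota_mul_mem_deg2 F q e.2 e'.2 e.1 e'.1 (hL e heL).2 (hL e' he'L).2 (by
        rw [hee']
        have he0 := (hE e.2 heE).1
        field_simp)

/-- If all multiplicative relations `∏ μ_j = q ^ m` (`2 m` factors) between elements of
`E ∪ {r}` are balanced, then all eigenclasses of `F` of eigenvalue `q ^ m` in degree `2 m` are
polynomials in the eigenclasses of `F` of eigenvalue `q` in degree two. -/
theorem mem_adjoin_of_balanced_ss [DecidableEq K] (F : V →ₗ[K] V) (q r : K) (hr : r * r = q)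
    (hr0 : r ≠ 0) (E : Set K) (hE : ∀ x ∈ E, x ≠ 0 ∧ q / x ≠ x) (hEr : r ∉ E)
    (hspan : Submodule.span K {v : V | ∃ μ, (μ ∈ E ∨ μ = r) ∧ F v = μ • v} = ⊤) (m : ℕ)
    (hbal : ∀ L : List K, L.length = 2 * m → (∀ x ∈ L, x ∈ E ∨ x = r) → L.prod = q ^ m →
      ∀ x ∈ E, L.count x = L.count (q / x))
    (x : ExteriorAlgebra K V) (hx : x ∈ ⋀[K]^(2 * m) V)
    (hFx : ExteriorAlgebra.map F x = (q ^ m) • x) :
    x ∈ Algebra.adjoin K (deg2 F q) := by
  classical
  set E' : Set V := {v : V | ∃ μ, (μ ∈ E ∨ μ = r) ∧ F v = μ • v} with hs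
  have hsp := exteriorPower.ιMulti_span_fixedDegree_of_span_eq_top K (2 * m) V hspan
  set T : Set (ExteriorAlgebra K V) :=
    {y | ∃ a : Fin (2 * m) → V, (∀ j, a j ∈ E') ∧ ExteriorAlgebra.ιMulti K (2 * m) a = y} with hT
  have hTspan : x ∈ Submodule.span K T := by
    rw [← hsp] at hx
    refine Submodule.span_mono ?_ hx
    rintro _ ⟨a, ha, rfl⟩
    exact ⟨a, fun j => ha ⟨j, rfl⟩, rfl⟩
  have hTeig : ∀ a : Fin (2 * m) → V, (∀ j, a j ∈ E') → ∃ μ : Fin (2 * m) → K,
      (∀ j, (μ j ∈ E ∨ μ j = r) ∧ F (a j) = μ j • a j) ∧
      ExteriorAlgebra.map F (ExteriorAlgebra.ιMulti K (2 * m) a) =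
        (∏ j, μ j) • ExteriorAlgebra.ιMulti K (2 * m) a := by
    intro a ha
    choose μ hμ1 hμ2 using ha
    refine ⟨μ, fun j => ⟨hμ1 j, hμ2 j⟩, ?_⟩
    rw [ExteriorAlgebra.map_apply_ιMulti]
    have : (⇑F ∘ a) = fun j => μ j • a j := by
      funext j
      exact hμ2 j
    rw [this]
    exact AlternatingMap.map_smul_univ _ _ _
  have hmem := mem_span_eigen (ExteriorAlgebra.map F).toLinearMap T (by
    rintro t ⟨a, ha, rfl⟩
    obtain ⟨μ, _, h⟩ := hTeig a ha
    exact ⟨_, h⟩) (q ^ m) x hTspan hFx
  have hle : Submodule.span K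
      {t ∈ T | (ExteriorAlgebra.map F).toLinearMap t = q ^ m • t} ≤
      Subalgebra.toSubmodule (Algebra.adjoin K (deg2 F q)) := by
    rw [Submodule.span_le]
    rintro t ⟨⟨a, ha, rfl⟩, ht⟩
    obtain ⟨μ, hμ, h⟩ := hTeig a ha
    by_cases h0 : ExteriorAlgebra.ιMulti K (2 * m) a = 0
    · rw [h0]; exact Submodule.zero_mem _
    have hprod : ∏ j, μ j = q ^ m := by
      have h1 : (∏ j, μ j) • ExteriorAlgebra.ιMulti K (2 * m) a =
        q ^ m • ExteriorAlgebra.ιMulti K (2 * m) a := by rw [← h]; exact ht
      exact smul_left_injective K h0 h1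
    have h2 := prod_mem_adjoin_ss F q r hr hr0 E hE hEr m (List.ofFn fun j => (a j, μ j))
      (by simp) (by
      intro e he
      rw [List.mem_ofFn] at he
      obtain ⟨j, rfl⟩ := he
      exact hμ j) (by
      intro y hy
      have h3 : (List.ofFn fun j => (a j, μ j)).map Prod.snd = List.ofFn μ := by
        rw [List.map_ofFn]; rfl
      rw [h3]
      refine hbal (List.ofFn μ) (by simp) ?_ ?_ y hy
      · intro z hz
        rw [List.mem_ofFn] at hz
        obtain ⟨j, rfl⟩ := hz
        exact (hμ j).1
      · rw [List.prod_ofFn, hprod])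
    have h3 : (List.ofFn fun j => (a j, μ j)).map (fun e => ι K e.1) =
        List.ofFn fun j => ι K (a j) := by
      rw [List.map_ofFn]; rfl
    rw [h3] at h2
    rw [ExteriorAlgebra.ιMulti_apply]
    exact h2
  exact hle hmem

end Pool.Agent.Helper793_Prime
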