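import Mathlib
import Pool.Agent.Helper793_Prime.Fields

/-!
# No relations between the slopes of Weil numbers in CM fields of coprime degrees
-/

set_option autoImplicit false
set_option linter.unusedSectionVars false
set_option linter.unusedVariables false

namespace Pool.Agent.Helper793_Prime

open NumberField Module Pool.Agent.H204R3.CM Pool.Agent.H868R3.TwoOdd Pool.Agent.H194R3.CM
  Pool.Agent.H194R3.Tate Pool.Agent.H925R2 Pool.Agent.H485R3

section

variable {F : Type*} [Field F] [NumberField F] [IsCMField F] {L : Type*} [Field L] [NumberField L]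
  [IsGalois ℚ L] (p : ℕ) [Fact p.Prime]

theorem prod_zpow_sum {ι : Type*} (s : Finset ι) (x : ℝ) (hx : x ≠ 0) (c : ι → ℤ) :
    ∏ i ∈ s, x ^ c i = x ^ ∑ i ∈ s, c i := by
  classical
  induction s using Finset.induction_on with
  | empty => simp
  | insert a s ha ih => rw [Finset.prod_insert ha, Finset.sum_insert ha, ih, zpow_add₀ hx]

/-- No relations for a field of prime type. -/
theorem block_prime (j : L →+* ℂ) (h : ∀ ψ : F →+* ℂ, ∃ φ : F →+* L, j.comp φ = ψ)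
    (e : L →ₐ[ℚ] PadicAlgCl p) (m : ℕ) (π : F) (hint : IsIntegral ℤ π)
    (hweil : ∀ φ : F →+* ℂ, ‖φ π‖ ^ 2 = (((p : ℚ) ^ m : ℚ) : ℝ)) (htype : PrimeType p m π)
    (c : (F →+* L) → ℤ) (hc : ∀ φ, c (cbar φ) = -c φ)
    (hrel : ∀ g : L ≃ₐ[ℚ] L, ∑ φ : F →+* L, (c φ : ℝ) *
      dev p ((p : ℚ) ^ m) (e ((g • φ) π)) = 0) (φ₀ : F →+* L) : c φ₀ = 0 := by
  classical
  obtain ⟨hgen, hdeg⟩ := htype
  have hp : p.Prime := Fact.out
  have hq : (0 : ℚ) < (p : ℚ) ^ m := pow_pos (by exact_mod_cast hp.pos) _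
  have hsl : ∀ φ : F →+* L, dev p ((p : ℚ) ^ m) (e ((cbar φ) π)) =
      -dev p ((p : ℚ) ^ m) (e (φ π)) := by
    intro φ
    have h1 := dev_inv p hq.ne' (((e : L →+* PadicAlgCl p).comp φ) π)
      ((map_ne_zero _).2 (weil_ne hq hweil))
    rw [← weil_cbar hq hweil] at h1
    exact h1
  obtain ⟨κ, U, hκ, hU⟩ := exists_int_dev p (f := minpoly ℚ π)
    (minpoly.ne_zero (Algebra.IsIntegral.isIntegral _)) (by
      rintro α hα rfl
      have h1 : (minpoly ℚ π).coeff 0 = 0 := by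
        rw [Polynomial.aeval_def, Polynomial.eval₂_at_zero] at hα
        exact (map_eq_zero _).1 hα
      exact minpoly.coeff_zero_ne_zero (Algebra.IsIntegral.isIntegral _)
        (weil_ne hq hweil) h1) hq.ne'
  let u : (F →+* L) → ℤ := fun φ => U (e (φ π))
  have hroot : ∀ φ : F →+* L, Polynomial.aeval (e (φ π)) (minpoly ℚ π) = 0 := by
    intro φ
    have h1 := Polynomial.aeval_algHom_apply
      (e.comp (RingHom.equivRatAlgHom F L φ)) π (minpoly ℚ π)
    rw [minpoly.aeval, map_zero] at h1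
    exact h1
  have hus : ∀ φ : F →+* L, dev p ((p : ℚ) ^ m) (e (φ π)) = κ * u φ :=
    fun φ => hU _ (hroot φ)
  have hua : ∀ φ, u (cbar φ) = -u φ := by
    intro φ
    have h1 := hsl φ
    rw [hus, hus] at h1
    have h2 : κ * ((u (cbar φ) : ℝ) + u φ) = 0 := by linarith
    have h3 := (mul_eq_zero.1 h2).resolve_left hκ.ne'
    have h4 : u (cbar φ) + u φ = 0 := by exact_mod_cast h3
    omega
  have hsep : ∀ x y : F →+* L, x ≠ y → ∃ g : L ≃ₐ[ℚ] L, u (g • x) ≠ u (g • y) := by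
    intro x y hxy
    obtain ⟨g, hg⟩ := exists_slope_ne_slope p m π hint hgen hweil e x y hxy
    refine ⟨g, fun h0 => hg ?_⟩
    have h1 := hus (g • x)
    have h2 := hus (g • y)
    rw [h0, ← h2] at h1
    exact h1
  have hreli : ∀ g : L ≃ₐ[ℚ] L, ∑ φ : F →+* L, c φ * u (g • φ) = 0 := by
    intro g
    have h1 := hrel g
    have h2 : ∀ φ : F →+* L, (c φ : ℝ) *
        dev p ((p : ℚ) ^ m) (e ((g • φ) π)) = κ * ((c φ : ℝ) * u (g • φ)) := by
      intro φ
      rw [hus]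
      ring
    rw [Finset.sum_congr rfl (fun φ _ => h2 φ), ← Finset.mul_sum] at h1
    have h3 := (mul_eq_zero.1 h1).resolve_left hκ.ne'
    exact_mod_cast h3
  have hcard := card_emb_real j h
  have htr : ∀ x y : F →+* L, ∃ g : L ≃ₐ[ℚ] L, g • x = y :=
    fun x y => MulAction.exists_smul_eq _ x y
  have htwo : finrank ℚ (maximalRealSubfield F) = 2 → c φ₀ = 0 := by
    intro h2
    exact two_core (G := L ≃ₐ[ℚ] L) cbar cbar_cbar cbar_ne (fun g x => rfl)
      (by rw [hcard, h2]) htr u hua hsep c hc hreli φ₀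
  rcases hdeg with h1 | h2 | ⟨h3, hW⟩
  · exact one_core (G := L ≃ₐ[ℚ] L) cbar cbar_cbar cbar_ne (fun g x => rfl)
      (by rw [hcard, h1]) u hua hsep c hc hreli φ₀
  · exact htwo h2
  · rcases h3.eq_two_or_odd' with h4 | h4
    · exact htwo h4
    · rcases prime_core (G := L ≃ₐ[ℚ] L) cbar cbar_cbar cbar_ne (fun g x => rfl)
        (finrank ℚ (maximalRealSubfield F)) h3 h4 hcard htr u hua hsep c hc hreli with h5 | h5
      · exact h5 φ₀
      · exfalso
        obtain ⟨v, hv, hvn, hvs, hsum⟩ := h5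
        exact hW (weilSlopes_of p j h e m π κ u hus hua v hv hvn hvs hsum φ₀)

/-- No relations for a Weil number of maximal angle rank. -/
theorem block_angle (j : L →+* ℂ) (h : ∀ ψ : F →+* ℂ, ∃ φ : F →+* L, j.comp φ = ψ)
    (e : L →ₐ[ℚ] PadicAlgCl p) (m : ℕ) (π : F) (hint : IsIntegral ℤ π)
    (hweil : ∀ φ : F →+* ℂ, ‖φ π‖ ^ 2 = (((p : ℚ) ^ m : ℚ) : ℝ)) (htype : MaximalAngleRank π)
    (c : (F →+* L) → ℤ) (hc : ∀ φ, c (cbar φ) = -c φ)
    (hrel : ∀ g : L ≃ₐ[ℚ] L, ∑ φ : F →+* L, (c φ : ℝ) *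
      dev p ((p : ℚ) ^ m) (e ((g • φ) π)) = 0) (φ₀ : F →+* L) : c φ₀ = 0 := by
  classical
  have hp : p.Prime := Fact.out
  have hq : (0 : ℚ) < (p : ℚ) ^ m := pow_pos (by exact_mod_cast hp.pos) _
  have hπ0 : π ≠ 0 := weil_ne hq hweil
  have h0 : ∀ χ : F →+* L, χ π ≠ 0 := fun χ => (map_ne_zero χ).2 hπ0
  have hI : ∀ χ : F →+* L, IsIntegral ℤ (χ π) := fun χ => map_isIntegral_int χ hint
  have hsum0 : ∑ φ : F →+* L, c φ = 0 := by
    have h2 : ∑ φ : F →+* L, c φ = ∑ φ : F →+* L, -c φ := by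
      refine Finset.sum_nbij' cbar cbar (fun _ _ => Finset.mem_univ _)
        (fun _ _ => Finset.mem_univ _) (fun y _ => cbar_cbar y) (fun y _ => cbar_cbar y)
        (fun y _ => ?_)
      rw [hc, neg_neg]
    rw [Finset.sum_neg_distrib] at h2
    omega
  have hunit : ∀ (l : ℕ) [Fact l.Prime], l ≠ p → ∀ (e' : L →ₐ[ℚ] PadicAlgCl l) (χ : F →+* L),
      ‖e' (χ π)‖ = 1 := by
    intro l _ hlp e' χ
    have h1 : ‖e' (χ π)‖ ≤ 1 := norm_le_one_of_isIntegral l _ (map_isIntegral_int (e' : L →+* PadicAlgCl l) (hI χ))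
    have h2 : ‖e' (cbar χ π)‖ ≤ 1 :=
      norm_le_one_of_isIntegral l _ (map_isIntegral_int (e' : L →+* PadicAlgCl l) (hI (cbar χ)))
    have h3 : e' (χ π) * e' (cbar χ π) = (p : PadicAlgCl l) ^ m := by
      rw [← map_mul, weil_cbar hq hweil, mul_div_cancel₀ _ (h0 χ)]
      rw [map_ratCast]
      push_cast
      rfl
    have h4 : ‖e' (χ π)‖ * ‖e' (cbar χ π)‖ = 1 := by
      rw [← norm_mul, h3, norm_prime_pow_ne l p hp hlp]
    nlinarith [norm_nonneg (e' (χ π)), norm_nonneg (e' (cbar χ π))]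
  obtain ⟨y, hy⟩ : ∃ y : L, y = ∏ φ : F →+* L, (φ π) ^ c φ := ⟨_, rfl⟩
  have hz : IsIntegral ℤ y := by
    apply isIntegral_of_norm_le
    intro l hl e'
    refine le_of_eq ?_
    have e1 : ‖e' y‖ = ∏ φ : F →+* L, ‖e' (φ π)‖ ^ c φ := by
      rw [hy, map_prod, norm_prod]
      exact Finset.prod_congr rfl fun φ _ => by rw [map_zpow₀, norm_zpow]
    rw [e1]
    by_cases hlp : l = p
    · subst hlp
      obtain ⟨g, hg⟩ := exists_gal e e'
      have hpos : ∀ φ : F →+* L, 0 < ‖e' (φ π)‖ := fun φ =>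
        norm_pos_iff.2 ((map_ne_zero _).2 (h0 φ))
      have e2 : Real.log (∏ φ : F →+* L, ‖e' (φ π)‖ ^ c φ) = 0 := by
        rw [Real.log_prod (fun φ _ => (zpow_pos (hpos φ) _).ne')]
        have e3 : ∀ φ : F →+* L, Real.log (‖e' (φ π)‖ ^ c φ) =
            (1 / 2) * ((c φ : ℝ) * dev l ((l : ℚ) ^ m) (e ((g • φ) π))) +
              (1 / 2) * Real.log ‖((((l : ℚ) ^ m : ℚ)) : PadicAlgCl l)‖ * (c φ : ℝ) := by
          intro φ
          rw [Real.log_zpow, hg]
          unfold dev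
          change (c φ : ℝ) * Real.log ‖e (g (φ π))‖ = (1 / 2) * ((c φ : ℝ) *
            (2 * Real.log ‖e (g (φ π))‖ - Real.log ‖((((l : ℚ) ^ m : ℚ)) : PadicAlgCl l)‖)) + _
          ring
        rw [Finset.sum_congr rfl (fun φ _ => e3 φ), Finset.sum_add_distrib, ← Finset.mul_sum,
          ← Finset.mul_sum, hrel g]
        have e4 : ∑ φ : F →+* L, (c φ : ℝ) = 0 := by exact_mod_cast hsum0
        rw [e4]
        ring
      have e5 : 0 < ∏ φ : F →+* L, ‖e' (φ π)‖ ^ c φ :=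
        Finset.prod_pos fun φ _ => zpow_pos (hpos φ) _
      exact Real.eq_one_of_pos_of_log_eq_zero e5 e2
    · exact Finset.prod_eq_one fun φ _ => by rw [hunit l hlp e' φ, one_zpow]
  obtain ⟨s, hs, hs1⟩ := pow_eq_one_of_norm y hz (fun τ => by
    rw [hy, map_prod, norm_prod]
    have hpos : ∀ φ : F →+* L, 0 < ‖τ (φ π)‖ := fun φ =>
      norm_pos_iff.2 ((map_ne_zero _).2 (h0 φ))
    have e1 : ∀ φ : F →+* L, ‖τ ((φ π) ^ c φ)‖ = Real.sqrt ((((p : ℚ) ^ m : ℚ) : ℝ)) ^ c φ := by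
      intro φ
      have h1 := hweil ((τ : L →+* ℂ).comp φ)
      have h2 : ‖τ (φ π)‖ = Real.sqrt ((((p : ℚ) ^ m : ℚ) : ℝ)) := by
        rw [← h1]
        exact (Real.sqrt_sq (norm_nonneg _)).symm
      rw [map_zpow₀, norm_zpow, h2]
    rw [Finset.prod_congr rfl (fun φ _ => e1 φ)]
    have hsq : Real.sqrt ((((p : ℚ) ^ m : ℚ) : ℝ)) ≠ 0 := by
      refine (Real.sqrt_pos.2 ?_).ne'
      exact_mod_cast hq
    rw [prod_zpow_sum _ _ hsq, hsum0, zpow_zero])
  -- transport to the complex numbers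
  let E := embEquiv j h
  have hE : ∀ φ : F →+* L, E φ = j.comp φ := fun φ => rfl
  let c' : (F →+* ℂ) → ℤ := fun ψ => c (E.symm ψ)
  have hc' : ∀ ψ, c' (ComplexEmbedding.conjugate ψ) = -c' ψ := by
    intro ψ
    have e1 : E.symm (ComplexEmbedding.conjugate ψ) = cbar (E.symm ψ) := by
      rw [Equiv.symm_apply_eq, hE, comp_cbar, ← hE, Equiv.apply_symm_apply]
    simp only [c', e1, hc]
  have key := htype c' hc' ⟨s, hs, by
    have e1 : ∏ ψ : F →+* ℂ, ψ π ^ c' ψ = j y := by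
      rw [hy, map_prod]
      refine (Fintype.prod_equiv E _ _ fun φ => ?_).symm
      have e2 : c' (E φ) = c φ := by simp only [c', Equiv.symm_apply_apply]
      rw [e2, hE, map_zpow₀]
      rfl
    rw [e1, ← map_pow, hs1, map_one]⟩
  have e1 := congrFun key (E φ₀)
  simpa only [c', Equiv.symm_apply_apply, Pi.zero_apply] using e1

end

end Pool.Agent.Helper793_Prime
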