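import Mathlib
import Pool.Agent.Helper793_Prime.NoRel
import Pool.Agent.Helper793_Prime.Normal
import Pool.Agent.H868R3.PoleMain

/-!
# No relations between the slopes for families of CM fields of coprime degrees
-/

set_option autoImplicit false
set_option linter.unusedSectionVars false
set_option linter.unusedVariables false

namespace Pool.Agent.Helper793_Prime

open NumberField Module Pool.Agent.H204R3.CM Pool.Agent.H868R3.TwoOdd Pool.Agent.H194R3.CM
  Pool.Agent.H194R3.Tate Pool.Agent.H925R2 Pool.Agent.H485R3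

variable {I : Type*} (p : ℕ) [Fact p.Prime] {K : I → Type*} [∀ i, Field (K i)]
  [∀ i, NumberField (K i)] [∀ i, IsCMField (K i)]

/-- **No relations for separated CM fields.** -/
theorem norel_separated [Fintype I] (m : I → ℕ) (π : ∀ i, K i) (hint : ∀ i, IsIntegral ℤ (π i))
    (hweil : ∀ i, ∀ φ : K i →+* ℂ, ‖φ (π i)‖ ^ 2 = (((p : ℚ) ^ m i : ℚ) : ℝ))
    (htype : ∀ i, PrimeType p (m i) (π i) ∨ MaximalAngleRank (π i))
    (hcross : ∀ i j, i ≠ j → Separated (K i) (K j)) :
    NoRel p (fun i => (p : ℚ) ^ m i) π := by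
  classical
  intro L _ _ j h e c hc hrel
  have hp : p.Prime := Fact.out
  have hq : ∀ i, (0 : ℚ) < (p : ℚ) ^ m i := fun i => pow_pos (by exact_mod_cast hp.pos) _
  let X := Σ i, (K i →+* L)
  let G := L ≃ₐ[ℚ] L
  have hG : ∀ (g : G) (x : X), g • inj x = inj (g • x) := by
    rintro g ⟨a, φ⟩
    rfl
  obtain ⟨hblock, -⟩ := core_block_real (X := X) (G := G) inj hG (fun x => x.1) (slope p _ π e)
    (slope_inj p hq hweil e)
    (fun x y hxy => by
      obtain ⟨g, ⟨hg1, hg2⟩ | ⟨hg1, hg2⟩⟩ := flip_of_separated j (h x.1) (h y.1)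
        (hcross x.1 y.1 (fun h' => hxy h'.symm)) x.2 y.2
      · exact ⟨g, Or.inl ⟨congrArg (Sigma.mk x.1) hg1, congrArg (Sigma.mk y.1) hg2⟩⟩
      · exact ⟨g, Or.inr ⟨congrArg (Sigma.mk x.1) hg1, congrArg (Sigma.mk y.1) hg2⟩⟩) c hrel
  have hblock' : ∀ i, ∀ g : G, ∑ φ : K i →+* L, (c ⟨i, φ⟩ : ℝ) *
      dev p ((p : ℚ) ^ m i) (e ((g • φ) (π i))) = 0 := by
    intro i g
    rw [← hblock i g, Finset.sum_filter, Fintype.sum_sigma, Finset.sum_eq_single i]
    · refine Finset.sum_congr rfl fun φ _ => ?_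
      rw [if_pos rfl]
      rfl
    · intro b _ hb
      refine Finset.sum_eq_zero fun φ _ => ?_
      rw [if_neg hb]
    · intro h
      exact absurd (Finset.mem_univ _) h
  rintro ⟨i, φ₀⟩
  rcases htype i with ht | ht
  · exact block_prime p j (h i) e (m i) (π i) (hint i) (hweil i) ht (fun φ => c ⟨i, φ⟩)
      (fun φ => hc ⟨i, φ⟩) (hblock' i) φ₀
  · exact block_angle p j (h i) e (m i) (π i) (hint i) (hweil i) ht (fun φ => c ⟨i, φ⟩)
      (fun φ => hc ⟨i, φ⟩) (hblock' i) φ₀

/-- If there are no relations between the slopes, the powers of `π i` generate the fields. -/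
theorem gen_of_norel [Finite I] (q : I → ℚ) (hq : ∀ i, 0 < q i) (π : ∀ i, K i)
    (hweil : ∀ i, ∀ φ : K i →+* ℂ, ‖φ (π i)‖ ^ 2 = (q i : ℝ))
    (hnd : ∀ _ : Fintype I, NoRel p q π) (i : I) (s : ℕ) (hs : 0 < s) :
    IntermediateField.adjoin ℚ {π i ^ s} = ⊤ := by
  classical
  cases nonempty_fintype I
  obtain ⟨L, hL1, hL2, j, h⟩ := exists_galois K
  let e : L →ₐ[ℚ] PadicAlgCl p := IsAlgClosed.lift
  have hnr := hnd inferInstance L hL1 hL2 j h e
  have hinj : ∀ φ ψ : K i →+* L, φ (π i ^ s) = ψ (π i ^ s) → φ = ψ := by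
    intro φ ψ hφψ
    by_contra hne
    have h0 : ∀ χ : K i →+* L, χ (π i) ≠ 0 := fun χ => (map_ne_zero χ).2 (weil_ne (hq i) (hweil i))
    have hsl : ∀ g : L ≃ₐ[ℚ] L, slope p q π e (g • ⟨i, φ⟩) = slope p q π e (g • ⟨i, ψ⟩) := by
      intro g
      change dev p (q i) (e (g (φ (π i)))) = dev p (q i) (e (g (ψ (π i))))
      have h1 : ‖e (g (φ (π i)))‖ ^ s = ‖e (g (ψ (π i)))‖ ^ s := by
        rw [← norm_pow, ← norm_pow, ← map_pow, ← map_pow, ← map_pow, ← map_pow, ← map_pow,
          ← map_pow, hφψ]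
      have h2 : ‖e (g (φ (π i)))‖ = ‖e (g (ψ (π i)))‖ :=
        (pow_left_inj₀ (norm_nonneg _) (norm_nonneg _) hs.ne').1 h1
      unfold dev
      rw [h2]
    let δ : (Σ i, (K i →+* L)) → (Σ i, (K i →+* L)) → ℤ := fun x y => if y = x then 1 else 0
    let x : Σ i, (K i →+* L) := ⟨i, φ⟩
    let y : Σ i, (K i →+* L) := ⟨i, ψ⟩
    have hxy : x ≠ y := fun h => hne (eq_of_heq (Sigma.mk.inj_iff.1 h).2)
    have hxx : inj x ≠ x := fun h => cbar_ne φ (eq_of_heq (Sigma.mk.inj_iff.1 h).2)
    have key := hnr (fun z => δ x z - δ y z - δ (inj x) z + δ (inj y) z) (by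
      intro z
      have e1 : ∀ w z : Σ i, (K i →+* L), δ w (inj z) = δ (inj w) z := by
        intro w z
        simp only [δ]
        by_cases h : inj z = w
        · rw [if_pos h, if_pos (by rw [← h, inj_inj])]
        · rw [if_neg h, if_neg (fun h' => h (by rw [h', inj_inj]))]
      simp only [e1, inj_inj]
      ring) (by
      intro g
      have e1 : ∀ w : Σ i, (K i →+* L),
          ∑ z, (δ w z : ℝ) * slope p q π e (g • z) = slope p q π e (g • w) := by
        intro w
        rw [Finset.sum_eq_single w]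
        · simp [δ]
        · intro z _ hz
          simp [δ, hz]
        · intro h
          exact absurd (Finset.mem_univ _) h
      have e2 : ∀ w : Σ i, (K i →+* L), slope p q π e (g • inj w) = - slope p q π e (g • w) := by
        intro w
        have e3 : g • inj w = inj (g • w) := rfl
        rw [e3, slope_inj p hq hweil]
      have e3 : ∀ z, ((δ x z - δ y z - δ (inj x) z + δ (inj y) z : ℤ) : ℝ) *
          slope p q π e (g • z) = (δ x z : ℝ) * slope p q π e (g • z) -
            (δ y z : ℝ) * slope p q π e (g • z) - (δ (inj x) z : ℝ) * slope p q π e (g • z) +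
            (δ (inj y) z : ℝ) * slope p q π e (g • z) := by
        intro z
        push_cast
        ring
      rw [Finset.sum_congr rfl (fun z _ => e3 z), Finset.sum_add_distrib, Finset.sum_sub_distrib,
        Finset.sum_sub_distrib, e1, e1, e1, e1, e2, e2, hsl g]
      ring) x
    simp only [δ, if_true, if_neg hxy, if_neg (Ne.symm hxx)] at key
    split_ifs at key <;> omega
  -- transport to the complex numbers
  rw [Field.primitive_element_iff_algHom_eq_of_eval' ℚ ℂ (fun x => IsAlgClosed.splits _)]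
  intro φ ψ hφψ
  obtain ⟨φ', hφ'⟩ := h i (φ : K i →+* ℂ)
  obtain ⟨ψ', hψ'⟩ := h i (ψ : K i →+* ℂ)
  have h1 : φ' (π i ^ s) = ψ' (π i ^ s) := by
    apply j.injective
    have e1 : j (φ' (π i ^ s)) = φ (π i ^ s) := RingHom.congr_fun hφ' _
    have e2 : j (ψ' (π i ^ s)) = ψ (π i ^ s) := RingHom.congr_fun hψ' _
    rw [e1, e2]
    exact hφψ
  have h2 := hinj φ' ψ' h1
  apply AlgHom.coe_ringHom_injective
  rw [← hφ', ← hψ', h2]

end Pool.Agent.Helper793_Prime
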