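import Mathlib
import Pool.Agent.Helper793_Prime.Defs
import Pool.Agent.Helper793_Prime.ExtSS

/-!
# The order of the poles and the geometric divisor classes
-/

set_option autoImplicit false
set_option linter.unusedSectionVars false
set_option linter.unusedVariables false

namespace Pool.Agent.Helper793_Prime

open Module Pool.Agent.H868R3.TwoOdd Pool.Agent.H925R2

variable {V : Type*} [AddCommGroup V] [Module ℂ V]

theorem zeta_order_geom [FiniteDimensional ℂ V] (q : ℝ) (hq : 1 < q) (F : V →ₗ[ℂ] V) (E : Set ℂ)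
    (hE : ∀ μ ∈ E, ‖μ‖ ^ 2 = q)
    (hF : Submodule.span ℂ {v : V | ∃ μ : ℂ, μ ∈ E ∧ F v = μ • v} = ⊤) (n : ℕ)
    (hD : ∀ x : ExteriorAlgebra ℂ V, x ∈ ⋀[ℂ]^(2 * n) V →
      ExteriorAlgebra.map F x = (q : ℂ) ^ n • x →
        x ∈ Algebra.adjoin ℂ (geometricDivisorClasses (q : ℂ) F)) :
    meromorphicOrderAt (zeta q F) (n : ℂ) =
      ((- (finrank ℂ (algebraicClasses (q : ℂ) F n) : ℤ) : ℤ) : WithTop ℤ) := by
  classical
  -- the eigenspaces
  have hzero : ∀ j, j ≠ 2 * n →
      finrank ℂ (Module.End.eigenspace (exteriorPower.map j F) ((q : ℂ) ^ n)) = 0 := by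
    intro j hj
    obtain ⟨ι, _, B, α, hB, hα⟩ := exists_extBasis F E hF j
    rw [finrank_eigenspace B _ α hB, Nat.card_eq_zero]
    left
    refine ⟨fun ⟨i, hi⟩ => hj ?_⟩
    obtain ⟨m, hm1, hm2⟩ := hα i
    have h1 : (‖α i‖ ^ 2 : ℝ) = q ^ j := by
      rw [hm2, norm_prod, ← Finset.prod_pow, Finset.prod_congr rfl (fun l _ => hE _ (hm1 l)),
        Finset.prod_const, Finset.card_univ, Fintype.card_fin]
    rw [hi, norm_pow, Complex.norm_real, Real.norm_of_nonneg (by linarith), ← pow_mul] at h1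
    have h2 : n * 2 = j := pow_right_injective₀ (by linarith : 0 < q) hq.ne' h1
    omega
  have hmain : finrank ℂ (Module.End.eigenspace (exteriorPower.map (2 * n) F) ((q : ℂ) ^ n)) =
      finrank ℂ (algebraicClasses (q : ℂ) F n) := by
    have h1 : (Module.End.eigenspace (exteriorPower.map (2 * n) F) ((q : ℂ) ^ n)).map
        (⋀[ℂ]^(2 * n) V).subtype = algebraicClasses (q : ℂ) F n := by
      apply le_antisymm
      · rintro _ ⟨x, hx, rfl⟩
        rw [SetLike.mem_coe, Module.End.mem_eigenspace_iff] at hx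
        have h3 : ExteriorAlgebra.map F (x : ExteriorAlgebra ℂ V) = (q : ℂ) ^ n • (x : ExteriorAlgebra ℂ V) := by
          rw [← map_coe, hx]
          rfl
        exact ⟨x.2, h3, hD _ x.2 h3⟩
      · rintro x ⟨h2, h3, -⟩
        refine ⟨⟨x, h2⟩, ?_, rfl⟩
        rw [SetLike.mem_coe, Module.End.mem_eigenspace_iff]
        apply Subtype.ext
        rw [map_coe, h3]
        rfl
    rw [← h1]
    exact (LinearEquiv.finrank_eq (Submodule.equivMapOfInjective _
      (Submodule.subtype_injective _) _))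
  have hdet : ∀ j : ℕ, MeromorphicAt (fun s : ℂ =>
      (LinearMap.det (1 - (q : ℂ) ^ (-s) • exteriorPower.map j F)) ^ ((-1 : ℤ) ^ (j + 1))) (n : ℂ) ∧
      meromorphicOrderAt (fun s : ℂ =>
      (LinearMap.det (1 - (q : ℂ) ^ (-s) • exteriorPower.map j F)) ^ ((-1 : ℤ) ^ (j + 1))) (n : ℂ) =
      (((-1 : ℤ) ^ (j + 1) * finrank ℂ
        (Module.End.eigenspace (exteriorPower.map j F) ((q : ℂ) ^ n)) : ℤ) : WithTop ℤ) := by
    intro j
    obtain ⟨ι, _, B, α, hB, hα⟩ := exists_extBasis F E hF j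
    obtain ⟨h1, h2⟩ := order_det q hq n B _ α hB
    refine ⟨h1.fun_zpow _, ?_⟩
    rw [fun_meromorphicOrderAt_zpow h1, h2]
    rfl
  unfold zeta
  change meromorphicOrderAt (fun s : ℂ => ∏ j ∈ Finset.range (finrank ℂ V + 1),
    (LinearMap.det (1 - (q : ℂ) ^ (-s) • exteriorPower.map j F)) ^ ((-1 : ℤ) ^ (j + 1)))
      (n : ℂ) = _
  rw [meromorphicOrderAt_fun_prod (fun j _ => (hdet j).1),
    Finset.sum_congr rfl (fun j _ => (hdet j).2), ← WithTop.coe_sum]
  congr 1
  rw [← hmain]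
  by_cases hn : 2 * n ∈ Finset.range (finrank ℂ V + 1)
  · rw [Finset.sum_eq_single_of_mem (2 * n) hn]
    · rw [pow_succ, pow_mul]
      simp
    · intro j _ hj
      rw [hzero j hj]
      simp
  · have h1 : finrank ℂ (Module.End.eigenspace (exteriorPower.map (2 * n) F) ((q : ℂ) ^ n)) = 0 := by
      have h2 : finrank ℂ (⋀[ℂ]^(2 * n) V) = 0 := by
        rw [exteriorPower.finrank_eq, Nat.choose_eq_zero_of_lt]
        rw [Finset.mem_range] at hn
        omega
      have h3 := Submodule.finrank_le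
        (Module.End.eigenspace (exteriorPower.map (2 * n) F) ((q : ℂ) ^ n))
      omega
    rw [h1, Finset.sum_eq_zero]
    · simp
    · intro j hj
      have hj2 : j ≠ 2 * n := fun h => hn (h ▸ hj)
      rw [hzero j hj2]
      simp

end Pool.Agent.Helper793_Prime
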