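import Mathlib
import Pool.Agent.Helper793_Prime.Main
import Pool.Agent.Helper793_Prime.Zeta

/-!
# Poles for abelian varieties with given geometric isogeny factors
-/

set_option autoImplicit false
set_option linter.unusedSectionVars false
set_option linter.unusedVariables false

namespace Pool.Agent.Helper793_Prime

open NumberField Module Pool.Agent.H204R3.CM Pool.Agent.H868R3.TwoOdd Pool.Agent.H194R3.CM
  Pool.Agent.H194R3.Tate Pool.Agent.H925R2 Pool.Agent.H485R3

variable {I : Type*} (p : ℕ) [Fact p.Prime] {K : I → Type*} [∀ i, Field (K i)]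
  [∀ i, NumberField (K i)] [∀ i, IsCMField (K i)]

theorem norel_pow [Fintype I] (q : I → ℚ) (π : ∀ i, K i) (hnd : NoRel p q π) (M : I → ℕ)
    (hM : ∀ i, 0 < M i) : NoRel p (fun i => q i ^ M i) (fun i => π i ^ M i) := by
  intro L _ _ j h e c hc hrel x
  have hsl : ∀ y : Σ i, (K i →+* L), slope p (fun i => q i ^ M i) (fun i => π i ^ M i) e y =
      (M y.1 : ℝ) * slope p q π e y := by
    intro y
    simp only [Pool.Agent.H194R3.Tate.slope, dev]
    rw [map_pow, map_pow, norm_pow, Real.log_pow]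
    push_cast
    rw [norm_pow, Real.log_pow]
    ring
  have key := hnd L ‹_› ‹_› j h e (fun y => c y * M y.1) (fun y => by
    rw [hc]
    have h1 : (inj y).1 = y.1 := rfl
    rw [h1]
    ring) (fun g => by
      rw [← hrel g]
      refine Finset.sum_congr rfl fun y _ => ?_
      rw [hsl]
      have h1 : (g • y).1 = y.1 := rfl
      rw [h1]
      push_cast
      ring) x
  have h2 : (M x.1 : ℤ) ≠ 0 := by exact_mod_cast (hM x.1).ne'
  exact (mul_eq_zero.1 key).resolve_right h2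

theorem list_of_norel_c [Finite I] (q : ℚ) (hq : 0 < q) (π : ∀ i, K i)
    (hgen : ∀ i, IntermediateField.adjoin ℚ {π i} = ⊤)
    (hweil : ∀ i, ∀ φ : K i →+* ℂ, ‖φ (π i)‖ ^ 2 = (q : ℝ))
    (hnd : ∀ _ : Fintype I, NoRel p (fun _ => q) π)
    {Ω : Type*} [Field Ω] [IsAlgClosed Ω] [CharZero Ω] [DecidableEq Ω]
    (L : List Ω) (c : Ω) (hc : c ^ 2 = (q : Ω) ^ L.length)
    (hL : ∀ x ∈ L, x ∈ {μ : Ω | ∃ i, ∃ σ : K i →+* Ω, σ (π i) = μ})
    (hprod : L.prod = c)
    (x : Ω) (hx : x ∈ {μ : Ω | ∃ i, ∃ σ : K i →+* Ω, σ (π i) = μ}) :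
    L.count x = L.count ((q : Ω) / x) := by
  classical
  cases nonempty_fintype I
  have h1 : ∀ a : Fin L.length, ∃ i, ∃ σ : K i →+* Ω, σ (π i) = L.get a :=
    fun a => hL _ (List.get_mem L a)
  choose t σ hσ using h1
  have hcard : ∀ z : Ω, L.count z = ∑ i, Nat.card {a : Fin L.length // t a = i ∧ L.get a = z} := by
    intro z
    rw [list_count_eq, Nat.card_eq_fintype_card, Fintype.card_subtype,
      Finset.card_eq_sum_card_fiberwise (f := t) (t := Finset.univ) (fun _ _ => Finset.mem_univ _)]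
    refine Finset.sum_congr rfl fun i _ => ?_
    rw [Nat.card_eq_fintype_card, Fintype.card_subtype, Finset.filter_filter]
    congr 1
    ext a
    simp only [Finset.mem_filter, Finset.mem_univ, true_and]
    exact and_comm
  rw [hcard, hcard]
  refine Finset.sum_congr rfl fun i _ => ?_
  have hprod' : (∏ a, L.get a) ^ 1 = c ^ 1 := by
    rw [← hprod]
    congr 1
    rw [← List.prod_ofFn, List.ofFn_get]
  have hq2 : c ^ 2 = ∏ _a : Fin L.length, (q : Ω) := by
    rw [Finset.prod_const, Finset.card_univ, Fintype.card_fin, hc]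
  by_cases hxi : ∃ σ : K i →+* Ω, σ (π i) = x
  · exact balanced_of_norel p (fun _ => q) (fun _ => hq) π hgen hweil hnd t 1 one_pos
      c hq2 (fun a => L.get a) (fun a => ⟨σ a, hσ a⟩) hprod' i x hxi
  · have h2 : ¬ ∃ σ : K i →+* Ω, σ (π i) = (q : Ω) / x := by
      intro h
      apply hxi
      have h3 := conj_mem K (fun _ => q) (fun _ => hq) π hweil i ((q : Ω) / x) h
      have hx0 : x ≠ 0 := by
        obtain ⟨i', h'⟩ := hx
        exact (conj_ne K (fun _ => q) (fun _ => hq) π hgen hweil i' x h').1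
      have hq0 : (q : Ω) ≠ 0 := by exact_mod_cast hq.ne'
      have h4 : (q : Ω) / ((q : Ω) / x) = x := by field_simp
      rwa [h4] at h3
    have h3 : ∀ z : Ω, (¬ ∃ σ : K i →+* Ω, σ (π i) = z) →
        Nat.card {a : Fin L.length // t a = i ∧ L.get a = z} = 0 := by
      intro z hz
      rw [Nat.card_eq_zero]
      left
      refine ⟨fun ⟨a, h4, h5⟩ => hz ?_⟩
      subst h4
      exact ⟨σ a, (hσ a).trans h5⟩
    rw [h3 _ hxi, h3 _ h2]

theorem list_of_norel_ss [Finite I] (q : ℚ) (hq : 0 < q) (π : ∀ i, K i)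
    (hgen : ∀ i, IntermediateField.adjoin ℚ {π i} = ⊤)
    (hweil : ∀ i, ∀ φ : K i →+* ℂ, ‖φ (π i)‖ ^ 2 = (q : ℝ))
    (hnd : ∀ _ : Fintype I, NoRel p (fun _ => q) π)
    {Ω : Type*} [Field Ω] [IsAlgClosed Ω] [CharZero Ω] [DecidableEq Ω] (r : Ω)
    (hr : r * r = (q : Ω)) (hr0 : r ≠ 0)
    (hrE : r ∉ {μ : Ω | ∃ i, ∃ σ : K i →+* Ω, σ (π i) = μ})
    (m : ℕ) (L : List Ω) (hlen : L.length = 2 * m)
    (hL : ∀ x ∈ L, x ∈ {μ : Ω | ∃ i, ∃ σ : K i →+* Ω, σ (π i) = μ} ∨ x = r)
    (hprod : L.prod = (q : Ω) ^ m)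
    (x : Ω) (hx : x ∈ {μ : Ω | ∃ i, ∃ σ : K i →+* Ω, σ (π i) = μ}) :
    L.count x = L.count ((q : Ω) / x) := by
  classical
  have hq0 : (q : Ω) ≠ 0 := by exact_mod_cast hq.ne'
  let L' := L.filter (fun y => y ≠ r)
  have hsplit : ∀ L : List Ω, L.prod = (L.filter (fun y => y ≠ r)).prod * r ^ L.count r ∧
      L.length = (L.filter (fun y => y ≠ r)).length + L.count r := by
    intro L
    induction L with
    | nil => simp
    | cons a L ih =>
      by_cases h : a = r
      · subst h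
        rw [List.filter_cons_of_neg (by simp), List.count_cons_self, List.prod_cons, ih.1,
          List.length_cons, ih.2]
        constructor
        · rw [pow_succ]
          ring
        · omega
      · rw [List.filter_cons_of_pos (by simpa using h), List.count_cons_of_ne h, List.prod_cons,
          List.prod_cons, List.length_cons, List.length_cons]
        constructor
        · rw [ih.1, mul_assoc]
        · omega
  obtain ⟨hs1, hs2⟩ := hsplit L
  have hprod' : L'.prod = r ^ L'.length := by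
    apply mul_right_cancel₀ (pow_ne_zero (L.count r) hr0)
    rw [← pow_add]
    change (L.filter (fun y => y ≠ r)).prod * _ = r ^ ((L.filter (fun y => y ≠ r)).length + _)
    rw [← hs1, ← hs2, hprod, hlen, pow_mul, sq, hr]
  have h1 : ∀ z, z ≠ r → L.count z = L'.count z := by
    intro z hz
    exact (List.count_filter (by simpa using hz)).symm
  have hxr : x ≠ r := fun h => hrE (h ▸ hx)
  have hx0 : x ≠ 0 := by
    obtain ⟨i', h'⟩ := hx
    exact (conj_ne K (fun _ => q) (fun _ => hq) π hgen hweil i' x h').1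
  have hqxr : (q : Ω) / x ≠ r := by
    intro h
    rw [div_eq_iff hx0, ← hr] at h
    exact hxr (mul_left_cancel₀ hr0 h).symm
  rw [h1 x hxr, h1 _ hqxr]
  refine list_of_norel_c p q hq π hgen hweil hnd L' (r ^ L'.length) ?_ ?_ hprod' x hx
  · rw [← pow_mul, mul_comm, pow_mul, sq, hr]
  · intro y hy
    have h2 := List.mem_filter.1 hy
    exact (hL y h2.1).resolve_right (by simpa using h2.2)

theorem pole_of_norel (b : ℕ) (hb : 0 < b) [Finite I]
    (a : I → ℕ) (ha : ∀ i, 0 < a i) (π : ∀ i, K i)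
    (hweil : ∀ i, ∀ φ : K i →+* ℂ, ‖φ (π i)‖ ^ 2 = (p : ℝ) ^ a i)
    (hnd : ∀ _ : Fintype I, NoRel p (fun i => (p : ℚ) ^ a i) π)
    {V : Type*} [AddCommGroup V] [Module ℂ V] [FiniteDimensional ℂ V] (F : V →ₗ[ℂ] V)
    (hF : Submodule.span ℂ {v : V | ∃ μ : ℂ, GeometricEigenvalue p b a π μ ∧ F v = μ • v} = ⊤)
    (n : ℕ) :
    meromorphicOrderAt (zeta ((p : ℝ) ^ b) F) (n : ℂ) =
      ((- (finrank ℂ (algebraicClasses ((p : ℂ) ^ b) F n) : ℤ) : ℤ) : WithTop ℤ) := by
  classical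
  cases nonempty_fintype I
  have hp : p.Prime := Fact.out
  have hp0 : (p : ℂ) ≠ 0 := by exact_mod_cast hp.ne_zero
  have hp1 : (1 : ℝ) < p := by exact_mod_cast hp.one_lt
  have hq : ∀ i, (0 : ℚ) < (p : ℚ) ^ a i := fun i => pow_pos (by exact_mod_cast hp.pos) _
  have hweil' : ∀ i, ∀ φ : K i →+* ℂ, ‖φ (π i)‖ ^ 2 = (((p : ℚ) ^ a i : ℚ) : ℝ) := by
    intro i φ
    rw [hweil i φ]
    push_cast
    rfl
  have hcast2 : (((p : ℝ) ^ b : ℝ) : ℂ) = (p : ℂ) ^ b := by
    push_cast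
    rfl
  rw [← hcast2]
  refine zeta_order_geom ((p : ℝ) ^ b) (one_lt_pow₀ hp1 hb.ne') F
    {μ : ℂ | GeometricEigenvalue p b a π μ} ?_ ?_ n ?_
  · rintro μ ⟨N, hN, h | ⟨i, σ, M, hM, h⟩⟩
    · have h1 : (‖μ‖ ^ 2) ^ N = ((p : ℝ) ^ b) ^ N := by
        have h2 := congrArg norm h
        rw [norm_pow, norm_pow, norm_pow, Complex.norm_natCast] at h2
        rw [← pow_mul, h2]
      exact (pow_left_inj₀ (by positivity) (by positivity) hN.ne').1 h1
    · have h1 : (‖μ‖ ^ 2) ^ N = ((p : ℝ) ^ b) ^ N := by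
        have h2 := congrArg norm h
        rw [norm_pow, norm_pow] at h2
        calc (‖μ‖ ^ 2) ^ N = (‖μ‖ ^ N) ^ 2 := by rw [← pow_mul, ← pow_mul, mul_comm]
          _ = (‖σ (π i)‖ ^ 2) ^ M := by rw [h2, ← pow_mul, ← pow_mul, mul_comm]
          _ = ((p : ℝ) ^ b) ^ N := by rw [hweil, ← pow_mul, ← pow_mul, hM]
      exact (pow_left_inj₀ (by positivity) (by positivity) hN.ne').1 h1
  · exact hF
  intro x hx hFx
  rw [hcast2] at hFx ⊢
  -- a basis of eigenvectors
  obtain ⟨d, B, μ, hμE, hμ⟩ := exists_eigenbasis F {μ : ℂ | GeometricEigenvalue p b a π μ} hF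
  choose N hN hNμ using hμE
  let H : ℕ := (∏ k, N k) * ∏ i, a i
  have hH : 0 < H := Nat.mul_pos (Finset.prod_pos fun k _ => hN k) (Finset.prod_pos fun i _ => ha i)
  let M : I → ℕ := fun i => b * (2 * H) / a i
  have haH : ∀ i, a i ∣ H := fun i => (Finset.dvd_prod_of_mem a (Finset.mem_univ i)).mul_left _
  have hMa : ∀ i, a i * M i = b * (2 * H) := by
    intro i
    exact Nat.mul_div_cancel' (((haH i).mul_left 2).mul_left b)
  have hM0 : ∀ i, 0 < M i := by
    intro i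
    apply Nat.pos_of_ne_zero
    intro h
    have h1 := hMa i
    rw [h, mul_zero] at h1
    have h2 : 0 < b * (2 * H) := by positivity
    omega
  -- the Weil numbers over the extension
  let Q : ℚ := (p : ℚ) ^ (b * (2 * H))
  have hQ : 0 < Q := pow_pos (by exact_mod_cast hp.pos) _
  let π' : ∀ i, K i := fun i => π i ^ M i
  have hfun : (fun i => ((p : ℚ) ^ a i) ^ M i) = fun _ : I => Q := by
    funext i
    rw [← pow_mul, hMa]
  have hnd' : ∀ _ : Fintype I, NoRel p (fun _ => Q) π' := by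
    intro _
    rw [← hfun]
    exact norel_pow p _ π (hnd _) M hM0
  have hgen' : ∀ i, IntermediateField.adjoin ℚ {π' i} = ⊤ := fun i =>
    gen_of_norel p _ hq π hweil' hnd i (M i) (hM0 i)
  have hweil'' : ∀ i, ∀ φ : K i →+* ℂ, ‖φ (π' i)‖ ^ 2 = (Q : ℝ) := by
    intro i φ
    simp only [π', Q]
    rw [map_pow, norm_pow, ← pow_mul, mul_comm, pow_mul, hweil, ← pow_mul, hMa]
    push_cast
    rfl
  let r : ℂ := (p : ℂ) ^ (b * H)
  have hQc : (Q : ℂ) = ((p : ℂ) ^ b) ^ (2 * H) := by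
    simp only [Q]
    push_cast
    rw [pow_mul]
  have hr : r * r = (Q : ℂ) := by
    rw [hQc]
    simp only [r]
    rw [← pow_mul, ← pow_add]
    congr 1
    ring
  have hr0 : r ≠ 0 := pow_ne_zero _ hp0
  have hE : ∀ x ∈ {μ : ℂ | ∃ i, ∃ σ : K i →+* ℂ, σ (π' i) = μ}, x ≠ 0 ∧ (Q : ℂ) / x ≠ x := by
    rintro y ⟨i, h⟩
    exact conj_ne K (fun _ => Q) (fun _ => hQ) π' hgen' hweil'' i y h
  have hrE : r ∉ {μ : ℂ | ∃ i, ∃ σ : K i →+* ℂ, σ (π' i) = μ} := by
    intro h
    apply (hE r h).2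
    rw [← hr, mul_div_assoc, div_self hr0, mul_one]
  have hspan' : Submodule.span ℂ {v : V | ∃ μ, (μ ∈ {μ : ℂ | ∃ i, ∃ σ : K i →+* ℂ,
      σ (π' i) = μ} ∨ μ = r) ∧ (F ^ (2 * H)) v = μ • v} = ⊤ := by
    rw [eq_top_iff, ← B.span_eq]
    refine Submodule.span_mono ?_
    rintro _ ⟨k, rfl⟩
    have hpow : ∀ (s : ℕ), (F ^ s) (B k) = μ k ^ s • B k := by
      intro s
      induction s with
      | zero => simp
      | succ s ih => rw [pow_succ', Module.End.mul_apply, ih, map_smul, hμ, smul_smul, pow_succ]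
    refine ⟨μ k ^ (2 * H), ?_, hpow _⟩
    have hNH : N k ∣ H := (Finset.dvd_prod_of_mem N (Finset.mem_univ k)).mul_right _
    obtain ⟨T, hT⟩ := hNH
    rcases hNμ k with h | ⟨i, σ, M', hM', h⟩
    · right
      rw [hT, ← mul_assoc, pow_mul, h, ← pow_mul, ← pow_mul]
      simp only [r]
      rw [hT]
    · left
      refine ⟨i, σ, ?_⟩
      have h1 : M i = M' * (2 * T) := by
        apply Nat.eq_of_mul_eq_mul_left (ha i)
        calc a i * M i = b * (2 * (N k * T)) := by rw [hMa, ← hT]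
          _ = (b * N k) * (2 * T) := by ring
          _ = a i * (M' * (2 * T)) := by rw [hM']; ring
      simp only [π']
      rw [map_pow, h1, pow_mul, ← h, ← pow_mul]
      congr 1
      rw [hT]
      ring
  have hxF : ExteriorAlgebra.map (F ^ (2 * H)) x = ((Q : ℂ) ^ n) • x := by
    rw [map_pow_apply F (2 * H) x _ hFx, hQc, pow_right_comm]
  have key := mem_adjoin_of_balanced_ss (F ^ (2 * H)) (Q : ℂ) r hr hr0
    {μ : ℂ | ∃ i, ∃ σ : K i →+* ℂ, σ (π' i) = μ} hE hrE hspan' n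
    (fun L hlen hL hprod y hy => list_of_norel_ss p Q hQ π' hgen' hweil'' hnd' r hr hr0 hrE n L
      hlen hL hprod y hy) x hx hxF
  refine Algebra.adjoin_mono ?_ key
  rintro y ⟨hy1, hy2⟩
  refine ⟨hy1, 2 * H, by positivity, ?_⟩
  rw [hy2, hQc]

end Pool.Agent.Helper793_Prime
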