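import Mathlib
import Pool.Agent.Helper793_Prime.Defs

/-!
# The zeta function in terms of the Frobenius eigenvalues: definitions
-/

set_option autoImplicit false

namespace Pool.Agent.Helper793_Prime

/-- The function `∏ x, (1 - α x * q ^ (-s)) ^ ((-1) ^ (deg x + 1))`: the zeta function of a smooth
projective variety over the field with `q` elements, if the `α x`, `x` in `ι`, are the eigenvalues
(with multiplicities) of the Frobenius on the cohomology groups of degree `deg x`. -/
noncomputable def zetaOf (q : ℝ) {ι : Type*} [Fintype ι] (deg : ι → ℕ) (α : ι → ℂ) (s : ℂ) : ℂ :=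
  ∏ x, (1 - α x * (q : ℂ) ^ (-s)) ^ ((-1 : ℤ) ^ (deg x + 1))

/-- Some power of the number `α` is a product of powers (with integral, also negative, exponents) of
`p` and of the conjugates of the numbers `π i`, `i` in `S`. -/
def InGroup (p : ℕ) {I : Type*} [Fintype I] {K : I → Type*} [∀ i, Field (K i)]
    [∀ i, NumberField (K i)] (π : ∀ i, K i) (S : Set I) (α : ℂ) : Prop :=
  ∃ (N : ℕ) (e : ℤ) (c : (Σ i, (K i →+* ℂ)) → ℤ), 0 < N ∧ (∀ x, x.1 ∉ S → c x = 0) ∧
    α ^ N = (p : ℂ) ^ e * ∏ x : Σ i, (K i →+* ℂ), (x.2 (π x.1)) ^ c x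

end Pool.Agent.Helper793_Prime
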