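import Mathlib
import Pool.Agent.Helper793_Prime.Main

/-!
# Multiplicative relations between conjugates of Weil numbers split along separated CM fields
-/

set_option autoImplicit false
set_option linter.unusedSectionVars false
set_option linter.unusedVariables false

namespace Pool.Agent.Helper793_Prime

open NumberField Module Pool.Agent.H204R3.CM Pool.Agent.H868R3.TwoOdd Pool.Agent.H194R3.CM
  Pool.Agent.H194R3.Tate Pool.Agent.H925R2 Pool.Agent.H485R3

variable {I : Type*} (p : ℕ) [Fact p.Prime] {K : I → Type*} [∀ i, Field (K i)]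
  [∀ i, NumberField (K i)] [∀ i, IsCMField (K i)]

theorem log_prod_zpow {ι : Type*} (s : Finset ι) (x : ι → ℝ) (hx : ∀ i, 0 < x i) (c : ι → ℤ) :
    Real.log (∏ i ∈ s, x i ^ c i) = ∑ i ∈ s, (c i : ℝ) * Real.log (x i) := by
  rw [Real.log_prod (fun i _ => (zpow_pos (hx i) _).ne')]
  exact Finset.sum_congr rfl fun i _ => Real.log_zpow _ _

/-- **Splitting of multiplicative relations** (in a Galois field `L`). -/
theorem relation_split [Fintype I] (m : I → ℕ) (π : ∀ i, K i) (hint : ∀ i, IsIntegral ℤ (π i))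
    (hweil : ∀ i, ∀ φ : K i →+* ℂ, ‖φ (π i)‖ ^ 2 = (((p : ℚ) ^ m i : ℚ) : ℝ))
    (side : I → Bool) (hsep : ∀ i j, side i ≠ side j → Separated (K i) (K j))
    {L : Type*} [Field L] [NumberField L] [IsGalois ℚ L] (j : L →+* ℂ)
    (h : ∀ i, ∀ ψ : K i →+* ℂ, ∃ φ : K i →+* L, j.comp φ = ψ)
    (c : (Σ i, (K i →+* L)) → ℤ) (ε : ℤ)
    (hrel : (p : L) ^ ε * ∏ x : Σ i, (K i →+* L), (x.2 (π x.1)) ^ c x = 1) (v : Bool) :
    ∃ s : ℕ, 0 < s ∧
      ((∏ x ∈ Finset.univ.filter (fun x : Σ i, (K i →+* L) => side x.1 = v),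
        (x.2 (π x.1)) ^ c x) ^ 2 *
        (p : L) ^ (-(∑ x ∈ Finset.univ.filter (fun x : Σ i, (K i →+* L) => side x.1 = v),
          c x * m x.1))) ^ s = 1 := by
  classical
  have hp : p.Prime := Fact.out
  have hp1 : (1 : ℝ) < p := by exact_mod_cast hp.one_lt
  have hlogp : Real.log p ≠ 0 := (Real.log_pos hp1).ne'
  have hpL : (p : L) ≠ 0 := by exact_mod_cast hp.ne_zero
  have hq : ∀ i, (0 : ℚ) < (p : ℚ) ^ m i := fun i => pow_pos (by exact_mod_cast hp.pos) _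
  have h0 : ∀ x : Σ i, (K i →+* L), x.2 (π x.1) ≠ 0 := fun x =>
    (map_ne_zero x.2).2 (weil_ne (hq x.1) (hweil x.1))
  let e : L →ₐ[ℚ] PadicAlgCl p := IsAlgClosed.lift
  let X := Σ i, (K i →+* L)
  let G := L ≃ₐ[ℚ] L
  -- complex absolute values
  have hcabs : ∀ (τ : L →+* ℂ) (x : X), Real.log ‖τ (x.2 (π x.1))‖ = (m x.1 : ℝ) / 2 * Real.log p := by
    intro τ x
    have h1 := hweil x.1 (τ.comp x.2)
    have h2 : 2 * Real.log ‖τ (x.2 (π x.1))‖ = m x.1 * Real.log p := by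
      have h3 := congrArg Real.log h1
      rw [Real.log_pow] at h3
      push_cast at h3
      rw [Real.log_pow] at h3
      exact h3
    linarith
  have hpnorm : ∀ (τ : L →+* ℂ), Real.log ‖τ (p : L)‖ = Real.log p := by
    intro τ
    rw [map_natCast, Complex.norm_natCast]
  have hweight : 2 * (ε : ℝ) + ∑ x : X, (c x : ℝ) * m x.1 = 0 := by
    have h1 := congrArg (fun z : L => Real.log ‖j z‖) hrel
    simp only [map_mul, map_zpow₀, map_prod, norm_mul, norm_zpow, norm_prod, map_one, norm_one,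
      Real.log_one] at h1
    rw [Real.log_mul (zpow_ne_zero _ (norm_ne_zero_iff.2 ((map_ne_zero j).2 hpL)))
      (Finset.prod_ne_zero_iff.2 fun x _ => zpow_ne_zero _
        (norm_ne_zero_iff.2 ((map_ne_zero j).2 (h0 x)))), Real.log_zpow, hpnorm,
      log_prod_zpow _ _ (fun x => norm_pos_iff.2 ((map_ne_zero j).2 (h0 x)))] at h1
    have h2 : ∑ x : X, (c x : ℝ) * Real.log ‖j (x.2 (π x.1))‖ =
        (∑ x : X, (c x : ℝ) * m x.1) * (Real.log p / 2) := by
      rw [Finset.sum_mul]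
      exact Finset.sum_congr rfl fun x _ => by rw [hcabs]; ring
    rw [h2] at h1
    have h3 : (2 * (ε : ℝ) + ∑ x : X, (c x : ℝ) * m x.1) * (Real.log p / 2) = 0 := by linarith
    exact (mul_eq_zero.1 h3).resolve_right (by positivity)
  -- the slopes
  have hpe : ∀ g : G, Real.log ‖e (g (p : L))‖ = - Real.log p := by
    intro g
    rw [map_natCast, map_natCast]
    have h1 := Pool.Agent.H925R2.norm_pow_cast p 1
    simp only [pow_one] at h1
    have h2 : ((p : ℚ) : PadicAlgCl p) = (p : PadicAlgCl p) := by push_cast; rfl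
    rw [h2] at h1
    rw [h1, Real.log_inv]
  have hslope : ∀ (g : G) (x : X), Pool.Agent.H194R3.Tate.slope p (fun i => (p : ℚ) ^ m i) π e (g • x) =
      2 * Real.log ‖e (g (x.2 (π x.1)))‖ + m x.1 * Real.log p := by
    intro g x
    simp only [Pool.Agent.H194R3.Tate.slope, dev]
    rw [Pool.Agent.H925R2.norm_pow_cast, Real.log_inv, Real.log_pow]
    change 2 * Real.log ‖e (g (x.2 (π x.1)))‖ - -(m x.1 * Real.log p) = _
    ring
  have hpos : ∀ (g : G) (x : X), 0 < ‖e (g (x.2 (π x.1)))‖ := fun g x =>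
    norm_pos_iff.2 ((map_ne_zero _).2 ((map_ne_zero _).2 (h0 x)))
  have hrelg : ∀ g : G, ∑ x : X, (c x : ℝ) *
      Pool.Agent.H194R3.Tate.slope p (fun i => (p : ℚ) ^ m i) π e (g • x) = 0 := by
    intro g
    have h1 := congrArg (fun z : L => Real.log ‖e (g z)‖) hrel
    simp only [map_mul, map_zpow₀, map_prod, norm_mul, norm_zpow, norm_prod, map_one, norm_one,
      Real.log_one] at h1
    rw [Real.log_mul (zpow_ne_zero _ (norm_ne_zero_iff.2 ((map_ne_zero _).2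
      ((map_ne_zero _).2 hpL))))
      (Finset.prod_ne_zero_iff.2 fun x _ => zpow_ne_zero _ (hpos g x).ne'), Real.log_zpow, hpe,
      log_prod_zpow _ _ (hpos g)] at h1
    have h2 : ∀ x : X, (c x : ℝ) *
        Pool.Agent.H194R3.Tate.slope p (fun i => (p : ℚ) ^ m i) π e (g • x) =
        2 * ((c x : ℝ) * Real.log ‖e (g (x.2 (π x.1)))‖) + ((c x : ℝ) * m x.1) * Real.log p := by
      intro x
      rw [hslope]
      ring
    rw [Finset.sum_congr rfl (fun x _ => h2 x), Finset.sum_add_distrib, ← Finset.mul_sum,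
      ← Finset.sum_mul]
    linear_combination 2 * h1 + Real.log p * hweight
  have hG : ∀ (g : G) (x : X), g • inj x = inj (g • x) := by
    rintro g ⟨a, φ⟩
    rfl
  obtain ⟨hblock, -⟩ := core_block_real (X := X) (G := G) inj hG (fun x => side x.1)
    (Pool.Agent.H194R3.Tate.slope p _ π e) (slope_inj p hq hweil e)
    (fun x y hxy => by
      obtain ⟨g, ⟨hg1, hg2⟩ | ⟨hg1, hg2⟩⟩ := flip_of_separated j (h x.1) (h y.1)
        (hsep x.1 y.1 (fun h' => hxy h'.symm)) x.2 y.2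
      · exact ⟨g, Or.inl ⟨congrArg (Sigma.mk x.1) hg1, congrArg (Sigma.mk y.1) hg2⟩⟩
      · exact ⟨g, Or.inr ⟨congrArg (Sigma.mk x.1) hg1, congrArg (Sigma.mk y.1) hg2⟩⟩) c hrelg
  let B : Finset X := Finset.univ.filter (fun x : X => side x.1 = v)
  have hB : ∀ g : G, ∑ x ∈ B, (c x : ℝ) *
      Pool.Agent.H194R3.Tate.slope p (fun i => (p : ℚ) ^ m i) π e (g • x) = 0 := hblock v
  obtain ⟨M, hM⟩ : ∃ M : ℤ, M = ∑ x ∈ B, c x * m x.1 := ⟨_, rfl⟩
  obtain ⟨z, hz⟩ : ∃ z : L, z = (∏ x ∈ B, (x.2 (π x.1)) ^ c x) ^ 2 * (p : L) ^ (-M) := ⟨_, rfl⟩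
  have hMr : (M : ℝ) = ∑ x ∈ B, (c x : ℝ) * m x.1 := by
    rw [hM]
    push_cast
    rfl
  change ∃ s : ℕ, 0 < s ∧ ((∏ x ∈ B, (x.2 (π x.1)) ^ c x) ^ 2 *
    (p : L) ^ (-(∑ x ∈ B, c x * m x.1))) ^ s = 1
  rw [← hM, ← hz]
  have hI : ∀ x : X, IsIntegral ℤ (x.2 (π x.1)) := fun x => map_isIntegral_int x.2 (hint x.1)
  have hunit : ∀ (l : ℕ) [Fact l.Prime], l ≠ p → ∀ (e' : L →ₐ[ℚ] PadicAlgCl l) (x : X),
      ‖e' (x.2 (π x.1))‖ = 1 := by
    intro l _ hlp e' x
    have h1 : ‖e' (x.2 (π x.1))‖ ≤ 1 := norm_le_one_of_isIntegral l _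
      (map_isIntegral_int (e' : L →+* PadicAlgCl l) (hI x))
    have h2 : ‖e' (cbar x.2 (π x.1))‖ ≤ 1 := norm_le_one_of_isIntegral l _
      (map_isIntegral_int (e' : L →+* PadicAlgCl l) (hI ⟨x.1, cbar x.2⟩))
    have h3 : e' (x.2 (π x.1)) * e' (cbar x.2 (π x.1)) = (p : PadicAlgCl l) ^ m x.1 := by
      rw [← map_mul, weil_cbar (hq x.1) (hweil x.1), mul_div_cancel₀ _ (h0 x)]
      rw [map_ratCast]
      push_cast
      rfl
    have h4 : ‖e' (x.2 (π x.1))‖ * ‖e' (cbar x.2 (π x.1))‖ = 1 := by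
      rw [← norm_mul, h3, norm_prime_pow_ne l p hp hlp]
    nlinarith [norm_nonneg (e' (x.2 (π x.1))), norm_nonneg (e' (cbar x.2 (π x.1)))]
  have hzint : IsIntegral ℤ z := by
    apply isIntegral_of_norm_le
    intro l hl e'
    refine le_of_eq ?_
    have e1 : ‖e' z‖ = (∏ x ∈ B, ‖e' (x.2 (π x.1))‖ ^ c x) ^ 2 * ‖e' (p : L)‖ ^ (-M) := by
      rw [hz, map_mul, map_pow, map_prod, map_zpow₀, norm_mul, norm_pow, norm_prod, norm_zpow]
      congr 2
      exact Finset.prod_congr rfl fun x _ => by rw [map_zpow₀, norm_zpow]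
    rw [e1]
    by_cases hlp : l = p
    · subst hlp
      obtain ⟨g, hg⟩ := exists_gal e e'
      simp only [hg]
      have e2 : 0 < ∏ x ∈ B, ‖e (g (x.2 (π x.1)))‖ ^ c x :=
        Finset.prod_pos fun x _ => zpow_pos (hpos g x) _
      have e3 : 0 < ‖e (g (l : L))‖ ^ (-M) := zpow_pos (norm_pos_iff.2 ((map_ne_zero _).2
        ((map_ne_zero _).2 hpL))) _
      refine Real.eq_one_of_pos_of_log_eq_zero (mul_pos (pow_pos e2 2) e3) ?_
      rw [Real.log_mul (pow_pos e2 2).ne' e3.ne', Real.log_pow, Real.log_zpow, hpe,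
        log_prod_zpow _ _ (hpos g)]
      have h1 := hB g
      have h2 : ∀ x ∈ B, (c x : ℝ) *
          Pool.Agent.H194R3.Tate.slope l (fun i => (l : ℚ) ^ m i) π e (g • x) =
          2 * ((c x : ℝ) * Real.log ‖e (g (x.2 (π x.1)))‖) +
            ((c x : ℝ) * m x.1) * Real.log l := by
        intro x _
        rw [hslope]
        ring
      rw [Finset.sum_congr rfl h2, Finset.sum_add_distrib, ← Finset.mul_sum,
        ← Finset.sum_mul, ← hMr] at h1
      push_cast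
      linear_combination h1
    · have e2 : ‖e' (p : L)‖ = 1 := by
        rw [map_natCast]
        have := norm_prime_pow_ne l p hp hlp 1
        rwa [pow_one] at this
      rw [e2, one_zpow, mul_one, Finset.prod_eq_one, one_pow]
      intro x _
      rw [hunit l hlp e' x, one_zpow]
  obtain ⟨s, hs, hs1⟩ := pow_eq_one_of_norm z hzint (fun τ => by
    have hτpos : ∀ x : X, 0 < ‖τ (x.2 (π x.1))‖ := fun x =>
      norm_pos_iff.2 ((map_ne_zero _).2 (h0 x))
    have e1 : ‖τ z‖ = (∏ x ∈ B, ‖τ (x.2 (π x.1))‖ ^ c x) ^ 2 * ‖τ (p : L)‖ ^ (-M) := by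
      rw [hz, map_mul, map_pow, map_prod, map_zpow₀, norm_mul, norm_pow, norm_prod, norm_zpow]
      congr 2
      exact Finset.prod_congr rfl fun x _ => by rw [map_zpow₀, norm_zpow]
    have e2 : 0 < ∏ x ∈ B, ‖τ (x.2 (π x.1))‖ ^ c x :=
      Finset.prod_pos fun x _ => zpow_pos (hτpos x) _
    have e3 : 0 < ‖τ (p : L)‖ ^ (-M) := zpow_pos (norm_pos_iff.2 ((map_ne_zero _).2 hpL)) _
    rw [e1]
    refine Real.eq_one_of_pos_of_log_eq_zero (mul_pos (pow_pos e2 2) e3) ?_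
    have e4 : Real.log ‖τ (p : L)‖ = Real.log p := hpnorm (τ : L →+* ℂ)
    rw [Real.log_mul (pow_pos e2 2).ne' e3.ne', Real.log_pow, Real.log_zpow, e4,
      log_prod_zpow _ _ hτpos]
    have h2 : ∑ x ∈ B, (c x : ℝ) * Real.log ‖τ (x.2 (π x.1))‖ = M * (Real.log p / 2) := by
      rw [hMr, Finset.sum_mul]
      refine Finset.sum_congr rfl fun x _ => ?_
      have h3 : Real.log ‖τ (x.2 (π x.1))‖ = (m x.1 : ℝ) / 2 * Real.log p :=
        hcabs (τ : L →+* ℂ) x
      rw [h3]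
      ring
    rw [h2]
    push_cast
    ring)
  exact ⟨s, hs, hs1⟩

end Pool.Agent.Helper793_Prime
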