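import Mathlib
import Pool.Agent.Helper793_Prime.KDefs
import Pool.Agent.Helper793_Prime.RelSplit

/-!
# The Künneth formula for the orders of the poles
-/

set_option autoImplicit false
set_option linter.unusedSectionVars false
set_option linter.unusedVariables false

namespace Pool.Agent.Helper793_Prime

open NumberField Module Pool.Agent.H204R3.CM Pool.Agent.H868R3.TwoOdd Pool.Agent.H194R3.CM
  Pool.Agent.H194R3.Tate Pool.Agent.H925R2 Pool.Agent.H485R3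

theorem Separated.symm {F F' : Type*} [Field F] [NumberField F] [Field F'] [NumberField F']
    (h : Separated F F') : Separated F' F := by
  rcases h with h | ⟨h1, h2⟩
  · left
    intro φ ψ
    obtain ⟨τ, h' | h'⟩ := h ψ φ
    · exact ⟨τ, Or.inr ⟨h'.2, h'.1⟩⟩
    · exact ⟨τ, Or.inl ⟨h'.2, h'.1⟩⟩
  · right
    refine ⟨fun h => h1 h.symm, ?_⟩
    rcases h2 with h2 | h2 | h2 | h2 | h2
    · left
      refine ⟨h2.1.symm, ?_⟩
      rcases h2.2 with h3 | h3 | h3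
      · exact Or.inl ⟨h3.2, h3.1⟩
      · exact Or.inr (Or.inr h3)
      · exact Or.inr (Or.inl h3)
    · exact Or.inr (Or.inr (Or.inl h2))
    · exact Or.inr (Or.inl h2)
    · exact Or.inr (Or.inr (Or.inr (Or.inr h2)))
    · exact Or.inr (Or.inr (Or.inr (Or.inl h2)))

section relations

variable {I : Type*} (p : ℕ) [Fact p.Prime] {K : I → Type*} [∀ i, Field (K i)]
  [∀ i, NumberField (K i)] [∀ i, IsCMField (K i)]

/-- Splitting of multiplicative relations in the complex numbers. -/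
theorem relation_split_complex [Fintype I] (m : I → ℕ) (π : ∀ i, K i)
    (hint : ∀ i, IsIntegral ℤ (π i))
    (hweil : ∀ i, ∀ φ : K i →+* ℂ, ‖φ (π i)‖ ^ 2 = (((p : ℚ) ^ m i : ℚ) : ℝ))
    (side : I → Bool) (hsep : ∀ i j, side i ≠ side j → Separated (K i) (K j))
    (c : (Σ i, (K i →+* ℂ)) → ℤ) (ε : ℤ)
    (hrel : (p : ℂ) ^ ε * ∏ x : Σ i, (K i →+* ℂ), (x.2 (π x.1)) ^ c x = 1) (v : Bool) :
    ∃ s : ℕ, 0 < s ∧
      ((∏ x ∈ Finset.univ.filter (fun x : Σ i, (K i →+* ℂ) => side x.1 = v),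
        (x.2 (π x.1)) ^ c x) ^ 2 *
        (p : ℂ) ^ (-(∑ x ∈ Finset.univ.filter (fun x : Σ i, (K i →+* ℂ) => side x.1 = v),
          c x * m x.1))) ^ s = 1 := by
  classical
  obtain ⟨L, hL1, hL2, j, h⟩ := exists_galois K
  let E : (Σ i, (K i →+* L)) ≃ (Σ i, (K i →+* ℂ)) :=
    Equiv.sigmaCongrRight fun i => embEquiv j (h i)
  have hE1 : ∀ x, (E x).1 = x.1 := fun x => rfl
  have hE2 : ∀ x : Σ i, (K i →+* L), (E x).2 (π (E x).1) = j (x.2 (π x.1)) := fun x => rfl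
  have hprod : ∏ x : Σ i, (K i →+* ℂ), (x.2 (π x.1)) ^ c x =
      j (∏ x : Σ i, (K i →+* L), (x.2 (π x.1)) ^ c (E x)) := by
    rw [map_prod]
    refine (Fintype.prod_equiv E _ _ fun x => ?_).symm
    rw [map_zpow₀, hE2]
  have hprodB : ∏ x ∈ Finset.univ.filter (fun x : Σ i, (K i →+* ℂ) => side x.1 = v),
      (x.2 (π x.1)) ^ c x =
      j (∏ x ∈ Finset.univ.filter (fun x : Σ i, (K i →+* L) => side x.1 = v),
        (x.2 (π x.1)) ^ c (E x)) := by
    rw [map_prod]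
    symm
    refine Finset.prod_equiv E (fun x => ?_) fun x _ => ?_
    · simp only [Finset.mem_filter, Finset.mem_univ, true_and, hE1]
    · rw [map_zpow₀, hE2]
  have hsumB : ∑ x ∈ Finset.univ.filter (fun x : Σ i, (K i →+* ℂ) => side x.1 = v),
      c x * m x.1 = ∑ x ∈ Finset.univ.filter (fun x : Σ i, (K i →+* L) => side x.1 = v),
        c (E x) * m x.1 := by
    symm
    refine Finset.sum_equiv E (fun x => ?_) fun x _ => ?_
    · simp only [Finset.mem_filter, Finset.mem_univ, true_and, hE1]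
    · rw [hE1]
  have hpj : (p : ℂ) = j (p : L) := (map_natCast j p).symm
  have hrel' : (p : L) ^ ε * ∏ x : Σ i, (K i →+* L), (x.2 (π x.1)) ^ c (E x) = 1 := by
    apply j.injective
    rw [map_mul, map_zpow₀, ← hprod, ← hpj, hrel, map_one]
  obtain ⟨s, hs, h1⟩ := relation_split p m π hint hweil side hsep j h (fun x => c (E x)) ε hrel' v
  refine ⟨s, hs, ?_⟩
  rw [hprodB, hsumB, hpj, ← map_zpow₀, ← map_pow, ← map_mul, ← map_pow, h1, map_one]

/-- If `α β` has a power which is a power of `p`, where `α` and `β` belong to the multiplicative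
groups of separated fields, some power of `α` is a power of `p`. -/
theorem left_of_relation [Fintype I] (m : I → ℕ) (π : ∀ i, K i)
    (hint : ∀ i, IsIntegral ℤ (π i))
    (hweil : ∀ i, ∀ φ : K i →+* ℂ, ‖φ (π i)‖ ^ 2 = (((p : ℚ) ^ m i : ℚ) : ℝ))
    (S : Set I) (hsep : ∀ i ∈ S, ∀ j ∉ S, Separated (K i) (K j)) (α β : ℂ)
    (hα : InGroup p π S α) (hβ : InGroup p π Sᶜ β) (A : ℕ) (hA : 0 < A) (B : ℤ)
    (hrel : (α * β) ^ A = (p : ℂ) ^ B) :
    ∃ (A' : ℕ) (B' : ℤ), 0 < A' ∧ α ^ A' = (p : ℂ) ^ B' := by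
  classical
  have hp : p.Prime := Fact.out
  have hp0 : (p : ℂ) ≠ 0 := by exact_mod_cast hp.ne_zero
  obtain ⟨N, e, c, hN, hc, hα⟩ := hα
  obtain ⟨N', e', c', hN', hc', hβ⟩ := hβ
  have hq : ∀ i, (0 : ℚ) < (p : ℚ) ^ m i := fun i => pow_pos (by exact_mod_cast hp.pos) _
  have h0 : ∀ x : Σ i, (K i →+* ℂ), x.2 (π x.1) ≠ 0 := fun x =>
    (map_ne_zero x.2).2 (weil_ne (hq x.1) (hweil x.1))
  let side : I → Bool := fun i => decide (i ∈ S)
  have hside : ∀ i j, side i ≠ side j → Separated (K i) (K j) := by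
    intro i j hij
    by_cases h1 : i ∈ S <;> by_cases h2 : j ∈ S
    · exact absurd (by simp [side, h1, h2]) hij
    · exact hsep i h1 j h2
    · exact (hsep j h2 i h1).symm
    · exact absurd (by simp [side, h1, h2]) hij
  let P : ((Σ i, (K i →+* ℂ)) → ℤ) → ℂ := fun c => ∏ x : Σ i, (K i →+* ℂ), (x.2 (π x.1)) ^ c x
  have hPpow : ∀ (c : (Σ i, (K i →+* ℂ)) → ℤ) (n : ℕ), P c ^ n = P (fun x => c x * n) := by
    intro c n
    simp only [P]
    rw [← Finset.prod_pow]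
    exact Finset.prod_congr rfl fun x _ => by rw [zpow_mul, zpow_natCast]
  have hPmul : ∀ c c' : (Σ i, (K i →+* ℂ)) → ℤ, P c * P c' = P (fun x => c x + c' x) := by
    intro c c'
    simp only [P]
    rw [← Finset.prod_mul_distrib]
    exact Finset.prod_congr rfl fun x _ => by rw [zpow_add₀ (h0 x)]
  have hα' : α ^ N = (p : ℂ) ^ e * P c := hα
  have hβ' : β ^ N' = (p : ℂ) ^ e' * P c' := hβ
  have key : (p : ℂ) ^ (e * (N' * A : ℕ) + e' * (N * A : ℕ) - B * (N * N' : ℕ)) *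
      P (fun x => c x * (N' * A : ℕ) + c' x * (N * A : ℕ)) = 1 := by
    have h1 : (α * β) ^ (A * (N * N')) = (p : ℂ) ^ (B * (N * N' : ℕ)) := by
      rw [pow_mul, hrel, zpow_mul, zpow_natCast]
    have h2 : (α * β) ^ (A * (N * N')) = (α ^ N) ^ (N' * A) * (β ^ N') ^ (N * A) := by
      rw [mul_pow, ← pow_mul, ← pow_mul]
      congr 2 <;> ring
    rw [h2, hα', hβ', mul_pow, mul_pow, hPpow, hPpow, ← zpow_natCast, ← zpow_mul,
      ← zpow_natCast ((p : ℂ) ^ e'), ← zpow_mul] at h1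
    rw [zpow_sub₀ hp0, zpow_add₀ hp0, ← hPmul, ← h1]
    have e1 : (p : ℂ) ^ (e * (N' * A : ℕ)) ≠ 0 := zpow_ne_zero _ hp0
    have e2 : (p : ℂ) ^ (e' * (N * A : ℕ)) ≠ 0 := zpow_ne_zero _ hp0
    have e3 : P (fun x => c x * (N' * A : ℕ)) ≠ 0 :=
      Finset.prod_ne_zero_iff.2 fun x _ => zpow_ne_zero _ (h0 x)
    have e4 : P (fun x => c' x * (N * A : ℕ)) ≠ 0 :=
      Finset.prod_ne_zero_iff.2 fun x _ => zpow_ne_zero _ (h0 x)
    field_simp
  obtain ⟨s, hs, h3⟩ := relation_split_complex p m π hint hweil side hside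
    (fun x => c x * (N' * A : ℕ) + c' x * (N * A : ℕ)) _ key true
  obtain ⟨M, hM⟩ : ∃ M : ℤ, M = ∑ x ∈ Finset.univ.filter
      (fun x : Σ i, (K i →+* ℂ) => side x.1 = true),
      (c x * (N' * A : ℕ) + c' x * (N * A : ℕ)) * m x.1 := ⟨_, rfl⟩
  rw [← hM] at h3
  have h4 : ∏ x ∈ Finset.univ.filter (fun x : Σ i, (K i →+* ℂ) => side x.1 = true),
      (x.2 (π x.1)) ^ (c x * (N' * A : ℕ) + c' x * (N * A : ℕ)) = P c ^ (N' * A) := by
    rw [hPpow]
    simp only [P]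
    rw [Finset.prod_filter]
    refine Finset.prod_congr rfl fun x _ => ?_
    by_cases hx : x.1 ∈ S
    · have h5 : c' x = 0 := hc' x (fun h => h hx)
      rw [if_pos (by simp [side, hx]), h5, zero_mul, add_zero]
    · have h5 : c x = 0 := hc x hx
      rw [if_neg (by simp [side, hx]), h5, zero_mul, zpow_zero]
  rw [h4] at h3
  have h5 : P c ^ (N' * A * 2 * s) = (p : ℂ) ^ (M * s) := by
    rw [mul_pow, ← pow_mul, ← pow_mul, ← zpow_natCast ((p : ℂ) ^ (-M)), ← zpow_mul, neg_mul,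
      zpow_neg, mul_inv_eq_one₀ (zpow_ne_zero _ hp0)] at h3
    rw [mul_assoc _ 2 s]
    exact h3
  refine ⟨N * (N' * A * 2 * s), e * (N' * A * 2 * s : ℕ) + M * s, by positivity, ?_⟩
  rw [pow_mul, hα', mul_pow, h5, ← zpow_natCast, ← zpow_mul, zpow_add₀ hp0]

/-- A power of `α` which is a power of `p` is determined by the weight. -/
theorem torsion_weight (b w : ℕ) (α : ℂ) (hw : ‖α‖ ^ 2 = ((p : ℝ) ^ b) ^ w) (A : ℕ) (B : ℤ)
    (h : α ^ A = (p : ℂ) ^ B) : α ^ (2 * A) = (((p : ℂ) ^ b) ^ w) ^ A := by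
  have hp : p.Prime := Fact.out
  have hp1 : (1 : ℝ) < p := by exact_mod_cast hp.one_lt
  have h1 : (‖α‖ ^ 2) ^ A = (p : ℝ) ^ (2 * B) := by
    rw [← pow_mul, mul_comm, pow_mul, ← norm_pow, h, norm_zpow, Complex.norm_natCast,
      ← zpow_natCast, ← zpow_mul, mul_comm]
    rfl
  rw [hw, ← pow_mul, ← pow_mul, ← zpow_natCast] at h1
  have h2 : ((b * w * A : ℕ) : ℤ) = 2 * B := by
    apply zpow_right_injective₀ (by linarith : (0 : ℝ) < p) hp1.ne'
    simp only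
    rw [← h1]
    congr 1
    push_cast
    ring
  rw [mul_comm 2 A, pow_mul, h, ← pow_mul, ← pow_mul, ← zpow_natCast, ← zpow_mul]
  have h3 : B * ((2 : ℕ) : ℤ) = ((b * w * A : ℕ) : ℤ) := by
    rw [h2]
    push_cast
    ring
  rw [h3, zpow_natCast, mul_assoc]

end relations

section orders

theorem order_factor_gen (q : ℝ) (hq : 1 < q) (s₀ α : ℂ) :
    MeromorphicAt (fun s : ℂ => 1 - α * (q : ℂ) ^ (-s)) s₀ ∧
    meromorphicOrderAt (fun s : ℂ => 1 - α * (q : ℂ) ^ (-s)) s₀ =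
      (((if α = (q : ℂ) ^ s₀ then 1 else 0 : ℤ)) : WithTop ℤ) := by
  have hq0 : (q : ℂ) ≠ 0 := by exact_mod_cast (by linarith : q ≠ 0)
  have hd : ∀ s : ℂ, HasDerivAt (fun s : ℂ => 1 - α * (q : ℂ) ^ (-s))
      (- (α * ((q : ℂ) ^ (-s) * Complex.log q * (-1)))) s := by
    intro s
    have h1 : HasDerivAt (fun s : ℂ => (q : ℂ) ^ (-s)) ((q : ℂ) ^ (-s) * Complex.log q * (-1)) s :=
      HasDerivAt.const_cpow (hasDerivAt_neg s) (Or.inl hq0)
    exact (h1.const_mul α).const_sub 1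
  have han : AnalyticAt ℂ (fun s : ℂ => 1 - α * (q : ℂ) ^ (-s)) s₀ :=
    (Differentiable.analyticAt (fun s => (hd s).differentiableAt) _)
  refine ⟨han.meromorphicAt, ?_⟩
  have hc0 : (q : ℂ) ^ s₀ ≠ 0 := by
    rw [Complex.cpow_def_of_ne_zero hq0]
    exact Complex.exp_ne_zero _
  rw [han.meromorphicOrderAt_eq]
  by_cases h : α = (q : ℂ) ^ s₀
  · rw [if_pos h]
    have h1 : (fun s : ℂ => 1 - α * (q : ℂ) ^ (-s)) s₀ = 0 := by
      simp only
      rw [h, Complex.cpow_neg, mul_inv_cancel₀ hc0, sub_self]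
    have h2 : deriv (fun s : ℂ => 1 - α * (q : ℂ) ^ (-s)) s₀ ≠ 0 := by
      rw [(hd s₀).deriv, h, Complex.cpow_neg]
      have h3 : Complex.log q ≠ 0 := by
        rw [← Complex.ofReal_log (by linarith)]
        exact_mod_cast (Real.log_pos hq).ne'
      have h4 : -((q : ℂ) ^ s₀ * (((q : ℂ) ^ s₀)⁻¹ * Complex.log q * (-1))) = Complex.log q := by
        field_simp
      rw [h4]
      exact h3
    rw [han.analyticOrderAt_eq_one_of_zero_deriv_ne_zero h1 h2]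
    rfl
  · rw [if_neg h]
    have h1 : (fun s : ℂ => 1 - α * (q : ℂ) ^ (-s)) s₀ ≠ 0 := by
      simp only
      intro h2
      apply h
      rw [Complex.cpow_neg, sub_eq_zero] at h2
      field_simp at h2
      exact h2.symm
    rw [han.analyticOrderAt_eq_zero.2 h1]
    rfl

/-- The order of the zeta function at a point. -/
theorem order_zetaOf (q : ℝ) (hq : 1 < q) {ι : Type*} [Fintype ι] (deg : ι → ℕ) (α : ι → ℂ)
    (s₀ : ℂ) :
    meromorphicOrderAt (zetaOf q deg α) s₀ =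
      ((∑ x, (if α x = (q : ℂ) ^ s₀ then (-1 : ℤ) ^ (deg x + 1) else 0) : ℤ) : WithTop ℤ) := by
  classical
  have h1 : ∀ x, MeromorphicAt
      (fun s : ℂ => (1 - α x * (q : ℂ) ^ (-s)) ^ ((-1 : ℤ) ^ (deg x + 1))) s₀ ∧
      meromorphicOrderAt
      (fun s : ℂ => (1 - α x * (q : ℂ) ^ (-s)) ^ ((-1 : ℤ) ^ (deg x + 1))) s₀ =
      (((if α x = (q : ℂ) ^ s₀ then (-1 : ℤ) ^ (deg x + 1) else 0 : ℤ)) : WithTop ℤ) := by
    intro x
    obtain ⟨h1, h2⟩ := order_factor_gen q hq s₀ (α x)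
    refine ⟨h1.fun_zpow _, ?_⟩
    rw [fun_meromorphicOrderAt_zpow h1, h2]
    split_ifs
    · rw [← WithTop.coe_mul, mul_one]
    · rw [← WithTop.coe_mul, mul_zero]
  change meromorphicOrderAt (fun s : ℂ => ∏ x,
    (1 - α x * (q : ℂ) ^ (-s)) ^ ((-1 : ℤ) ^ (deg x + 1))) s₀ = _
  rw [meromorphicOrderAt_fun_prod (fun x _ => (h1 x).1),
    Finset.sum_congr rfl (fun x _ => (h1 x).2), ← WithTop.coe_sum]

/-- Half powers. -/
theorem half_pow (q : ℝ) (hq : 0 < q) (n k : ℕ) :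
    (((q ^ (2 * n) : ℝ)) : ℂ) ^ ((k : ℂ) / 2) = (q : ℂ) ^ (n * k) := by
  have h1 : ((k : ℂ) / 2) = (((k : ℝ) / 2 : ℝ) : ℂ) := by push_cast; rfl
  rw [h1, ← Complex.ofReal_cpow (by positivity)]
  have h2 : (q ^ (2 * n) : ℝ) ^ ((k : ℝ) / 2) = q ^ (n * k) := by
    rw [← Real.rpow_natCast q (2 * n), ← Real.rpow_mul hq.le, ← Real.rpow_natCast]
    congr 1
    push_cast
    ring
  rw [h2]
  push_cast
  rfl

end orders

end Pool.Agent.Helper793_Prime
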