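import Mathlib
import Pool.Agent.Helper793_Prime.Kunneth

/-!
# The Künneth formula for the orders of the poles: main theorem
-/

set_option autoImplicit false
set_option linter.unusedSectionVars false
set_option linter.unusedVariables false

namespace Pool.Agent.Helper793_Prime

open NumberField Module Pool.Agent.H204R3.CM Pool.Agent.H868R3.TwoOdd Pool.Agent.H194R3.CM
  Pool.Agent.H194R3.Tate Pool.Agent.H925R2 Pool.Agent.H485R3

theorem sum_reorder {ι κ : Type*} [Fintype ι] [Fintype κ] (deg : ι → ℕ) (deg' : κ → ℕ)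
    (s : Finset ℕ) (A : ι → ℕ → ℤ) (B : κ → ℕ → ℤ) :
    ∑ z : ι × κ, (-1 : ℤ) ^ (deg z.1 + deg' z.2 + 1) * ∑ j ∈ s, A z.1 j * B z.2 j =
      -∑ j ∈ s, (∑ x, (-1 : ℤ) ^ (deg x + 1) * A x j) * (∑ y, (-1 : ℤ) ^ (deg' y + 1) * B y j) := by
  have h1 : ∀ z : ι × κ, (-1 : ℤ) ^ (deg z.1 + deg' z.2 + 1) * ∑ j ∈ s, A z.1 j * B z.2 j =
      ∑ j ∈ s, -(((-1 : ℤ) ^ (deg z.1 + 1) * A z.1 j) *
        ((-1 : ℤ) ^ (deg' z.2 + 1) * B z.2 j)) := by
    intro z
    rw [Finset.mul_sum]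
    refine Finset.sum_congr rfl fun j _ => ?_
    rw [pow_succ, pow_succ, pow_succ, pow_add]
    ring
  rw [Finset.sum_congr rfl fun z _ => h1 z, Finset.sum_comm, ← Finset.sum_neg_distrib]
  refine Finset.sum_congr rfl fun j _ => ?_
  rw [Finset.sum_mul_sum, Fintype.sum_prod_type, ← Finset.sum_neg_distrib]
  exact Finset.sum_congr rfl fun x _ => by rw [Finset.sum_neg_distrib]

variable {I : Type*} (p : ℕ) [Fact p.Prime] {K : I → Type*} [∀ i, Field (K i)]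
  [∀ i, NumberField (K i)] [∀ i, IsCMField (K i)]

theorem kunneth_main [Fintype I] (b : ℕ) (hb : 0 < b) (m : I → ℕ) (π : ∀ i, K i)
    (hint : ∀ i, IsIntegral ℤ (π i))
    (hweil : ∀ i, ∀ φ : K i →+* ℂ, ‖φ (π i)‖ ^ 2 = (p : ℝ) ^ m i)
    (S : Set I) (hsep : ∀ i ∈ S, ∀ j ∉ S, Separated (K i) (K j))
    {ι κ : Type*} [Fintype ι] [Fintype κ]
    (deg : ι → ℕ) (α : ι → ℂ) (hα : ∀ x, ‖α x‖ ^ 2 = ((p : ℝ) ^ b) ^ deg x)
    (hαS : ∀ x, InGroup p π S (α x))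
    (deg' : κ → ℕ) (β : κ → ℂ) (hβ : ∀ y, ‖β y‖ ^ 2 = ((p : ℝ) ^ b) ^ deg' y)
    (hβS : ∀ y, InGroup p π Sᶜ (β y)) :
    ∃ N₀ : ℕ, 0 < N₀ ∧ ∀ N : ℕ, 0 < N → N₀ ∣ N → ∀ k : ℕ,
      meromorphicOrderAt (zetaOf (((p : ℝ) ^ b) ^ N) (fun z : ι × κ => deg z.1 + deg' z.2)
        (fun z => (α z.1 * β z.2) ^ N)) ((k : ℂ) / 2) =
      ((-∑ j ∈ Finset.range (k + 1),
        (meromorphicOrderAt (zetaOf (((p : ℝ) ^ b) ^ N) deg (fun x => α x ^ N))
          ((j : ℂ) / 2)).untop₀ *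
        (meromorphicOrderAt (zetaOf (((p : ℝ) ^ b) ^ N) deg' (fun y => β y ^ N))
          (((k - j : ℕ) : ℂ) / 2)).untop₀ : ℤ) : WithTop ℤ) := by
  classical
  have hp : p.Prime := Fact.out
  have hp1 : (1 : ℝ) < p := by exact_mod_cast hp.one_lt
  have hweil' : ∀ i, ∀ φ : K i →+* ℂ, ‖φ (π i)‖ ^ 2 = (((p : ℚ) ^ m i : ℚ) : ℝ) := by
    intro i φ
    rw [hweil i φ]
    push_cast
    rfl
  have hsep' : ∀ i ∈ Sᶜ, ∀ j ∉ Sᶜ, Separated (K i) (K j) := fun i hi j hj =>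
    (hsep j (not_not.1 hj) i hi).symm
  obtain ⟨q, hq⟩ : ∃ q : ℝ, q = (p : ℝ) ^ b := ⟨_, rfl⟩
  have hq1 : 1 < q := by
    rw [hq]
    exact one_lt_pow₀ hp1 hb.ne'
  have hq0 : 0 < q := by linarith
  have hqc : (q : ℂ) = (p : ℂ) ^ b := by
    rw [hq]
    push_cast
    rfl
  have hqc0 : (q : ℂ) ≠ 0 := by exact_mod_cast hq0.ne'
  rw [← hq]
  rw [← hq] at hα hβ
  -- the exponents
  have hexα : ∀ x, ∃ a : ℕ, 0 < a ∧ ((∃ A : ℕ, 0 < A ∧ α x ^ (2 * A) = ((q : ℂ) ^ deg x) ^ A) →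
      α x ^ (2 * a) = ((q : ℂ) ^ deg x) ^ a) := by
    intro x
    by_cases h : ∃ A : ℕ, 0 < A ∧ α x ^ (2 * A) = ((q : ℂ) ^ deg x) ^ A
    · obtain ⟨A, hA, h1⟩ := h
      exact ⟨A, hA, fun _ => h1⟩
    · exact ⟨1, one_pos, fun h' => absurd h' h⟩
  have hexβ : ∀ y, ∃ a : ℕ, 0 < a ∧ ((∃ A : ℕ, 0 < A ∧ β y ^ (2 * A) = ((q : ℂ) ^ deg' y) ^ A) →
      β y ^ (2 * a) = ((q : ℂ) ^ deg' y) ^ a) := by
    intro y
    by_cases h : ∃ A : ℕ, 0 < A ∧ β y ^ (2 * A) = ((q : ℂ) ^ deg' y) ^ A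
    · obtain ⟨A, hA, h1⟩ := h
      exact ⟨A, hA, fun _ => h1⟩
    · exact ⟨1, one_pos, fun h' => absurd h' h⟩
  choose a ha ha' using hexα
  choose a' hb' hb'' using hexβ
  refine ⟨2 * ((∏ x, a x) * ∏ y, a' y), Nat.mul_pos two_pos (Nat.mul_pos
    (Finset.prod_pos fun x _ => ha x) (Finset.prod_pos fun y _ => hb' y)), ?_⟩
  rintro N hN ⟨t, hNt⟩ k
  obtain ⟨n, hn⟩ : ∃ n : ℕ, n = ((∏ x, a x) * ∏ y, a' y) * t := ⟨_, rfl⟩
  have hNn : N = 2 * n := by rw [hNt, hn, mul_assoc]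
  have hn0 : 0 < n := by omega
  have hdvd : ∀ x, a x ∣ n := fun x => by
    rw [hn]
    exact ((Finset.dvd_prod_of_mem a (Finset.mem_univ x)).mul_right _).mul_right _
  have hdvd' : ∀ y, a' y ∣ n := fun y => by
    rw [hn]
    exact ((Finset.dvd_prod_of_mem a' (Finset.mem_univ y)).mul_left _).mul_right _
  -- powers of `q` are different
  have hinj : ∀ i j : ℕ, (q : ℂ) ^ (n * i) = (q : ℂ) ^ (n * j) → i = j := by
    intro i j h
    have h1 : (q : ℝ) ^ (n * i) = q ^ (n * j) := by exact_mod_cast h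
    have h2 := pow_right_injective₀ hq0 hq1.ne' h1
    exact Nat.eq_of_mul_eq_mul_left hn0 h2
  -- the main equivalence
  have key : ∀ x y, (if (α x * β y) ^ N = (q : ℂ) ^ (n * k) then (1 : ℤ) else 0) =
      ∑ j ∈ Finset.range (k + 1), (if α x ^ N = (q : ℂ) ^ (n * j) then (1 : ℤ) else 0) *
        (if β y ^ N = (q : ℂ) ^ (n * (k - j)) then (1 : ℤ) else 0) := by
    intro x y
    by_cases h : (α x * β y) ^ N = (q : ℂ) ^ (n * k)
    · have h1 : (α x * β y) ^ N = (p : ℂ) ^ ((b * (n * k) : ℕ) : ℤ) := by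
        rw [h, hqc, ← pow_mul, zpow_natCast]
      have h1' : (β y * α x) ^ N = (p : ℂ) ^ ((b * (n * k) : ℕ) : ℤ) := by
        rw [mul_comm, h1]
      obtain ⟨A, B, hA, hAB⟩ := left_of_relation p m π hint hweil' S hsep (α x) (β y) (hαS x)
        (hβS y) N hN _ h1
      obtain ⟨A', B', hA', hAB'⟩ := left_of_relation p m π hint hweil' Sᶜ hsep' (β y) (α x)
        (hβS y) (by rw [compl_compl]; exact hαS x) N hN _ h1'
      have hx := ha' x ⟨A, hA, by
        rw [hqc]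
        exact torsion_weight p b (deg x) (α x) (by rw [hα, hq]) A B hAB⟩
      have hy := hb'' y ⟨A', hA', by
        rw [hqc]
        exact torsion_weight p b (deg' y) (β y) (by rw [hβ, hq]) A' B' hAB'⟩
      have hxN : α x ^ N = (q : ℂ) ^ (n * deg x) := by
        obtain ⟨u, hu⟩ := hdvd x
        rw [hNn, hu, ← mul_assoc, pow_mul, hx, ← pow_mul, ← pow_mul]
        congr 1
        ring
      have hyN : β y ^ N = (q : ℂ) ^ (n * deg' y) := by
        obtain ⟨u, hu⟩ := hdvd' y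
        rw [hNn, hu, ← mul_assoc, pow_mul, hy, ← pow_mul, ← pow_mul]
        congr 1
        ring
      have hk : deg x + deg' y = k := by
        apply hinj
        rw [mul_add, pow_add, ← hxN, ← hyN, ← mul_pow, h]
      rw [if_pos h, Finset.sum_eq_single (deg x)]
      · rw [if_pos hxN, if_pos (by rw [hyN]; congr 2; omega), one_mul]
      · intro j _ hj
        rw [if_neg, zero_mul]
        intro h2
        apply hj
        apply hinj
        rw [← h2, hxN]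
      · intro h2
        exfalso
        apply h2
        rw [Finset.mem_range]
        omega
    · rw [if_neg h]
      symm
      refine Finset.sum_eq_zero fun j hj => ?_
      have hj' : j ≤ k := by
        have := Finset.mem_range.1 hj
        omega
      by_cases h1 : α x ^ N = (q : ℂ) ^ (n * j)
      · by_cases h2 : β y ^ N = (q : ℂ) ^ (n * (k - j))
        · exfalso
          apply h
          rw [mul_pow, h1, h2, ← pow_add, ← mul_add, Nat.add_sub_cancel' hj']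
        · rw [if_neg h2, mul_zero]
      · rw [if_neg h1, zero_mul]
  have hqN : 1 < q ^ N := one_lt_pow₀ hq1 hN.ne'
  have hhalf : ∀ k : ℕ, ((q ^ N : ℝ) : ℂ) ^ ((k : ℂ) / 2) = (q : ℂ) ^ (n * k) := by
    intro k
    rw [hNn]
    exact half_pow q hq0 n k
  rw [order_zetaOf _ hqN]
  congr 1
  simp only [order_zetaOf _ hqN, WithTop.untop₀_coe, hhalf]
  have e1 : ∀ (P : Prop) [Decidable P] (d : ℕ), (if P then (-1 : ℤ) ^ (d + 1) else 0) =
      (-1 : ℤ) ^ (d + 1) * (if P then (1 : ℤ) else 0) := by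
    intro P _ d
    split_ifs <;> simp
  simp only [e1, key]
  exact sum_reorder deg deg' (Finset.range (k + 1))
    (fun x j => if α x ^ N = (q : ℂ) ^ (n * j) then (1 : ℤ) else 0)
    (fun y j => if β y ^ N = (q : ℂ) ^ (n * (k - j)) then (1 : ℤ) else 0)

end Pool.Agent.Helper793_Prime
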